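import Pool.Agent.H.MP_215299_an.CC.SmA

/-!
CC, module Bar2: a maximum principle in the upper half plane with one exceptional boundary point.
-/

set_option autoImplicit false

open Complex Metric Set MeasureTheory Filter Topology InnerProductSpace
open scoped ComplexConjugate

namespace Pool.Agent.H.MP_215299_an.CC

/-- The harmonic measure of the half line `r < b`. PROOF: `arg (g - b) = Im log (g - b)`, `Complex.continuousWithinAt_arg_of_re_neg_of_im_zero`. -/
theorem arg_facts (b : ℝ) : (∀ g ∈ Hp, HarmonicAt (fun z : ℂ => (z - b).arg) g) ∧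
    (∀ g ∈ Hp, 0 ≤ (g - b).arg ∧ (g - b).arg ≤ Real.pi) ∧
    (∀ r : ℝ, r < b → Tendsto (fun z : ℂ => (z - b).arg) (𝓝[Hp] (r : ℂ)) (𝓝 Real.pi)) ∧
    (∀ r : ℝ, b < r → Tendsto (fun z : ℂ => (z - b).arg) (𝓝[Hp] (r : ℂ)) (𝓝 0)) := by
  refine ⟨fun g hg => ?_, fun g hg => ?_, fun r hr => ?_, fun r hr => ?_⟩
  · have h1 : AnalyticAt ℂ (fun z : ℂ => Complex.log (z - b)) g := by
      refine (analyticAt_id.sub analyticAt_const).clog ?_
      rw [Complex.mem_slitPlane_iff]
      right
      have h2 : (g - (b : ℂ)).im = g.im := by simp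
      show (g - (b : ℂ)).im ≠ 0
      rw [h2]
      exact ne_of_gt hg
    have h3 := h1.harmonicAt_im
    have h4 : (fun z : ℂ => (z - b).arg) = fun z : ℂ => (Complex.log (z - b)).im := by
      funext z
      rw [Complex.log_im]
    rw [h4]
    exact h3
  · refine ⟨?_, Complex.arg_le_pi _⟩
    rw [Complex.arg_nonneg_iff]
    have h2 : (g - (b : ℂ)).im = g.im := by simp
    rw [h2]
    exact le_of_lt hg
  · have h1 : ContinuousWithinAt Complex.arg {z : ℂ | 0 ≤ z.im} (((r - b : ℝ)) : ℂ) := by
      refine Complex.continuousWithinAt_arg_of_re_neg_of_im_zero ?_ ?_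
      · rw [Complex.ofReal_re]
        linarith
      · rw [Complex.ofReal_im]
    have h2 : Tendsto (fun z : ℂ => z - b) (𝓝[Hp] (r : ℂ))
        (𝓝[{z : ℂ | 0 ≤ z.im}] (((r - b : ℝ)) : ℂ)) := by
      refine tendsto_nhdsWithin_iff.2 ⟨?_, ?_⟩
      · have h3 : Continuous fun z : ℂ => z - b := by fun_prop
        have h4 := (h3.tendsto (r : ℂ)).mono_left (nhdsWithin_le_nhds (s := Hp))
        rw [Complex.ofReal_sub]
        exact h4
      · filter_upwards [self_mem_nhdsWithin] with z hz
        have h5 : (z - (b : ℂ)).im = z.im := by simp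
        show 0 ≤ (z - (b : ℂ)).im
        rw [h5]
        exact le_of_lt hz
    have h6 := h1.tendsto.comp h2
    rw [Complex.arg_ofReal_of_neg (by linarith)] at h6
    exact h6
  · have h1 : ContinuousAt Complex.arg (((r - b : ℝ)) : ℂ) := by
      refine Complex.continuousAt_arg ?_
      rw [Complex.mem_slitPlane_iff]
      left
      rw [Complex.ofReal_re]
      linarith
    have h3 : Continuous fun z : ℂ => z - b := by fun_prop
    have h4 := (h3.tendsto (r : ℂ)).mono_left (nhdsWithin_le_nhds (s := Hp))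
    have h5 : Tendsto (fun z : ℂ => z - b) (𝓝[Hp] (r : ℂ)) (𝓝 (((r - b : ℝ)) : ℂ)) := by
      rw [Complex.ofReal_sub]
      exact h4
    have h6 := h1.tendsto.comp h5
    rw [Complex.arg_ofReal_of_nonneg (by linarith)] at h6
    exact h6

end Pool.Agent.H.MP_215299_an.CC
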