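import Pool.Agent.H.MP_215299_an.CC.Defs

/-!
CC, module SmB: a maximum principle.
-/

set_option autoImplicit false

open Complex Metric Set MeasureTheory Filter Topology InnerProductSpace
open scoped ComplexConjugate

namespace Pool.Agent.H.MP_215299_an.CC

/-- PROOF: suppose `φ w₁ > 0`; take `K` for `ε = φ w₁ / 2`, so `w₁ ∈ K` and the maximum `m` of `φ` on `K` is `≥ φ w₁ > ε`, hence the
maximum on `U`. The set `{w ∈ K | φ w = m}` is compact; let `w₂` be a point of it with maximal real part. For small `r` the circle about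
`w₂` is in `U`, `φ ≤ m` on it and the average is `≥ m`, so `φ = m` on the circle by continuity (or: if `φ (w₂ + r) < m` the average
is `< m`); `w₂ + r` has larger real part and lies in `K` since `φ ≤ ε < m` off `K`: contradiction. -/
theorem max0 {U : Set ℂ} {φ : ℂ → ℝ} (hU : IsOpen U) (hc : ContinuousOn φ U) (hs : ∀ w ∈ U, SubM φ w)
    (hK : ∀ ε > 0, ∃ K ⊆ U, IsCompact K ∧ ∀ w ∈ U, w ∉ K → φ w ≤ ε) : ∀ w ∈ U, φ w ≤ 0 := by
  classical
  by_contra hcon
  push Not at hcon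
  obtain ⟨w₁, hw₁, hpos⟩ := hcon
  obtain ⟨K, hKU, hKc, hKε⟩ := hK (φ w₁ / 2) (by positivity)
  have hw₁K : w₁ ∈ K := by
    by_contra h
    have := hKε w₁ hw₁ h
    linarith
  obtain ⟨wm, hwm, hmax⟩ := hKc.exists_isMaxOn ⟨w₁, hw₁K⟩ (hc.mono hKU)
  have hm1 : φ w₁ ≤ φ wm := hmax hw₁K
  have hle : ∀ w ∈ U, φ w ≤ φ wm := by
    intro w hw
    by_cases h : w ∈ K
    · exact hmax h
    · have := hKε w hw h
      linarith
  have hMcl : IsClosed (K ∩ φ ⁻¹' {φ wm}) :=
    (hc.mono hKU).preimage_isClosed_of_isClosed hKc.isClosed isClosed_singleton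
  have hMc : IsCompact (K ∩ φ ⁻¹' {φ wm}) := hKc.of_isClosed_subset hMcl inter_subset_left
  obtain ⟨w₂, hw₂, hre⟩ := hMc.exists_isMaxOn ⟨wm, hwm, rfl⟩ Complex.continuous_re.continuousOn
  have hw₂U : w₂ ∈ U := hKU hw₂.1
  have hφ2 : φ w₂ = φ wm := hw₂.2
  have hball : ∀ᶠ r in 𝓝[>] (0 : ℝ), closedBall w₂ r ⊆ U := by
    obtain ⟨ε, hε, hb⟩ := Metric.isOpen_iff.mp hU w₂ hw₂U
    filter_upwards [Ioo_mem_nhdsGT hε] with r hr
    exact (closedBall_subset_ball hr.2).trans hb
  obtain ⟨r, ⟨⟨hint, hav⟩, hbr⟩, hr0⟩ :=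
    (((hs w₂ hw₂U).and hball).and self_mem_nhdsWithin).exists
  have hr : (0 : ℝ) < r := hr0
  have hcm : ∀ θ, circleMap w₂ r θ ∈ U := fun θ =>
    hbr (sphere_subset_closedBall (circleMap_mem_sphere w₂ hr.le θ))
  have hz : φ (circleMap w₂ r 0) < φ wm := by
    rcases (hle _ (hcm 0)).lt_or_eq with h | h
    · exact h
    · exfalso
      have hzK : circleMap w₂ r 0 ∈ K := by
        by_contra h2
        have := hKε _ (hcm 0) h2
        linarith
      have h3 : (circleMap w₂ r 0).re ≤ w₂.re := hre ⟨hzK, h⟩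
      simp [circleMap] at h3
      linarith
  have hcont : Continuous fun θ => φ (circleMap w₂ r θ) :=
    hc.comp_continuous (continuous_circleMap w₂ r) hcm
  have hlt : ∫ θ in (0 : ℝ)..2 * Real.pi, φ (circleMap w₂ r θ) <
      ∫ _ in (0 : ℝ)..2 * Real.pi, φ wm :=
    intervalIntegral.integral_lt_integral_of_continuousOn_of_le_of_exists_lt
      Real.two_pi_pos hcont.continuousOn continuousOn_const (fun θ _ => hle _ (hcm θ))
      ⟨0, ⟨le_rfl, Real.two_pi_pos.le⟩, hz⟩
  rw [intervalIntegral.integral_const, sub_zero, smul_eq_mul] at hlt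
  have hav2 : Real.circleAverage φ w₂ r < φ wm := by
    unfold Real.circleAverage
    rw [smul_eq_mul, inv_mul_lt_iff₀ Real.two_pi_pos]
    exact hlt
  linarith

end Pool.Agent.H.MP_215299_an.CC
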