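import Pool.Agent.H.MP_215299_an.CC.SmA
import Pool.Agent.H.MP_215299_an.CC.SmB

/-!
CC, module Bar1: a maximum principle in the upper half plane with one exceptional boundary point.
-/

set_option autoImplicit false

open Complex Metric Set MeasureTheory Filter Topology InnerProductSpace
open scoped ComplexConjugate

namespace Pool.Agent.H.MP_215299_an.CC

/-- the barrier function -/
private noncomputable def Bar1L (b : ℝ) (g : ℂ) : ℝ :=
  2 * Real.log ‖g - b + I‖ - Real.log ‖g - b‖

private theorem Bar1_im {b : ℝ} {g : ℂ} (hg : g ∈ Hp) : 0 < (g - b).im := by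
  have h : 0 < g.im := hg
  simpa using h

private theorem Bar1_ne {b : ℝ} {g : ℂ} (hg : g ∈ Hp) : g - b ≠ 0 := by
  intro h
  have h1 := Bar1_im (b := b) hg
  rw [h] at h1
  simp at h1

private theorem Bar1_nsq {G : ℂ} : ‖G + I‖ ^ 2 = ‖G‖ ^ 2 + 2 * G.im + 1 := by
  rw [Complex.sq_norm, Complex.sq_norm, Complex.normSq_apply, Complex.normSq_apply]
  simp only [add_re, I_re, add_zero, add_im, I_im]
  ring

private theorem Bar1_one {b : ℝ} {g : ℂ} (hg : g ∈ Hp) : 1 ≤ ‖g - b + I‖ := by
  have h1 := Bar1_im (b := b) hg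
  have h2 := Bar1_nsq (G := g - b)
  have h3 : 0 ≤ ‖g - b‖ ^ 2 := sq_nonneg _
  have h4 : 0 ≤ ‖g - b + I‖ := norm_nonneg _
  nlinarith

private theorem Bar1_le {b : ℝ} {g : ℂ} (hg : g ∈ Hp) : ‖g - b‖ ≤ ‖g - b + I‖ := by
  have h1 := Bar1_im (b := b) hg
  have h2 := Bar1_nsq (G := g - b)
  have h4 : 0 ≤ ‖g - b + I‖ := norm_nonneg _
  have h5 : 0 ≤ ‖g - b‖ := norm_nonneg _
  nlinarith

private theorem Bar1_ne2 {b : ℝ} {g : ℂ} (hg : g ∈ Hp) : g - b + I ≠ 0 := by
  intro h
  have h1 := Bar1_one (b := b) hg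
  rw [h, norm_zero] at h1
  linarith

private theorem Bar1_harm {b : ℝ} {g : ℂ} (hg : g ∈ Hp) : HarmonicAt (Bar1L b) g := by
  have h1 : HarmonicAt (fun z : ℂ => Real.log ‖z - b + I‖) g :=
    AnalyticAt.harmonicAt_log_norm (f := fun z : ℂ => z - b + I) (by fun_prop) (Bar1_ne2 hg)
  have h2 : HarmonicAt (fun z : ℂ => Real.log ‖z - b‖) g :=
    AnalyticAt.harmonicAt_log_norm (f := fun z : ℂ => z - b) (by fun_prop) (Bar1_ne hg)
  exact (h1.const_smul (c := (2 : ℝ))).sub h2

private theorem Bar1_cont {b : ℝ} {g : ℂ} (hg : g ∈ Hp) : ContinuousAt (Bar1L b) g := by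
  have h1 : ‖g - b + I‖ ≠ 0 := norm_ne_zero_iff.2 (Bar1_ne2 hg)
  have h2 : ‖g - b‖ ≠ 0 := norm_ne_zero_iff.2 (Bar1_ne hg)
  unfold Bar1L
  refine ContinuousAt.sub (continuousAt_const.mul (ContinuousAt.log ?_ h1))
    (ContinuousAt.log ?_ h2)
  · fun_prop
  · fun_prop

private theorem Bar1_far {b : ℝ} {g : ℂ} (hg : g ∈ Hp) : Real.log ‖g - b‖ ≤ Bar1L b g := by
  have h1 : Real.log ‖g - b‖ ≤ Real.log ‖g - b + I‖ :=
    Real.log_le_log (norm_pos_iff.2 (Bar1_ne hg)) (Bar1_le hg)
  unfold Bar1L
  linarith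

private theorem Bar1_near {b : ℝ} {g : ℂ} (hg : g ∈ Hp) : - Real.log ‖g - b‖ ≤ Bar1L b g := by
  have h1 : 0 ≤ Real.log ‖g - b + I‖ := Real.log_nonneg (Bar1_one hg)
  unfold Bar1L
  linarith

private theorem Bar1_nn {b : ℝ} {g : ℂ} (hg : g ∈ Hp) : 0 ≤ Bar1L b g := by
  have h1 := Bar1_far (b := b) hg
  have h2 := Bar1_near (b := b) hg
  linarith

/-- PROOF: for `η > 0` apply `max0` on the upper half plane to `φ - η L`, `L g = 2 log ‖g - b + i‖ - log ‖g - b‖`, which is harmonic and
`≥ 0` there (`‖G + i‖ ≥ max 1 ‖G‖` for `Im G > 0`) and tends to infinity at `b` and at infinity. For `ε > 0`, the set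
`{g ∈ Hp | ε ≤ φ g - η L g}` is contained in a compact subset of `Hp`: it stays away from `b` and infinity because `φ ≤ B`, and
from the other real points by `hbd` (compactness of a segment). Then `η → 0`. -/
theorem hp_max {φ : ℂ → ℝ} {B b : ℝ} (hc : ∀ g ∈ Hp, ContinuousAt φ g) (hs : ∀ g ∈ Hp, SubM φ g)
    (hB : ∀ g ∈ Hp, φ g ≤ B)
    (hbd : ∀ r : ℝ, r ≠ b → ∀ ε > 0, ∀ᶠ g in 𝓝[Hp] (r : ℂ), φ g ≤ ε) : ∀ g ∈ Hp, φ g ≤ 0 := by
  have hopen : IsOpen Hp := isOpen_lt continuous_const Complex.continuous_im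
  have key : ∀ η > 0, ∀ g ∈ Hp, φ g + (-η) * Bar1L b g ≤ 0 := by
    intro η hη
    refine max0 hopen ?_ ?_ ?_
    · intro g hg
      exact ((hc g hg).add (continuousAt_const.mul (Bar1_cont hg))).continuousWithinAt
    · intro g hg
      refine SubM.add (hs g hg) (SubM.of_harmonic ?_)
      exact (Bar1_harm hg).const_smul (c := -η)
    · intro ε hε
      set V : Set ℂ := interior {z | z ∈ Hp → φ z ≤ ε} with hV
      set ρ : ℝ := Real.exp (-((B - ε) / η)) with hρ
      set R : ℝ := Real.exp ((B - ε) / η) with hR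
      refine ⟨({z : ℂ | 0 ≤ z.im} ∩ {z : ℂ | ρ ≤ ‖z - b‖} ∩ {z : ℂ | ‖z - b‖ ≤ R}) ∩ Vᶜ, ?_, ?_, ?_⟩
      · rintro z ⟨⟨⟨h1, h2⟩, _⟩, h3⟩
        by_contra hz
        have him : z.im = 0 := le_antisymm (not_lt.1 hz) h1
        have hz2 : z = ((z.re : ℝ) : ℂ) := Complex.ext rfl (by simp [him])
        have hne : z.re ≠ b := by
          intro h
          have h4 : ρ ≤ ‖z - b‖ := h2
          rw [hz2, h, sub_self, norm_zero] at h4
          have h5 : 0 < ρ := Real.exp_pos _
          linarith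
        apply h3
        rw [hV, mem_interior_iff_mem_nhds, hz2]
        have h6 := hbd z.re hne ε hε
        rw [eventually_nhdsWithin_iff] at h6
        exact h6
      · refine Metric.isCompact_of_isClosed_isBounded ?_ ?_
        · refine IsClosed.inter (IsClosed.inter (IsClosed.inter ?_ ?_) ?_) ?_
          · exact isClosed_le continuous_const Complex.continuous_im
          · exact isClosed_le continuous_const (by fun_prop)
          · exact isClosed_le (by fun_prop) continuous_const
          · exact isOpen_interior.isClosed_compl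
        · refine (Metric.isBounded_closedBall (x := (b : ℂ)) (r := R)).subset ?_
          rintro z ⟨⟨_, h1⟩, _⟩
          rw [mem_closedBall, dist_eq_norm]
          exact h1
      · intro g hg hgK
        have hpos : 0 < ‖g - b‖ := norm_pos_iff.2 (Bar1_ne hg)
        have hφ := hB g hg
        by_cases h1 : ρ ≤ ‖g - b‖
        · by_cases h2 : ‖g - b‖ ≤ R
          · have h3 : g ∈ V := by
              by_contra h3
              exact hgK ⟨⟨⟨(show (0 : ℝ) ≤ g.im from le_of_lt (show (0 : ℝ) < g.im from hg)), h1⟩, h2⟩, h3⟩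
            have h4 : φ g ≤ ε := interior_subset h3 hg
            have h5 := Bar1_nn (b := b) hg
            nlinarith
          · have h3 : R < ‖g - b‖ := not_le.1 h2
            have h4 : (B - ε) / η < Real.log ‖g - b‖ := by
              rw [Real.lt_log_iff_exp_lt hpos]
              exact h3
            have h5 := Bar1_far (b := b) hg
            have h6 : B - ε < η * Bar1L b g := by
              rw [div_lt_iff₀ hη] at h4
              nlinarith
            linarith
        · have h3 : ‖g - b‖ < ρ := not_le.1 h1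
          have h4 : Real.log ‖g - b‖ < -((B - ε) / η) := by
            rw [Real.log_lt_iff_lt_exp hpos]
            exact h3
          have h5 := Bar1_near (b := b) hg
          have h6 : (B - ε) / η < Bar1L b g := by linarith
          have h7 : B - ε < η * Bar1L b g := by
            rw [div_lt_iff₀ hη] at h6
            linarith
          linarith
  intro g hg
  by_contra hpos
  have hpos' : 0 < φ g := not_le.1 hpos
  have hL := Bar1_nn (b := b) hg
  have h1 := key (φ g / (2 * (Bar1L b g + 1))) (by positivity) g hg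
  have h2 : φ g / (2 * (Bar1L b g + 1)) * Bar1L b g < φ g := by
    rw [div_mul_eq_mul_div, div_lt_iff₀ (by positivity)]
    nlinarith
  linarith

end Pool.Agent.H.MP_215299_an.CC
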