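import Pool.Agent.H.MP_215299_an.CC.Defs

/-!
CC, module Cst: the point `g₀` which `lam κ` sends to `w₀ = a + (1 + i) δ / 8`.

PROOF. `g₀ = √(w₀ - κ i) √(w₀ + κ i)`, principal roots. Both radicands have real part `a + δ/8 > 0`, so both roots have argument in
`(-π/4, π/4)` and `g₀` has positive real part; `g₀² = w₀² + κ²` has imaginary part `(a + δ/8) δ / 4 > 0`; so `Im g₀ > 0`.
`κ² - g₀² = - w₀² = (-i w₀)²` and `-i w₀` has real part `Im w₀ > 0`, so `lam κ g₀ = i (-i w₀) = w₀`. `sc κ g₀ = √(w₀ - κ i)`, and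
`sd κ g₀ = conj √(w₀ + κ i) = √(conj w₀ - κ i)`.
Size: `Re g₀² = a² + κ² + a δ / 4 = δ² + a δ / 4 ≤ 5 δ² / 4`, `δ²/32 ≤ Im g₀² ≤ 9 δ² / 32`, so `‖g₀‖² ≤ 1.3 δ²`, `Re g₀ ≤ 1.15 δ`,
`Im g₀ = Im g₀² / (2 Re g₀) ≥ δ / 74`, `Re g₀ + κ ≤ 2.15 δ`; the argument of `g₀ + κ` is `≥ 1/160 ·` something, more than `π / 1000`
(e.g. `sin`/`arctan`: `arg ≥ Im / ‖g₀ + κ‖ ≥ (1/74) / 2.2 > 1/170 > π/1000`).
-/

set_option autoImplicit false

open Complex Metric Set MeasureTheory Filter Topology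
open scoped ComplexConjugate

namespace Pool.Agent.H.MP_215299_an.CC

private theorem Cst_sq (z : ℂ) : Complex.sqrt z ^ 2 = z := by
  unfold Complex.sqrt
  have h := Complex.cpow_nat_inv_pow z two_ne_zero
  rw [Nat.cast_ofNat] at h
  exact h

private theorem Cst_uniq {z : ℂ} (hz : 0 < z.re) : Complex.sqrt (z ^ 2) = z :=
  Complex.sq_cpow_two_inv hz

private theorem Cst_re {z : ℂ} (hz : 0 < z.re) : 0 < (Complex.sqrt z).re := by
  unfold Complex.sqrt
  rw [Complex.cpow_inv_two_re]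
  apply Real.sqrt_pos.2
  have := norm_nonneg z
  linarith

private theorem Cst_le {x y : ℝ} (h : x ^ 2 ≤ y ^ 2) (hy : 0 ≤ y) : x ≤ y :=
  (le_abs_self x).trans (abs_le_of_sq_le_sq h hy)

theorem g0_facts {a κ δ : ℝ} (hκ : 0 ≤ κ) (ha : 0 ≤ a) (hδ : 0 < δ) (hd : a ^ 2 + κ ^ 2 = δ ^ 2) :
    ∃ g₀ : ℂ, 0 < g₀.im ∧ lam κ g₀ = a + (1 + I) * δ / 8 ∧
      sc κ g₀ = Complex.sqrt (a + (1 + I) * δ / 8 - κ * I) ∧
      sd κ g₀ = Complex.sqrt (a + (1 - I) * δ / 8 - κ * I) ∧
      Real.pi / 1000 ≤ (g₀ + κ).arg := by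
  obtain ⟨w, hw⟩ : ∃ w : ℂ, w = (a : ℂ) + (1 + I) * δ / 8 := ⟨_, rfl⟩
  have hwre : w.re = a + δ / 8 := by
    rw [hw]
    simp
  have hwim : w.im = δ / 8 := by
    rw [hw]
    simp
  have haδ : a ≤ δ := by nlinarith [sq_nonneg κ]
  have hκδ : κ ≤ δ := by nlinarith [sq_nonneg a]
  obtain ⟨p, hp⟩ : ∃ p : ℂ, p = Complex.sqrt (w - κ * I) := ⟨_, rfl⟩
  obtain ⟨q, hq⟩ : ∃ q : ℂ, q = Complex.sqrt (w + κ * I) := ⟨_, rfl⟩
  have hp2 : p ^ 2 = w - κ * I := by rw [hp, Cst_sq]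
  have hq2 : q ^ 2 = w + κ * I := by rw [hq, Cst_sq]
  have hpre : 0 < (w - κ * I).re := by
    have : (w - κ * I).re = a + δ / 8 := by simp [hwre]
    rw [this]
    positivity
  have hqre : 0 < (w + κ * I).re := by
    have : (w + κ * I).re = a + δ / 8 := by simp [hwre]
    rw [this]
    positivity
  have hp0 : 0 < p.re := by rw [hp]; exact Cst_re hpre
  have hq0 : 0 < q.re := by rw [hq]; exact Cst_re hqre
  have hp1 : p.im ^ 2 < p.re ^ 2 := by
    have h1 : (p ^ 2).re = p.re ^ 2 - p.im ^ 2 := by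
      rw [sq, Complex.mul_re]; ring
    rw [hp2] at h1
    linarith
  have hq1 : q.im ^ 2 < q.re ^ 2 := by
    have h1 : (q ^ 2).re = q.re ^ 2 - q.im ^ 2 := by
      rw [sq, Complex.mul_re]; ring
    rw [hq2] at h1
    linarith
  have hp3 : |p.im| < p.re := by
    have := abs_lt_of_sq_lt_sq hp1 hp0.le
    exact this
  have hq3 : |q.im| < q.re := abs_lt_of_sq_lt_sq hq1 hq0.le
  have hg0 : 0 < (p * q).re := by
    rw [Complex.mul_re]
    have h1 : p.im * q.im ≤ |p.im| * |q.im| := by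
      rw [← abs_mul]
      exact le_abs_self _
    have h2 : |p.im| * |q.im| < p.re * q.re :=
      mul_lt_mul'' hp3 hq3 (abs_nonneg _) (abs_nonneg _)
    linarith
  have hg2 : (p * q) ^ 2 = w ^ 2 + (κ : ℂ) ^ 2 := by
    rw [mul_pow, hp2, hq2]
    linear_combination (-(κ : ℂ) ^ 2) * Complex.I_sq
  have hgim : (p * q).re * (p * q).im = (a + δ / 8) * (δ / 8) := by
    have h1 : ((p * q) ^ 2).im = 2 * ((p * q).re * (p * q).im) := by
      rw [sq, Complex.mul_im]; ring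
    have h2 : (w ^ 2 + (κ : ℂ) ^ 2).im = 2 * ((a + δ / 8) * (δ / 8)) := by
      rw [Complex.add_im, sq, Complex.mul_im, hwre, hwim]
      have : ((κ : ℂ) ^ 2).im = 0 := by
        rw [← Complex.ofReal_pow, Complex.ofReal_im]
      rw [this]
      ring
    rw [hg2, h2] at h1
    linarith
  have hgpos : 0 < (p * q).im := by
    have h1 : 0 < (p * q).re * (p * q).im := by
      rw [hgim]
      positivity
    exact (pos_iff_pos_of_mul_pos h1).1 hg0
  have hlam : lam κ (p * q) = w := by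
    unfold lam
    have h1 : (κ : ℂ) ^ 2 - (p * q) ^ 2 = (-I * w) ^ 2 := by
      rw [hg2]
      linear_combination (-w ^ 2) * Complex.I_sq
    have h2 : 0 < (-I * w).re := by
      have : (-I * w).re = w.im := by simp
      rw [this, hwim]
      positivity
    rw [h1, Cst_uniq h2]
    linear_combination (-w) * Complex.I_sq
  have hq00 : q ≠ 0 := by
    intro h
    rw [h] at hq0
    simp at hq0
  refine ⟨p * q, hgpos, ?_, ?_, ?_, ?_⟩
  · rw [hlam, hw]
  · unfold sc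
    rw [hlam, ← hq, mul_div_assoc, div_self hq00, mul_one, hp, hw]
  · unfold sd
    rw [hlam, ← hq]
    have h1 : (a : ℂ) + (1 - I) * δ / 8 - κ * I = (conj q) ^ 2 := by
      have h8 : (starRingEnd ℂ) 8 = 8 := by
        rw [show (8 : ℂ) = ((8 : ℝ) : ℂ) by norm_num, Complex.conj_ofReal]
      rw [← map_pow, hq2, hw]
      simp only [map_add, map_mul, map_div₀, map_one, Complex.conj_ofReal, Complex.conj_I, h8]
      ring
    rw [h1, Cst_uniq]
    rw [Complex.conj_re]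
    exact hq0
  · -- the argument
    have hn : ‖p * q‖ ^ 2 ≤ 41 / 32 * δ ^ 2 := by
      rw [← norm_pow, hg2]
      refine (norm_add_le _ _).trans ?_
      rw [norm_pow, norm_pow, Complex.norm_real, Real.norm_eq_abs, sq_abs, ← Complex.normSq_eq_norm_sq,
        Complex.normSq_apply, hwre, hwim]
      nlinarith
    have hn1 : ‖p * q‖ ≤ 115 / 100 * δ := by
      apply Cst_le _ (by positivity)
      nlinarith [sq_nonneg δ]
    have hre1 : (p * q).re ≤ 115 / 100 * δ := (Complex.re_le_norm _).trans hn1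
    have him : δ / 74 ≤ (p * q).im := by
      by_contra hcon
      push Not at hcon
      have h1 : (p * q).re * (p * q).im < (115 / 100 * δ) * (δ / 74) := by
        calc (p * q).re * (p * q).im ≤ (115 / 100 * δ) * (p * q).im := by gcongr
          _ < (115 / 100 * δ) * (δ / 74) := by gcongr
      rw [hgim] at h1
      nlinarith [mul_nonneg ha hδ.le, mul_pos hδ hδ]
    have hzim : ((p * q + κ : ℂ)).im = (p * q).im := by simp
    have hzn : ‖(p * q + κ : ℂ)‖ ≤ 215 / 100 * δ := by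
      refine (norm_add_le _ _).trans ?_
      rw [Complex.norm_real, Real.norm_eq_abs, abs_of_nonneg hκ]
      linarith
    have harg0 : 0 ≤ (p * q + κ : ℂ).arg := by
      rw [Complex.arg_nonneg_iff, hzim]
      exact hgpos.le
    have hz0 : (p * q + κ : ℂ) ≠ 0 := by
      intro h
      rw [h] at hzim
      simp only [Complex.zero_im] at hzim
      linarith
    have hzn0 : 0 < ‖(p * q + κ : ℂ)‖ := norm_pos_iff.2 hz0
    have hsin : (p * q).im / ‖(p * q + κ : ℂ)‖ ≤ (p * q + κ : ℂ).arg := by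
      rw [← hzim, ← Complex.sin_arg]
      exact Real.sin_le harg0
    refine le_trans ?_ hsin
    rw [div_le_div_iff₀ (by norm_num) hzn0]
    have hpi : Real.pi ≤ 3.15 := Real.pi_lt_d2.le
    calc Real.pi * ‖(p * q + κ : ℂ)‖ ≤ 3.15 * (215 / 100 * δ) := by
          apply mul_le_mul hpi hzn (norm_nonneg _) (by norm_num)
      _ ≤ δ / 74 * 1000 := by linarith
      _ ≤ (p * q).im * 1000 := by linarith

end Pool.Agent.H.MP_215299_an.CC
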