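import Pool.Agent.H.MP_215299_an.CC.Defs

/-!
CC, module Hk: the inequality of Harnack.
-/

set_option autoImplicit false

open Complex Metric Set MeasureTheory Filter Topology InnerProductSpace
open scoped ComplexConjugate

namespace Pool.Agent.H.MP_215299_an.CC

private theorem Hk_aux {h : ℂ → ℝ} {c : ℂ} {r : ℝ} (hh : HarmonicOnNhd h (closedBall c r))
    (h0 : ∀ z ∈ closedBall c r, 0 ≤ h z) {w : ℂ} (hw : w ∈ ball c r) :
    (r - ‖w - c‖) / (r + ‖w - c‖) * h c ≤ h w ∧ h w ≤ (r + ‖w - c‖) / (r - ‖w - c‖) * h c := by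
  have hr : 0 < r := pos_of_mem_ball hw
  have hr' : |r| = r := abs_of_pos hr
  have hc : ContinuousOn h (sphere c |r|) := by
    rw [hr']
    exact hh.continuousOn.mono sphere_subset_closedBall
  have hi : CircleIntegrable h c r := hc.circleIntegrable'
  have hm : Real.circleAverage h c r = h c := InnerProductSpace.HarmonicOnNhd.circleAverage_eq (by rw [hr']; exact hh)
  have hp := hh.circleAverage_re_herglotzRieszKernel_smul hw
  have hkc : ContinuousOn (re ∘ herglotzRieszKernel c w) (sphere c |r|) :=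
    Complex.continuous_re.comp_continuousOn (continuousOn_herglotzRieszKernel_sphere hw)
  have hki : CircleIntegrable ((re ∘ herglotzRieszKernel c w) • h) c r :=
    (hkc.smul hc).circleIntegrable'
  have hci : ∀ a : ℝ, CircleIntegrable (a • h) c r := fun a =>
    (hc.const_smul a).circleIntegrable'
  have hca : ∀ a : ℝ, Real.circleAverage (a • h) c r = a * h c := fun a => by
    rw [Real.circleAverage_smul, hm, smul_eq_mul]
  constructor
  · rw [← hp, ← hca]
    refine Real.circleAverage_mono (hci _) hki (fun x hx => ?_)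
    rw [hr'] at hx
    have h1 := le_re_herglotzRieszKernel hx hw
    simp only [Pi.smul_apply, Pi.smul_apply', smul_eq_mul, Function.comp_apply, herglotzRieszKernel_def]
    exact mul_le_mul_of_nonneg_right h1 (h0 _ (sphere_subset_closedBall hx))
  · rw [← hp, ← hca]
    refine Real.circleAverage_mono hki (hci _) (fun x hx => ?_)
    rw [hr'] at hx
    have h1 := re_herglotzRieszKernel_le hx hw
    simp only [Pi.smul_apply, Pi.smul_apply', smul_eq_mul, Function.comp_apply, herglotzRieszKernel_def]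
    exact mul_le_mul_of_nonneg_right h1 (h0 _ (sphere_subset_closedBall hx))

/-- PROOF: for `‖w - c‖ < r < R` the Poisson formula `HarmonicOnNhd.circleAverage_poissonKernel_smul` on `closedBall c r`, the bounds
`(r - ρ)/(r + ρ) ≤ poissonKernel ≤ (r + ρ)/(r - ρ)` (`le_re_herglotzRieszKernel`, `re_herglotzRieszKernel_le`, `poissonKernel_eq_re_herglotzRieszKernel`)
with `ρ = ‖w - c‖`, and the mean value property `h c = circleAverage h c r`; then `r → R`. -/
theorem harnack {h : ℂ → ℝ} {c : ℂ} {R : ℝ} (hh : ∀ z ∈ ball c R, HarmonicAt h z)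
    (h0 : ∀ z ∈ ball c R, 0 ≤ h z) {w : ℂ} (hw : w ∈ ball c R) :
    (R - ‖w - c‖) / (R + ‖w - c‖) * h w ≤ h c ∧ (R - ‖w - c‖) / (R + ‖w - c‖) * h c ≤ h w := by
  have hR : 0 < R := pos_of_mem_ball hw
  have hρ : ‖w - c‖ < R := mem_ball_iff_norm.1 hw
  have hn := norm_nonneg (w - c)
  have hlim : Tendsto (fun r : ℝ => (r - ‖w - c‖) / (r + ‖w - c‖)) (𝓝[<] R)
      (𝓝 ((R - ‖w - c‖) / (R + ‖w - c‖))) := by
    refine Tendsto.mono_left ?_ nhdsWithin_le_nhds
    have h1 : ContinuousAt (fun r : ℝ => (r - ‖w - c‖) / (r + ‖w - c‖)) R := by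
      refine ContinuousAt.div (by fun_prop) (by fun_prop) ?_
      positivity
    exact h1
  have hev : ∀ᶠ r in 𝓝[<] R, (r - ‖w - c‖) / (r + ‖w - c‖) * h w ≤ h c ∧
      (r - ‖w - c‖) / (r + ‖w - c‖) * h c ≤ h w := by
    filter_upwards [Ioo_mem_nhdsLT hρ] with r hr
    have hwr : w ∈ ball c r := mem_ball_iff_norm.2 hr.1
    have hsub : closedBall c r ⊆ ball c R := closedBall_subset_ball hr.2
    obtain ⟨h1, h2⟩ := Hk_aux (fun z hz => hh z (hsub hz)) (fun z hz => h0 z (hsub hz)) hwr
    refine ⟨?_, h1⟩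
    have ha : 0 < r - ‖w - c‖ := sub_pos.2 hr.1
    have hb : 0 < r + ‖w - c‖ := by linarith [hr.1]
    have hc0 : 0 ≤ (r - ‖w - c‖) / (r + ‖w - c‖) := by positivity
    calc (r - ‖w - c‖) / (r + ‖w - c‖) * h w
        ≤ (r - ‖w - c‖) / (r + ‖w - c‖) * ((r + ‖w - c‖) / (r - ‖w - c‖) * h c) :=
          mul_le_mul_of_nonneg_left h2 hc0
      _ = h c := by
          field_simp
  exact ⟨le_of_tendsto (hlim.mul_const _) (hev.mono fun r hr => hr.1),
    le_of_tendsto (hlim.mul_const _) (hev.mono fun r hr => hr.2)⟩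

end Pool.Agent.H.MP_215299_an.CC
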