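import Pool.Agent.H.MP_215299_an.CC.Defs

/-!
CC, module SmA2: calculus of the mean value inequality `SubM`, compositions of harmonic functions.
-/

set_option autoImplicit false

open Complex Metric Set MeasureTheory Filter Topology InnerProductSpace
open scoped ComplexConjugate

namespace Pool.Agent.H.MP_215299_an.CC

private theorem SmA2_rep {u : ℂ → ℝ} {w : ℂ} (hu : HarmonicAt u w) :
    ∃ P : ℂ → ℂ, AnalyticAt ℂ P w ∧ u =ᶠ[𝓝 w] fun z => (P z).re := by
  obtain ⟨ε, h1, h2⟩ := Metric.isOpen_iff.1 (isOpen_setOfPred_harmonicAt (f := u)) w hu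
  obtain ⟨P, h3, h4⟩ := InnerProductSpace.HarmonicOnNhd.exists_analyticOnNhd_ball_re_eq
    (fun _ hy ↦ h2 hy)
  exact ⟨P, h3 w (mem_ball_self h1),
    Filter.eventually_of_mem (ball_mem_nhds w h1) fun y hy => (h4 hy).symm⟩

/-- PROOF: near `g w`, `u` is the real part of an analytic function
(`InnerProductSpace.HarmonicOnNhd.exists_analyticOnNhd_ball_re_eq`); compose, `AnalyticAt.harmonicAt_re`. -/
theorem harm_comp {u : ℂ → ℝ} {g : ℂ → ℂ} {w : ℂ} (hg : AnalyticAt ℂ g w) (hu : HarmonicAt u (g w)) :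
    HarmonicAt (fun z => u (g z)) w := by
  obtain ⟨P, hP, he⟩ := SmA2_rep hu
  have h1 : (fun z => u (g z)) =ᶠ[𝓝 w] fun z => (P (g z)).re :=
    hg.continuousAt.tendsto.eventually he
  rw [harmonicAt_congr_nhds h1]
  have h2 : AnalyticAt ℂ (fun z => P (g z)) w := hP.comp hg
  exact h2.harmonicAt_re

/-- PROOF: near `conj w`, `u = Re P` with `P` analytic; `u (conj z) = Re (conj (P (conj z)))` and `conj ∘ P ∘ conj` is
analytic near `w`. -/
theorem harm_conj {u : ℂ → ℝ} {w : ℂ} (hu : HarmonicAt u (conj w)) :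
    HarmonicAt (fun z => u (conj z)) w := by
  obtain ⟨P, hP, he⟩ := SmA2_rep hu
  have hc : Tendsto (fun z : ℂ => conj z) (𝓝 w) (𝓝 (conj w)) :=
    Complex.continuous_conj.continuousAt.tendsto
  have h1 : (fun z => u (conj z)) =ᶠ[𝓝 w] fun z => (conj (P (conj z))).re := by
    filter_upwards [hc.eventually he] with z hz
    rw [Complex.conj_re]
    exact hz
  rw [harmonicAt_congr_nhds h1]
  have h2 : AnalyticAt ℂ (fun z => conj (P (conj z))) w := by
    rw [Complex.analyticAt_iff_eventually_differentiableAt]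
    filter_upwards [hc.eventually hP.eventually_analyticAt] with z hz
    have h3 := hz.differentiableAt.conj_conj
    rw [Complex.conj_conj] at h3
    exact h3
  exact h2.harmonicAt_re

end Pool.Agent.H.MP_215299_an.CC
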