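import Pool.Agent.H.MP_215299_an.CC.Cv0
import Pool.Agent.H.MP_215299_an.CC.SmA
import Pool.Agent.H.MP_215299_an.CC.Hk

/-!
CC, module Cv1: convex functions, close-to-convex functions of order `β`.
-/

set_option autoImplicit false

open Complex Metric Set MeasureTheory Filter Topology InnerProductSpace
open scoped ComplexConjugate

namespace Pool.Agent.H.MP_215299_an.CC

/-- PROOF: `p z = Re (1 + z g''(z)/g'(z))` is harmonic and positive with `p 0 = 1`, so by `harnack` (with `c = 0`, `R = 1`)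
`p z ≥ (1 - ‖z‖)/(1 + ‖z‖)`. For `z = r e^{iθ}`: `d/dr log |g'(r e^{iθ})| = (p z - 1)/r ≥ -2/(1 + r)`, so `|g'(z)| ≥ |g'(0)| (1 + r)^{-2}
≥ |g'(0)| / 4`. -/
theorem Cvx.lower {g : ℂ → ℂ} (hg : Cvx g) {z : ℂ} (hz : z ∈ ball (0 : ℂ) 1) :
    ‖deriv g 0‖ / 4 ≤ ‖deriv g z‖ := by
  have hz1 : ‖z‖ < 1 := mem_ball_zero_iff.1 hz
  have hz0 := norm_nonneg z
  have hga : ∀ w ∈ ball (0 : ℂ) 1, AnalyticAt ℂ (deriv g) w := fun w hw =>
    (hg.diff.analyticAt (isOpen_ball.mem_nhds hw)).deriv
  -- the harmonic function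
  have hpa : ∀ w ∈ ball (0 : ℂ) 1,
      AnalyticAt ℂ (fun w => 1 + w * deriv (deriv g) w / deriv g w) w := fun w hw =>
    analyticAt_const.add ((analyticAt_id.mul (hga w hw).deriv).div (hga w hw) (hg.ne w hw))
  have hph : ∀ w ∈ ball (0 : ℂ) 1,
      HarmonicAt (fun w => (1 + w * deriv (deriv g) w / deriv g w).re) w := fun w hw =>
    (hpa w hw).harmonicAt_re
  have hpl : ∀ w ∈ ball (0 : ℂ) 1,
      (1 - ‖w‖) / (1 + ‖w‖) ≤ (1 + w * deriv (deriv g) w / deriv g w).re := by
    intro w hw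
    have h1 := (harnack hph (fun z hz => (hg.re z hz).le) hw).2
    simpa using h1
  -- the segment
  have hseg : ∀ t ∈ Icc (0 : ℝ) 1, (t : ℂ) * z ∈ ball (0 : ℂ) 1 := by
    intro t ht
    rw [mem_ball_zero_iff, norm_mul, Complex.norm_real, Real.norm_eq_abs, abs_of_nonneg ht.1]
    nlinarith [ht.2]
  have hder : ∀ t ∈ Icc (0 : ℝ) 1, HasDerivAt (fun t : ℝ => deriv g ((t : ℂ) * z))
      (deriv (deriv g) ((t : ℂ) * z) * z) t := by
    intro t ht
    have h1 : HasDerivAt (fun s : ℂ => s * z) z (t : ℂ) := by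
      simpa using (hasDerivAt_id (t : ℂ)).mul_const z
    have h2 : HasDerivAt (deriv g) (deriv (deriv g) ((t : ℂ) * z)) ((fun s : ℂ => s * z) (t : ℂ)) :=
      (hga _ (hseg t ht)).differentiableAt.hasDerivAt
    have h3 : HasDerivAt (fun s : ℂ => deriv g (s * z)) (deriv (deriv g) ((t : ℂ) * z) * z)
        (t : ℂ) := HasDerivAt.comp (h₂ := deriv g) (t : ℂ) h2 h1
    exact h3.comp_ofReal
  have hne : ∀ t ∈ Icc (0 : ℝ) 1, deriv g ((t : ℂ) * z) ≠ 0 := fun t ht => hg.ne _ (hseg t ht)
  have hnd : ∀ t ∈ Icc (0 : ℝ) 1, HasDerivAt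
      (fun t : ℝ => Real.log (normSq (deriv g ((t : ℂ) * z))) + 4 * Real.log (1 + t * ‖z‖))
      (2 * (z * deriv (deriv g) ((t : ℂ) * z) / deriv g ((t : ℂ) * z)).re +
        4 * (‖z‖ / (1 + t * ‖z‖))) t := by
    intro t ht
    have h1 := hder t ht
    have h2 : HasDerivAt (fun t : ℝ => normSq (deriv g ((t : ℂ) * z)))
        (2 * ((deriv g ((t : ℂ) * z)).re * (deriv (deriv g) ((t : ℂ) * z) * z).re +
          (deriv g ((t : ℂ) * z)).im * (deriv (deriv g) ((t : ℂ) * z) * z).im)) t := by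
      have hre : HasDerivAt (fun t : ℝ => (deriv g ((t : ℂ) * z)).re)
          (deriv (deriv g) ((t : ℂ) * z) * z).re t :=
        Complex.reCLM.hasFDerivAt.comp_hasDerivAt t h1
      have him : HasDerivAt (fun t : ℝ => (deriv g ((t : ℂ) * z)).im)
          (deriv (deriv g) ((t : ℂ) * z) * z).im t :=
        Complex.imCLM.hasFDerivAt.comp_hasDerivAt t h1
      have h3 := (hre.mul hre).add (him.mul him)
      have e : (fun t : ℝ => normSq (deriv g ((t : ℂ) * z))) =
          fun t : ℝ => (deriv g ((t : ℂ) * z)).re * (deriv g ((t : ℂ) * z)).re +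
            (deriv g ((t : ℂ) * z)).im * (deriv g ((t : ℂ) * z)).im := by
        funext t
        exact normSq_apply _
      rw [e]
      refine h3.congr_deriv ?_
      ring
    have hn0 : normSq (deriv g ((t : ℂ) * z)) ≠ 0 := by
      rw [Ne, normSq_eq_zero]
      exact hne t ht
    have h4 := h2.log hn0
    have h5 : HasDerivAt (fun t : ℝ => 1 + t * ‖z‖) ‖z‖ t := by
      simpa using ((hasDerivAt_id t).mul_const ‖z‖).const_add 1
    have h6 : 1 + t * ‖z‖ ≠ 0 := by
      have := mul_nonneg ht.1 hz0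
      linarith
    have h7 := (h5.log h6).const_mul 4
    refine (h4.add h7).congr_deriv ?_
    congr 1
    rw [Complex.div_re]
    generalize deriv (deriv g) ((t : ℂ) * z) = A at *
    generalize deriv g ((t : ℂ) * z) = B at *
    rw [Complex.mul_re, Complex.mul_im, Complex.mul_re, Complex.mul_im]
    field_simp
    ring
  have hmono : MonotoneOn
      (fun t : ℝ => Real.log (normSq (deriv g ((t : ℂ) * z))) + 4 * Real.log (1 + t * ‖z‖))
      (Icc 0 1) := by
    refine monotoneOn_of_deriv_nonneg (convex_Icc 0 1)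
      (fun t ht => (hnd t ht).continuousAt.continuousWithinAt) ?_ ?_
    · intro t ht
      rw [interior_Icc] at ht
      exact (hnd t (Ioo_subset_Icc_self ht)).differentiableAt.differentiableWithinAt
    · intro t ht
      rw [interior_Icc] at ht
      have ht' := Ioo_subset_Icc_self ht
      rw [(hnd t ht').deriv]
      have h1 := hpl _ (hseg t ht')
      have h2 : ‖(t : ℂ) * z‖ = t * ‖z‖ := by
        rw [norm_mul, Complex.norm_real, Real.norm_eq_abs, abs_of_pos ht.1]
      have h3 : (1 + (t : ℂ) * z * deriv (deriv g) ((t : ℂ) * z) / deriv g ((t : ℂ) * z)).re =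
          1 + t * (z * deriv (deriv g) ((t : ℂ) * z) / deriv g ((t : ℂ) * z)).re := by
        have e : (t : ℂ) * z * deriv (deriv g) ((t : ℂ) * z) / deriv g ((t : ℂ) * z) =
            (t : ℂ) * (z * deriv (deriv g) ((t : ℂ) * z) / deriv g ((t : ℂ) * z)) := by
          ring
        rw [e, Complex.add_re, Complex.one_re, Complex.re_ofReal_mul]
      rw [h2, h3] at h1
      generalize (z * deriv (deriv g) ((t : ℂ) * z) / deriv g ((t : ℂ) * z)).re = q at h1
      have h4 : 0 < 1 + t * ‖z‖ := by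
        have := mul_nonneg ht.1.le hz0
        linarith
      rw [div_le_iff₀ h4] at h1
      have h5 : 0 ≤ t * (q * (1 + t * ‖z‖) + 2 * ‖z‖) := by nlinarith
      have h6 : 0 ≤ q * (1 + t * ‖z‖) + 2 * ‖z‖ := by
        by_contra h7
        push Not at h7
        nlinarith [mul_neg_of_pos_of_neg ht.1 h7]
      have h7 : 2 * q + 4 * (‖z‖ / (1 + t * ‖z‖)) =
          2 * (q * (1 + t * ‖z‖) + 2 * ‖z‖) / (1 + t * ‖z‖) := by
        rw [eq_div_iff h4.ne', add_mul, mul_assoc 4, div_mul_cancel₀ _ h4.ne']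
        ring
      rw [h7]
      positivity
  have hfin := hmono (left_mem_Icc.2 zero_le_one) (right_mem_Icc.2 zero_le_one) zero_le_one
  simp only [Complex.ofReal_zero, zero_mul, add_zero, Real.log_one, mul_zero, Complex.ofReal_one,
    one_mul] at hfin
  have hN0 : 0 < normSq (deriv g 0) := normSq_pos.2 (hg.ne 0 (mem_ball_self one_pos))
  have hN1 : 0 < normSq (deriv g z) := normSq_pos.2 (hg.ne z hz)
  have hl : Real.log (1 + ‖z‖) ≤ Real.log 2 :=
    Real.log_le_log (by linarith) (by linarith)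
  have h16 : 4 * Real.log 2 = Real.log 16 := by
    rw [show (16 : ℝ) = 2 ^ 4 by norm_num, Real.log_pow]
    norm_num
  have hle : Real.log (normSq (deriv g 0)) ≤ Real.log (normSq (deriv g z) * 16) := by
    rw [Real.log_mul hN1.ne' (by norm_num), ← h16]
    linarith
  have hle2 : normSq (deriv g 0) ≤ normSq (deriv g z) * 16 :=
    (Real.log_le_log_iff hN0 (by positivity)).1 hle
  rw [Complex.normSq_eq_norm_sq, Complex.normSq_eq_norm_sq] at hle2
  have h8 := norm_nonneg (deriv g z)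
  have h9 := norm_nonneg (deriv g 0)
  have h10 : ‖deriv g 0‖ ≤ 4 * ‖deriv g z‖ := by
    refine le_of_sq_le_sq ?_ (by positivity)
    nlinarith
  linarith

end Pool.Agent.H.MP_215299_an.CC
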