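import Pool.Agent.H.MP_215299_an.CC.Cv1

/-!
CC, module Cv2: convex functions, close-to-convex functions of order `β`.
-/

set_option autoImplicit false

open Complex Metric Set MeasureTheory Filter Topology InnerProductSpace
open scoped ComplexConjugate

namespace Pool.Agent.H.MP_215299_an.CC

/-- The majorant. PROOF: `q z = f' z / g' z` is in the slit plane (`|arg q| ≤ β π / 2 < π` and `q ≠ 0`), so `q^{-c} = exp (-c log q)` is
analytic, `|q^{-c}| = |q|^{-c}` and its argument is `-c arg q`, so `Re q^{-c} ≥ |q|^{-c} cos (c β π / 2) > 0`. Put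
`v = K Re q^{-c}` with `K = (|g'(0)|/4)^{-c} / cos (c β π / 2)`; `|f'|^{-c} = |g'|^{-c} |q|^{-c} ≤ v`. -/
theorem majorant {f g : ℂ → ℂ} (hf : DifferentiableOn ℂ f (ball 0 1))
    (hf' : ∀ z ∈ ball (0 : ℂ) 1, deriv f z ≠ 0) (hg : Cvx g) {β c : ℝ} (hβ : 0 < β) (hβ2 : β < 2)
    (ha : ∀ z ∈ ball (0 : ℂ) 1, |(deriv f z / deriv g z).arg| ≤ β * Real.pi / 2) (hc : 0 < c)
    (hc2 : c < 1 / β) :
    ∃ v : ℂ → ℝ, (∀ z ∈ ball (0 : ℂ) 1, HarmonicAt v z) ∧ (∀ z ∈ ball (0 : ℂ) 1, 0 < v z) ∧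
      ∀ z ∈ ball (0 : ℂ) 1, (‖deriv f z‖⁻¹) ^ c ≤ v z := by
  have hpi := Real.pi_pos
  have hcb : c * β < 1 := by
    rw [lt_div_iff₀ hβ] at hc2
    exact hc2
  obtain ⟨A, hA⟩ : ∃ A : ℝ, A = c * (β * Real.pi / 2) := ⟨_, rfl⟩
  have hA0 : 0 < A := by rw [hA]; positivity
  have hA1 : A < Real.pi / 2 := by rw [hA]; nlinarith
  have hcos : 0 < Real.cos A := Real.cos_pos_of_mem_Ioo ⟨by linarith, hA1⟩
  have hg0 : 0 < ‖deriv g 0‖ / 4 :=
    div_pos (norm_pos_iff.2 (hg.ne 0 (mem_ball_self one_pos))) (by norm_num)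
  obtain ⟨K, hK⟩ : ∃ K : ℝ, K = ((‖deriv g 0‖ / 4)⁻¹) ^ c / Real.cos A := ⟨_, rfl⟩
  have hK0 : 0 < K := by
    rw [hK]
    exact div_pos (Real.rpow_pos_of_pos (inv_pos.2 hg0) c) hcos
  have hq0 : ∀ z ∈ ball (0 : ℂ) 1, deriv f z / deriv g z ≠ 0 := fun z hz =>
    div_ne_zero (hf' z hz) (hg.ne z hz)
  have hqs : ∀ z ∈ ball (0 : ℂ) 1, deriv f z / deriv g z ∈ slitPlane := by
    intro z hz
    refine Complex.mem_slitPlane_iff_arg.2 ⟨fun h => ?_, hq0 z hz⟩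
    have h1 := ha z hz
    rw [h, abs_of_pos hpi] at h1
    nlinarith
  have hqa : ∀ z ∈ ball (0 : ℂ) 1, AnalyticAt ℂ (fun z => deriv f z / deriv g z) z := by
    intro z hz
    have h1 := (hf.analyticAt (isOpen_ball.mem_nhds hz)).deriv
    have h2 := (hg.diff.analyticAt (isOpen_ball.mem_nhds hz)).deriv
    exact h1.div h2 (hg.ne z hz)
  have hE : ∀ z ∈ ball (0 : ℂ) 1, AnalyticAt ℂ
      (fun z => (K : ℂ) * exp (-(c : ℂ) * log (deriv f z / deriv g z))) z := fun z hz =>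
    analyticAt_const.mul ((analyticAt_const.mul ((hqa z hz).clog (hqs z hz))).cexp)
  have hre : ∀ z ∈ ball (0 : ℂ) 1,
      ((K : ℂ) * exp (-(c : ℂ) * log (deriv f z / deriv g z))).re =
        K * ((‖deriv f z / deriv g z‖⁻¹) ^ c * Real.cos (c * (deriv f z / deriv g z).arg)) := by
    intro z hz
    have hp : 0 < ‖deriv f z / deriv g z‖ := norm_pos_iff.2 (hq0 z hz)
    generalize deriv f z / deriv g z = q at hp
    have h1 : (-(c : ℂ) * log q).re = Real.log ‖q‖⁻¹ * c := by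
      rw [Complex.mul_re, Complex.neg_re, Complex.neg_im, Complex.ofReal_re, Complex.ofReal_im,
        Complex.log_re, Real.log_inv]
      ring
    have h2 : (-(c : ℂ) * log q).im = -(c * q.arg) := by
      rw [Complex.mul_im, Complex.neg_re, Complex.neg_im, Complex.ofReal_re, Complex.ofReal_im,
        Complex.log_im]
      ring
    rw [Complex.re_ofReal_mul, Complex.exp_re, h1, h2, Real.cos_neg,
      Real.rpow_def_of_pos (inv_pos.2 hp)]
  have hca : ∀ z ∈ ball (0 : ℂ) 1, Real.cos A ≤ Real.cos (c * (deriv f z / deriv g z).arg) := by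
    intro z hz
    rw [← Real.cos_abs (c * (deriv f z / deriv g z).arg)]
    refine Real.cos_le_cos_of_nonneg_of_le_pi (abs_nonneg _) (by linarith) ?_
    rw [abs_mul, abs_of_pos hc, hA]
    exact mul_le_mul_of_nonneg_left (ha z hz) hc.le
  refine ⟨fun z => ((K : ℂ) * exp (-(c : ℂ) * log (deriv f z / deriv g z))).re,
    fun z hz => (hE z hz).harmonicAt_re, fun z hz => ?_, fun z hz => ?_⟩
  · show 0 < ((K : ℂ) * exp (-(c : ℂ) * log (deriv f z / deriv g z))).re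
    rw [hre z hz]
    have hp : 0 < ‖deriv f z / deriv g z‖⁻¹ := inv_pos.2 (norm_pos_iff.2 (hq0 z hz))
    exact mul_pos hK0 (mul_pos (Real.rpow_pos_of_pos hp c) (hcos.trans_le (hca z hz)))
  · show (‖deriv f z‖⁻¹) ^ c ≤ ((K : ℂ) * exp (-(c : ℂ) * log (deriv f z / deriv g z))).re
    rw [hre z hz]
    have hp : 0 < ‖deriv f z / deriv g z‖⁻¹ := inv_pos.2 (norm_pos_iff.2 (hq0 z hz))
    have hgz : 0 < ‖deriv g z‖ := norm_pos_iff.2 (hg.ne z hz)
    have h1 : ‖deriv f z‖⁻¹ = ‖deriv f z / deriv g z‖⁻¹ * ‖deriv g z‖⁻¹ := by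
      rw [← mul_inv, norm_div, div_mul_cancel₀ _ hgz.ne']
    have h2 : (‖deriv g z‖⁻¹) ^ c ≤ ((‖deriv g 0‖ / 4)⁻¹) ^ c :=
      Real.rpow_le_rpow (inv_nonneg.2 hgz.le) (inv_anti₀ hg0 (hg.lower hz)) hc.le
    have h3 : 0 < (‖deriv f z / deriv g z‖⁻¹) ^ c := Real.rpow_pos_of_pos hp c
    have h4 : ((‖deriv g 0‖ / 4)⁻¹) ^ c = K * Real.cos A := by
      rw [hK, div_mul_cancel₀ _ hcos.ne']
    rw [h1, Real.mul_rpow hp.le (inv_nonneg.2 hgz.le)]
    calc (‖deriv f z / deriv g z‖⁻¹) ^ c * (‖deriv g z‖⁻¹) ^ c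
        ≤ (‖deriv f z / deriv g z‖⁻¹) ^ c * (K * Real.cos A) := by
          rw [← h4]
          exact mul_le_mul_of_nonneg_left h2 h3.le
      _ = K * ((‖deriv f z / deriv g z‖⁻¹) ^ c * Real.cos A) := by ring
      _ ≤ K * ((‖deriv f z / deriv g z‖⁻¹) ^ c *
            Real.cos (c * (deriv f z / deriv g z).arg)) :=
          mul_le_mul_of_nonneg_left (mul_le_mul_of_nonneg_left (hca z hz) h3.le) hK0.le

end Pool.Agent.H.MP_215299_an.CC
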