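import Pool.Agent.H.MP_215299_an.CC.Defs

/-!
CC, module Cv0: convex functions, close-to-convex functions of order `β`.
-/

set_option autoImplicit false

open Complex Metric Set MeasureTheory Filter Topology InnerProductSpace
open scoped ComplexConjugate

namespace Pool.Agent.H.MP_215299_an.CC

/-- A convex function in the unit disc (the analytic condition of Study). -/
structure Cvx (g : ℂ → ℂ) : Prop where
  diff : DifferentiableOn ℂ g (ball 0 1)
  ne : ∀ z ∈ ball (0 : ℂ) 1, deriv g z ≠ 0
  re : ∀ z ∈ ball (0 : ℂ) 1, 0 < (1 + z * deriv (deriv g) z / deriv g z).re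

end Pool.Agent.H.MP_215299_an.CC
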