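import Mathlib

/-!
MP_215299_an, folder CC: close-to-convex functions. Definitions.
-/

set_option autoImplicit false

open Complex Metric Set MeasureTheory Filter Topology
open scoped ComplexConjugate

namespace Pool.Agent.H.MP_215299_an.CC

/-- `f` is univalent on the unit disc and `F` is the inverse of `f` on the image. -/
structure Uni (f F : ℂ → ℂ) : Prop where
  diff : DifferentiableOn ℂ f (ball 0 1)
  inj : InjOn f (ball 0 1)
  inv : ∀ z ∈ ball (0 : ℂ) 1, F (f z) = z

/-- The image domain. -/
def Om (f : ℂ → ℂ) : Set ℂ := f '' ball 0 1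

/-- The distance from the complement of the image. -/
noncomputable def dd (f : ℂ → ℂ) (w : ℂ) : ℝ := infDist w (Om f)ᶜ

/-- The pseudohyperbolic distance. -/
noncomputable def ph (a b : ℂ) : ℝ := ‖(a - b) / (1 - conj b * a)‖

/-- The Green function of the image with pole at the real point `t` (value `0` at the pole itself). -/
noncomputable def gr (F : ℂ → ℂ) (w : ℂ) (t : ℝ) : ℝ := -Real.log (ph (F w) (F t))

/-- The potential of the measure `dt / dd f t` on `E`. -/
noncomputable def pot (f F : ℂ → ℂ) (E : Set ℝ) (w : ℂ) : ℝ := ∫ t in E, gr F w t / dd f t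

open Classical in
/-- The potential, extended by zero outside the image. -/
noncomputable def potz (f F : ℂ → ℂ) (E : Set ℝ) (w : ℂ) : ℝ := if w ∈ Om f then pot f F E w else 0

/-- `E` is a compact subset of the real line inside the image. -/
structure Cp (f : ℂ → ℂ) (E : Set ℝ) : Prop where
  cpt : IsCompact E
  sub : ∀ t ∈ E, (t : ℂ) ∈ Om f

/-- The mean value inequality for all small circles about `w`. -/
def SubM (u : ℂ → ℝ) (w : ℂ) : Prop :=
  ∀ᶠ r in 𝓝[>] (0 : ℝ), CircleIntegrable u w r ∧ u w ≤ Real.circleAverage u w r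

/-- The upper half plane. -/
def Hp : Set ℂ := {g | 0 < g.im}

/-- The conformal map from the upper half plane onto the upper half plane minus the segment from `0` to `κ i`. -/
noncomputable def lam (κ : ℝ) (g : ℂ) : ℂ := I * Complex.sqrt ((κ : ℂ) ^ 2 - g ^ 2)

/-- A square root of `lam κ g - κ i`. -/
noncomputable def sc (κ : ℝ) (g : ℂ) : ℂ := g / Complex.sqrt (lam κ g + κ * I)

/-- A square root of `conj (lam κ g) - κ i`. -/
noncomputable def sd (κ : ℝ) (g : ℂ) : ℂ := conj (Complex.sqrt (lam κ g + κ * I))

end Pool.Agent.H.MP_215299_an.CC
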