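import Pool.Agent.H.MP_215299_an.CC.Fin1

/-!
CC, module Fin2: the theorem.
-/

set_option autoImplicit false

open Complex Metric Set MeasureTheory Filter Topology InnerProductSpace
open scoped ComplexConjugate ENNReal

namespace Pool.Agent.H.MP_215299_an.CC

/-- Every line `a + t u`, `‖u‖ = 1`. PROOF: `real_line` for `f₁ z = (f z - a) / u`, `F₁ w = F (a + u w)`, `g₁ = g / u`;
`deriv F₁ t = u * deriv F (a + t u)`. -/
theorem all_lines {f F g : ℂ → ℂ} (h : Uni f F) (hg : Cvx g) {β p : ℝ} (hβ : 0 < β) (hβ2 : β < 2)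
    (ha : ∀ z ∈ ball (0 : ℂ) 1, |(deriv f z / deriv g z).arg| ≤ β * Real.pi / 2) (hp : 1 ≤ p)
    (hp2 : p < 1 + 1 / β) (a u : ℂ) (hu : ‖u‖ = 1) :
    ∫⁻ t in {t : ℝ | a + t * u ∈ Om f}, ENNReal.ofReal (‖deriv F (a + t * u)‖ ^ p) < ⊤ := by
  have hu0 : u ≠ 0 := by
    intro e
    rw [e, norm_zero] at hu
    exact zero_ne_one hu
  have hdf : ∀ z : ℂ, z ∈ ball (0 : ℂ) 1 → deriv (fun z => (f z - a) / u) z = deriv f z / u := by
    intro z _
    rw [deriv_div_const, deriv_sub_const]
  have hdg : ∀ z : ℂ, deriv (fun z => g z / u) z = deriv g z / u := by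
    intro z
    rw [deriv_div_const]
  have hdg' : deriv (fun z => g z / u) = fun z => deriv g z / u := funext hdg
  have h₁ : Uni (fun z => (f z - a) / u) (fun w => F (a + u * w)) := by
    refine ⟨(h.diff.sub_const a).div_const u, ?_, ?_⟩
    · intro x hx y hy e
      have e1 : (f x - a) / u = (f y - a) / u := e
      rw [div_left_inj' hu0] at e1
      exact h.inj hx hy (sub_left_injective e1)
    · intro z hz
      show F (a + u * ((f z - a) / u)) = z
      rw [mul_div_cancel₀ _ hu0, add_sub_cancel, h.inv z hz]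
  have hg₁ : Cvx (fun z => g z / u) := by
    refine ⟨hg.diff.div_const u, ?_, ?_⟩
    · intro z hz
      rw [hdg]
      exact div_ne_zero (hg.ne z hz) hu0
    · intro z hz
      rw [hdg', deriv_div_const]
      have e : z * (deriv (deriv g) z / u) / (deriv g z / u) = z * deriv (deriv g) z / deriv g z := by
        field_simp
      show 0 < (1 + z * (deriv (fun z => deriv g z) z / u) / (deriv g z / u)).re
      rw [e]
      exact hg.re z hz
  have ha₁ : ∀ z ∈ ball (0 : ℂ) 1,
      |(deriv (fun z => (f z - a) / u) z / deriv (fun z => g z / u) z).arg| ≤ β * Real.pi / 2 := by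
    intro z hz
    rw [hdf z hz, hdg, div_div_div_cancel_right₀ hu0]
    exact ha z hz
  have key := real_line h₁ hg₁ hβ hβ2 ha₁ hp hp2
  have hset : {t : ℝ | (t : ℂ) ∈ Om (fun z => (f z - a) / u)} = {t : ℝ | a + t * u ∈ Om f} := by
    ext t
    constructor
    · rintro ⟨z, hz, e⟩
      refine ⟨z, hz, ?_⟩
      have e1 : (f z - a) / u = t := e
      rw [div_eq_iff hu0] at e1
      rw [← e1]; ring
    · rintro ⟨z, hz, e⟩
      refine ⟨z, hz, ?_⟩
      show (f z - a) / u = t
      rw [div_eq_iff hu0, e]; ring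
  have hder : ∀ t : ℝ, ‖deriv (fun w => F (a + u * w)) (t : ℂ)‖ = ‖deriv F (a + t * u)‖ := by
    intro t
    have e1 : deriv (fun w => F (a + u * w)) (t : ℂ) = u * deriv F (a + u * t) := by
      have e2 := deriv_comp_mul_left u (fun w => F (a + w)) (t : ℂ)
      rw [deriv_comp_const_add, smul_eq_mul] at e2
      exact e2
    rw [e1, norm_mul, hu, one_mul, mul_comm u]
  rw [hset] at key
  simpa only [hder] using key

end Pool.Agent.H.MP_215299_an.CC
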