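import Pool.Agent.H.MP_215299_an.CC.IntB
import Pool.Agent.H.MP_215299_an.CC.Cv

/-!
CC, module Fin1: the theorem.
-/

set_option autoImplicit false

open Complex Metric Set MeasureTheory Filter Topology InnerProductSpace
open scoped ComplexConjugate ENNReal

namespace Pool.Agent.H.MP_215299_an.CC

/-- The real line. PROOF: `s = p - 1 < c < 1/β`; `majorant`, `deriv F (f z) = (deriv f z)⁻¹` (`H65K.deriv_inv`), `Uni.line_int` with
`s' = c`. -/
theorem real_line {f F g : ℂ → ℂ} (h : Uni f F) (hg : Cvx g) {β p : ℝ} (hβ : 0 < β) (hβ2 : β < 2)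
    (ha : ∀ z ∈ ball (0 : ℂ) 1, |(deriv f z / deriv g z).arg| ≤ β * Real.pi / 2) (hp : 1 ≤ p)
    (hp2 : p < 1 + 1 / β) :
    ∫⁻ t in {t : ℝ | (t : ℂ) ∈ Om f}, ENNReal.ofReal (‖deriv F t‖ ^ p) < ⊤ := by
  have hb : 0 < 1 / β := by positivity
  obtain ⟨v, hv, hv0, hvf⟩ := majorant h.diff
    (fun z hz => (H65K.deriv_inv isOpen_ball h.diff h.inj h.inv hz).1) hg hβ hβ2 ha
    (c := ((p - 1) + 1 / β) / 2) (by linarith) (by linarith)
  have key : ∀ t : ℝ, (t : ℂ) ∈ Om f → ‖deriv F t‖ ^ (((p - 1) + 1 / β) / 2) ≤ v (F t) := by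
    intro t ht
    obtain ⟨z, hz, e⟩ := ht
    rw [← e, h.inv z hz, (H65K.deriv_inv isOpen_ball h.diff h.inj h.inv hz).2, norm_inv]
    exact hvf z hz
  have h1 := h.line_int hv hv0 (s := p - 1) (s' := ((p - 1) + 1 / β) / 2) (by linarith) (by linarith) key
  have e : (1 : ℝ) + (p - 1) = p := by ring
  rw [e] at h1
  exact h1

end Pool.Agent.H.MP_215299_an.CC
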