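import Pool.Agent.H.MP_215299_an.CC.FoA0

/-!
CC, module FoA1: one sheet of the folded function.

Setting: `Ω` open, `u` continuous on the plane, `0 ≤ u ≤ M`, zero outside `Ω`, harmonic at the points of `Ω` off the real line, `σ` continuous
on `Ω` with `σ w ^ 2 = w - κ i`. A sheet is given by maps `m`, `s` on the upper half plane, `s g ^ 2 = m g - κ i`, `s ≠ 0`; the sheet of `u` is
`u (m g)` if `m g ∈ Ω` and `σ (m g) = s g`, and `0` otherwise.
-/

set_option autoImplicit false

open Complex Metric Set MeasureTheory Filter Topology InnerProductSpace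
open scoped ComplexConjugate

namespace Pool.Agent.H.MP_215299_an.CC

/-- PROOF: if `m g ∉ Ω` then `u (m g) = 0` and `0 ≤ sheet ≤ u ∘ m` nearby. If `m g ∈ Ω` then nearby `σ (m g') = ± s g'` with a constant sign
(both sides are continuous, their squares agree and `s g ≠ 0`), so the sheet is `u ∘ m` or `0` nearby. -/
theorem sheet_cont {Ω : Set ℂ} {u : ℂ → ℝ} {σ m s : ℂ → ℂ} {κ : ℝ} (hΩ : IsOpen Ω) (hu : Continuous u)
    (hu0 : ∀ w, w ∉ Ω → u w = 0) (hp : ∀ w, 0 ≤ u w) (hσ : ContinuousOn σ Ω)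
    (hσ2 : ∀ w ∈ Ω, σ w ^ 2 = w - κ * I)
    (hm : ∀ g ∈ Hp, ContinuousAt m g) (hs : ∀ g ∈ Hp, ContinuousAt s g)
    (hs2 : ∀ g ∈ Hp, s g ^ 2 = m g - κ * I ∧ s g ≠ 0) {g : ℂ} (hg : g ∈ Hp) :
    ContinuousAt (sheet Ω u σ m s) g := by
  have hum : ContinuousAt (fun g' => u (m g')) g := hu.continuousAt.comp (hm g hg)
  have hHp : Hp ∈ 𝓝 g := by
    have h1 : IsOpen Hp := isOpen_lt continuous_const Complex.continuous_im
    exact h1.mem_nhds hg
  by_cases hO : m g ∈ Ω
  · have hOn : ∀ᶠ g' in 𝓝 g, m g' ∈ Ω := (hm g hg).eventually (hΩ.mem_nhds hO)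
    have hσm : ContinuousAt (fun g' => σ (m g')) g :=
      ContinuousAt.comp (f := m) (g := σ) (hσ.continuousAt (hΩ.mem_nhds hO)) (hm g hg)
    by_cases he : σ (m g) = s g
    · have h1 : ContinuousAt (fun g' => σ (m g') + s g') g := hσm.add (hs g hg)
      have h2 : σ (m g) + s g ≠ 0 := by
        rw [he, ← two_mul]
        exact mul_ne_zero two_ne_zero (hs2 g hg).2
      have h3 : ∀ᶠ g' in 𝓝 g, sheet Ω u σ m s g' = u (m g') := by
        filter_upwards [hOn, hHp, h1.eventually_ne h2] with g' h4 h5 h6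
        have h7 : (σ (m g') - s g') * (σ (m g') + s g') = 0 := by
          have h8 := hσ2 _ h4
          have h9 := (hs2 g' h5).1
          linear_combination h8 - h9
        have h10 : σ (m g') = s g' :=
          sub_eq_zero.1 ((mul_eq_zero.1 h7).resolve_right h6)
        unfold sheet
        rw [if_pos ⟨h4, h10⟩]
      exact hum.congr (h3.mono fun g' h => h.symm)
    · have h1 : ContinuousAt (fun g' => σ (m g') - s g') g := hσm.sub (hs g hg)
      have h2 : σ (m g) - s g ≠ 0 := sub_ne_zero.2 he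
      have h3 : ∀ᶠ g' in 𝓝 g, sheet Ω u σ m s g' = 0 := by
        filter_upwards [h1.eventually_ne h2] with g' h6
        unfold sheet
        rw [if_neg]
        rintro ⟨-, h7⟩
        exact h6 (sub_eq_zero.2 h7)
      exact (continuousAt_const (y := (0 : ℝ))).congr (h3.mono fun g' h => h.symm)
  · have h0 : sheet Ω u σ m s g = 0 := by
      unfold sheet
      rw [if_neg]
      exact fun h => hO h.1
    have hle : ∀ g', 0 ≤ sheet Ω u σ m s g' ∧ sheet Ω u σ m s g' ≤ u (m g') := by
      intro g'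
      unfold sheet
      split_ifs
      · exact ⟨hp _, le_rfl⟩
      · exact ⟨le_rfl, hp _⟩
    have h1 : Tendsto (fun g' => u (m g')) (𝓝 g) (𝓝 0) := by
      have h2 := hum.tendsto
      rwa [hu0 _ hO] at h2
    show Tendsto (sheet Ω u σ m s) (𝓝 g) (𝓝 (sheet Ω u σ m s g))
    rw [h0]
    exact squeeze_zero (fun g' => (hle g').1) (fun g' => (hle g').2) h1

end Pool.Agent.H.MP_215299_an.CC
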