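import Pool.Agent.H.MP_215299_an.CC.FoA1

/-!
CC, module FoA2: one sheet of the folded function.

Setting: `Ω` open, `u` continuous on the plane, `0 ≤ u ≤ M`, zero outside `Ω`, harmonic at the points of `Ω` off the real line, `σ` continuous
on `Ω` with `σ w ^ 2 = w - κ i`. A sheet is given by maps `m`, `s` on the upper half plane, `s g ^ 2 = m g - κ i`, `s ≠ 0`; the sheet of `u` is
`u (m g)` if `m g ∈ Ω` and `σ (m g) = s g`, and `0` otherwise.
-/

set_option autoImplicit false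

open Complex Metric Set MeasureTheory Filter Topology InnerProductSpace
open scoped ComplexConjugate

namespace Pool.Agent.H.MP_215299_an.CC

private theorem FoA2_isOpen_Hp : IsOpen Hp := isOpen_lt continuous_const Complex.continuous_im

private theorem FoA2_nonneg {Ω : Set ℂ} {u : ℂ → ℝ} {σ m s : ℂ → ℂ} (hp : ∀ w, 0 ≤ u w) (g : ℂ) :
    0 ≤ sheet Ω u σ m s g := by
  unfold sheet
  split_ifs
  · exact hp _
  · exact le_rfl

private theorem FoA2_zero (g : ℂ) : SubM (fun _ => (0 : ℝ)) g :=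
  SubM.of_zero (Eventually.of_forall fun _ => continuousAt_const) (fun _ => le_rfl) rfl

/-- PROOF: as for `sheet_cont`; if `m g ∉ Ω` use `SubM.of_zero`, if the sheet is `u ∘ m` nearby use `hh` and `SubM.of_harmonic`,
`SubM.congr`; if it is `0` nearby, the same. -/
theorem sheet_sub {Ω : Set ℂ} {u : ℂ → ℝ} {σ m s : ℂ → ℂ} {κ : ℝ} (hΩ : IsOpen Ω) (hu : Continuous u)
    (hu0 : ∀ w, w ∉ Ω → u w = 0) (hp : ∀ w, 0 ≤ u w) (hσ : ContinuousOn σ Ω)
    (hσ2 : ∀ w ∈ Ω, σ w ^ 2 = w - κ * I)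
    (hm : ∀ g ∈ Hp, ContinuousAt m g) (hs : ∀ g ∈ Hp, ContinuousAt s g)
    (hs2 : ∀ g ∈ Hp, s g ^ 2 = m g - κ * I ∧ s g ≠ 0)
    (hh : ∀ g ∈ Hp, m g ∈ Ω → HarmonicAt (fun z => u (m z)) g) {g : ℂ} (hg : g ∈ Hp) :
    SubM (sheet Ω u σ m s) g := by
  by_cases hmg : m g ∈ Ω
  · -- the sign is constant near `g`
    have hsg : s g ≠ 0 := (hs2 g hg).2
    have hHp : ∀ᶠ g' in 𝓝 g, g' ∈ Hp := FoA2_isOpen_Hp.mem_nhds hg
    have hmΩ : ∀ᶠ g' in 𝓝 g, m g' ∈ Ω := (hm g hg) (hΩ.mem_nhds hmg)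
    have hσm : ContinuousAt (fun z => σ (m z)) g :=
      ContinuousAt.comp (f := m) (g := σ) (hσ.continuousAt (hΩ.mem_nhds hmg)) (hm g hg)
    have hq : ContinuousAt (fun z => σ (m z) / s z) g := hσm.div (hs g hg) hsg
    have hsq : ∀ᶠ g' in 𝓝 g, σ (m g') / s g' = 1 ∨ σ (m g') / s g' = -1 := by
      filter_upwards [hHp, hmΩ] with g' h1 h2
      have h3 : s g' ≠ 0 := (hs2 g' h1).2
      have h4 : (σ (m g') / s g') ^ 2 = 1 := by
        rw [div_pow, hσ2 _ h2, (hs2 g' h1).1, div_self]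
        rw [← (hs2 g' h1).1]
        exact pow_ne_zero _ h3
      have h5 : (σ (m g') / s g' - 1) * (σ (m g') / s g' + 1) = 0 := by
        linear_combination h4
      rcases mul_eq_zero.mp h5 with h6 | h6
      · exact Or.inl (sub_eq_zero.mp h6)
      · exact Or.inr (eq_neg_of_add_eq_zero_left h6)
    rcases hsq.self_of_nhds with h0 | h0
    · have h1 : ∀ᶠ g' in 𝓝 g, σ (m g') / s g' ∈ ball (1 : ℂ) 1 := by
        have : σ (m g) / s g ∈ ball (1 : ℂ) 1 := by rw [h0]; exact mem_ball_self one_pos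
        exact hq (isOpen_ball.mem_nhds this)
      refine SubM.congr (SubM.of_harmonic (hh g hg hmg)) ?_
      filter_upwards [hHp, hmΩ, hsq, h1] with g' e1 e2 e3 e4
      have e5 : σ (m g') / s g' = 1 := by
        rcases e3 with e3 | e3
        · exact e3
        · exfalso
          rw [e3, mem_ball, dist_eq_norm] at e4
          norm_num at e4
      have e6 : σ (m g') = s g' := by
        rwa [div_eq_one_iff_eq (hs2 g' e1).2] at e5
      unfold sheet
      rw [if_pos ⟨e2, e6⟩]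
    · have h1 : ∀ᶠ g' in 𝓝 g, σ (m g') / s g' ∈ ball (-1 : ℂ) 1 := by
        have : σ (m g) / s g ∈ ball (-1 : ℂ) 1 := by rw [h0]; exact mem_ball_self one_pos
        exact hq (isOpen_ball.mem_nhds this)
      refine SubM.congr (FoA2_zero g) ?_
      filter_upwards [hHp, h1] with g' e1 e4
      unfold sheet
      rw [if_neg]
      rintro ⟨-, e6⟩
      rw [e6, div_self (hs2 g' e1).2, mem_ball, dist_eq_norm] at e4
      norm_num at e4
  · -- the value is `0`
    refine SubM.of_zero ?_ (fun z => FoA2_nonneg hp z) ?_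
    · filter_upwards [FoA2_isOpen_Hp.mem_nhds hg] with z hz
      exact sheet_cont hΩ hu hu0 hp hσ hσ2 hm hs hs2 hz
    · unfold sheet
      rw [if_neg fun h => hmg h.1]

end Pool.Agent.H.MP_215299_an.CC
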