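import Pool.Agent.H.MP_215299_an.CC.FoA0

/-!
CC, module FoA3: one sheet of the folded function.

Setting: `Ω` open, `u` continuous on the plane, `0 ≤ u ≤ M`, zero outside `Ω`, harmonic at the points of `Ω` off the real line, `σ` continuous
on `Ω` with `σ w ^ 2 = w - κ i`. A sheet is given by maps `m`, `s` on the upper half plane, `s g ^ 2 = m g - κ i`, `s ≠ 0`; the sheet of `u` is
`u (m g)` if `m g ∈ Ω` and `σ (m g) = s g`, and `0` otherwise.
-/

set_option autoImplicit false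

open Complex Metric Set MeasureTheory Filter Topology InnerProductSpace
open scoped ComplexConjugate

namespace Pool.Agent.H.MP_215299_an.CC

/-- The two sheets at the boundary points `r < -κ`: not both can be nonzero. PROOF: `lam κ g → p` real, so `lam κ g` and its
conjugate tend to `p`. If `p ∉ Ω` both sheets are `≤ u → 0`. If `p ∈ Ω`: both sheets nonzero would give `σ (lam κ g) = sc κ g`,
`σ (conj (lam κ g)) = sd κ g`, but the left sides tend to `σ p` and the right sides to `s` and `-s`, `s ≠ 0` (`lam_bd`). -/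
theorem sheet_bd {Ω : Set ℂ} {u : ℂ → ℝ} {σ : ℂ → ℂ} {κ M : ℝ} (hΩ : IsOpen Ω) (hu : Continuous u)
    (hu0 : ∀ w, w ∉ Ω → u w = 0) (hp : ∀ w, 0 ≤ u w) (hM : ∀ w, u w ≤ M) (hσ : ContinuousOn σ Ω)
    (hκ : 0 ≤ κ) {r : ℝ} (hr : r < -κ) {ε : ℝ} (hε : 0 < ε) :
    ∀ᶠ g in 𝓝[Hp] (r : ℂ),
      sheet Ω u σ (lam κ) (sc κ) g + sheet Ω u σ (fun z => conj (lam κ z)) (sd κ) g ≤ M + ε := by
  obtain ⟨p, s, hs, h1, h2, h3⟩ := lam_bd hκ hr
  have h1c : Tendsto (fun g => conj (lam κ g)) (𝓝[Hp] (r : ℂ)) (𝓝 (p : ℂ)) := by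
    have h4 := (Complex.continuous_conj.tendsto (p : ℂ)).comp h1
    rwa [Complex.conj_ofReal] at h4
  have hM0 : 0 ≤ M := (hp 0).trans (hM 0)
  have hle : ∀ (m t : ℂ → ℂ) (g : ℂ), sheet Ω u σ m t g ≤ u (m g) := by
    intro m t g
    unfold sheet
    split_ifs
    · exact le_rfl
    · exact hp _
  by_cases hpO : (p : ℂ) ∈ Ω
  · have hc : ContinuousAt σ (p : ℂ) := hσ.continuousAt (hΩ.mem_nhds hpO)
    have h4 : Tendsto (fun g => (σ (lam κ g) - sc κ g) - (σ (conj (lam κ g)) - sd κ g))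
        (𝓝[Hp] (r : ℂ)) (𝓝 ((σ (p : ℂ) - s) - (σ (p : ℂ) - -s))) :=
      ((hc.tendsto.comp h1).sub h2).sub ((hc.tendsto.comp h1c).sub h3)
    have h5 : (σ (p : ℂ) - s) - (σ (p : ℂ) - -s) ≠ 0 := by
      have h6 : (σ (p : ℂ) - s) - (σ (p : ℂ) - -s) = -(2 * s) := by ring
      rw [h6]
      exact neg_ne_zero.2 (mul_ne_zero two_ne_zero hs)
    filter_upwards [h4.eventually_ne h5] with g hg
    by_cases h6 : σ (lam κ g) = sc κ g
    · have h7 : sheet Ω u σ (fun z => conj (lam κ z)) (sd κ) g = 0 := by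
        unfold sheet
        rw [if_neg]
        rintro ⟨-, h8⟩
        apply hg
        have h9 : σ (conj (lam κ g)) = sd κ g := h8
        rw [h6, h9]
        ring
      rw [h7, add_zero]
      have h8 := hle (lam κ) (sc κ) g
      have h9 := hM (lam κ g)
      linarith
    · have h7 : sheet Ω u σ (lam κ) (sc κ) g = 0 := by
        unfold sheet
        rw [if_neg]
        rintro ⟨-, h8⟩
        exact h6 h8
      rw [h7, zero_add]
      have h8 := hle (fun z => conj (lam κ z)) (sd κ) g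
      have h9 := hM (conj (lam κ g))
      linarith
  · have hu1 : Tendsto (fun g => u (lam κ g)) (𝓝[Hp] (r : ℂ)) (𝓝 0) := by
      have h4 := (hu.tendsto (p : ℂ)).comp h1
      rwa [hu0 _ hpO] at h4
    have hu2 : Tendsto (fun g => u (conj (lam κ g))) (𝓝[Hp] (r : ℂ)) (𝓝 0) := by
      have h4 := (hu.tendsto (p : ℂ)).comp h1c
      rwa [hu0 _ hpO] at h4
    have he : (0 : ℝ) < ε / 2 := by linarith
    filter_upwards [hu1.eventually_lt_const he, hu2.eventually_lt_const he] with g h4 h5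
    have h8 := hle (lam κ) (sc κ) g
    have h9 := hle (fun z => conj (lam κ z)) (sd κ) g
    linarith

end Pool.Agent.H.MP_215299_an.CC
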