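import Pool.Agent.H.MP_215299_an.CC.LamA1

/-!
CC, module LamA2: the maps `lam`, `sc`, `sd` in the upper half plane.
For `g` in the upper half plane `κ² - g²` lies in the slit plane (`g²` is not a real number `≥ 0`, so `κ² - g²` is not a real number
`≤ κ²`, in particular not `≤ 0`), its square root has positive real part, hence `lam κ g` has positive imaginary part.
-/

set_option autoImplicit false

open Complex Metric Set MeasureTheory Filter Topology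
open scoped ComplexConjugate

namespace Pool.Agent.H.MP_215299_an.CC

private theorem LamA2_cont : ContinuousOn Complex.sqrt {z : ℂ | 0 ≤ z.im} := by
  have h : ContinuousOn (fun z : ℂ => ((√((‖z‖ + z.re) / 2) : ℝ) : ℂ) +
      ((√((‖z‖ - z.re) / 2) : ℝ) : ℂ) * I) {z : ℂ | 0 ≤ z.im} := by
    fun_prop
  refine h.congr fun z hz => ?_
  have hz' : 0 ≤ z.im := hz
  show Complex.sqrt z = _
  rw [Complex.sqrt_eq_real_add_ite, if_pos hz', one_mul]

open scoped ComplexOrder in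
private theorem LamA2_neg (x : ℝ) (hx : 0 ≤ x) :
    Complex.sqrt (-(x : ℂ)) = I * ((√x : ℝ) : ℂ) := by
  have h2 : (0 : ℂ) ≤ (x : ℂ) := Complex.zero_le_real.2 hx
  rw [Complex.sqrt_neg_of_nonneg h2, Complex.sqrt_of_nonneg h2, Complex.ofReal_re]

private theorem LamA2_sq (z : ℂ) : Complex.sqrt z ^ 2 = z := by
  have h := Complex.cpow_nat_inv_pow z (n := 2) two_ne_zero
  rw [Nat.cast_ofNat] at h
  exact h

/-- Boundary behaviour at the real points `r < -κ`. PROOF: `κ² - g² → κ² - r² < 0`, and for `g` in the upper half plane near `r` the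
imaginary part of `κ² - g²` is `-2 Re g Im g > 0`, so the square root tends to `i √(r² - κ²)` and `lam κ g → p = -√(r² - κ²)`;
`lam κ g + κ i → p + κ i` which has `p < 0`; if `κ > 0` it is in the slit plane, if `κ = 0` it approaches the negative real axis from above
and its root tends to `i √(-p)`. So the root tends to some `q` with `|q|² = |p + κ i| = |r|`, `sd → conj q`, `sc → r / q = - conj q`. -/
theorem lam_bd {κ : ℝ} (hκ : 0 ≤ κ) {r : ℝ} (hr : r < -κ) : ∃ p : ℝ, ∃ s : ℂ, s ≠ 0 ∧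
    Tendsto (lam κ) (𝓝[Hp] (r : ℂ)) (𝓝 (p : ℂ)) ∧ Tendsto (sc κ) (𝓝[Hp] (r : ℂ)) (𝓝 s) ∧
    Tendsto (sd κ) (𝓝[Hp] (r : ℂ)) (𝓝 (-s)) := by
  have hr0 : r < 0 := lt_of_lt_of_le hr (neg_nonpos.2 hκ)
  have hd : 0 < r ^ 2 - κ ^ 2 := by nlinarith
  obtain ⟨p, hp⟩ : ∃ p : ℝ, p = -√(r ^ 2 - κ ^ 2) := ⟨_, rfl⟩
  have hp0 : p < 0 := by
    rw [hp, neg_lt_zero]
    exact Real.sqrt_pos.2 hd
  have hp2 : p ^ 2 = r ^ 2 - κ ^ 2 := by
    rw [hp, neg_sq, Real.sq_sqrt hd.le]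
  -- the value of the root
  have hval : I * Complex.sqrt ((κ : ℂ) ^ 2 - (r : ℂ) ^ 2) = (p : ℂ) := by
    have h1 : (κ : ℂ) ^ 2 - (r : ℂ) ^ 2 = -((r ^ 2 - κ ^ 2 : ℝ) : ℂ) := by
      push_cast
      ring
    rw [h1, LamA2_neg _ hd.le, hp, ← mul_assoc, Complex.I_mul_I, Complex.ofReal_neg]
    ring
  have hg : Tendsto (fun g : ℂ => g) (𝓝[Hp] (r : ℂ)) (𝓝 (r : ℂ)) :=
    tendsto_id.mono_left nhdsWithin_le_nhds
  have hself : ∀ᶠ g in 𝓝[Hp] (r : ℂ), g ∈ Hp := self_mem_nhdsWithin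
  -- the first root
  have h1 : Tendsto (fun g : ℂ => (κ : ℂ) ^ 2 - g ^ 2) (𝓝[Hp] (r : ℂ))
      (𝓝[{z : ℂ | 0 ≤ z.im}] ((κ : ℂ) ^ 2 - (r : ℂ) ^ 2)) := by
    refine tendsto_nhdsWithin_iff.2 ⟨tendsto_const_nhds.sub (hg.pow 2), ?_⟩
    have h2 : ∀ᶠ g in 𝓝[Hp] (r : ℂ), g.re < 0 := by
      have h3 : Tendsto (fun g : ℂ => g.re) (𝓝[Hp] (r : ℂ)) (𝓝 r) := by
        have h4 := (Complex.continuous_re.tendsto (r : ℂ)).mono_left
          (nhdsWithin_le_nhds (s := Hp))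
        rwa [Complex.ofReal_re] at h4
      exact h3.eventually_lt_const hr0
    filter_upwards [hself, h2] with g hg1 hg2
    have hg3 : 0 < g.im := hg1
    show 0 ≤ ((κ : ℂ) ^ 2 - g ^ 2).im
    rw [← Complex.ofReal_pow, Complex.sub_im, Complex.ofReal_im, sq, Complex.mul_im]
    nlinarith
  have hlam : Tendsto (lam κ) (𝓝[Hp] (r : ℂ)) (𝓝 (p : ℂ)) := by
    have h2 : ((κ : ℂ) ^ 2 - (r : ℂ) ^ 2) ∈ {z : ℂ | 0 ≤ z.im} := by
      show 0 ≤ ((κ : ℂ) ^ 2 - (r : ℂ) ^ 2).im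
      rw [← Complex.ofReal_pow, ← Complex.ofReal_pow, ← Complex.ofReal_sub, Complex.ofReal_im]
    have h3 := ((LamA2_cont _ h2).tendsto.comp h1).const_mul I
    rw [hval] at h3
    exact h3
  -- the second root
  have h4 : Tendsto (fun g : ℂ => lam κ g + κ * I) (𝓝[Hp] (r : ℂ))
      (𝓝[{z : ℂ | 0 ≤ z.im}] ((p : ℂ) + κ * I)) := by
    refine tendsto_nhdsWithin_iff.2 ⟨hlam.add_const _, ?_⟩
    filter_upwards [hself] with g hg1
    have h5 := lam_im (κ := κ) (g := g) hg1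
    show 0 ≤ (lam κ g + κ * I).im
    rw [Complex.add_im, Complex.mul_im, Complex.ofReal_re, Complex.ofReal_im, Complex.I_im,
      Complex.I_re]
    linarith
  have h5 : ((p : ℂ) + κ * I) ∈ {z : ℂ | 0 ≤ z.im} := by
    show 0 ≤ ((p : ℂ) + κ * I).im
    rw [Complex.add_im, Complex.mul_im, Complex.ofReal_re, Complex.ofReal_im, Complex.ofReal_im,
      Complex.I_im, Complex.I_re]
    linarith
  obtain ⟨q, hq⟩ : ∃ q, q = Complex.sqrt ((p : ℂ) + κ * I) := ⟨_, rfl⟩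
  have hroot : Tendsto (fun g : ℂ => Complex.sqrt (lam κ g + κ * I)) (𝓝[Hp] (r : ℂ)) (𝓝 q) := by
    rw [hq]
    exact (LamA2_cont _ h5).tendsto.comp h4
  have hq2 : q ^ 2 = (p : ℂ) + κ * I := by
    rw [hq]
    exact LamA2_sq _
  have hnorm : q * conj q = -(r : ℂ) := by
    have h6 : ‖q‖ ^ 2 = -r := by
      rw [← norm_pow, hq2]
      have h7 : ‖(p : ℂ) + κ * I‖ ^ 2 = (-r) ^ 2 := by
        rw [Complex.sq_norm, Complex.normSq_add_mul_I, hp2]
        ring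
      exact (pow_left_inj₀ (norm_nonneg _) (by linarith) two_ne_zero).1 h7
    rw [Complex.mul_conj, Complex.normSq_eq_norm_sq, h6, Complex.ofReal_neg]
  have hr1 : (r : ℂ) ≠ 0 := Complex.ofReal_ne_zero.2 hr0.ne
  have hq0 : q ≠ 0 := by
    rintro rfl
    rw [zero_mul, eq_comm, neg_eq_zero] at hnorm
    exact hr1 hnorm
  refine ⟨p, (r : ℂ) / q, div_ne_zero hr1 hq0, hlam, hg.div hroot hq0, ?_⟩
  have h8 : -((r : ℂ) / q) = conj q := by
    rw [← neg_div, ← hnorm, mul_div_cancel_left₀ _ hq0]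
  rw [h8]
  exact (Complex.continuous_conj.tendsto q).comp hroot

end Pool.Agent.H.MP_215299_an.CC
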