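import Pool.Agent.H.MP_215299_an.CC.SmA
import Pool.Agent.H.MP_215299_an.CC.LamA

/-!
CC, module FoA0: one sheet of the folded function.

Setting: `Ω` open, `u` continuous on the plane, `0 ≤ u ≤ M`, zero outside `Ω`, harmonic at the points of `Ω` off the real line, `σ` continuous
on `Ω` with `σ w ^ 2 = w - κ i`. A sheet is given by maps `m`, `s` on the upper half plane, `s g ^ 2 = m g - κ i`, `s ≠ 0`; the sheet of `u` is
`u (m g)` if `m g ∈ Ω` and `σ (m g) = s g`, and `0` otherwise.
-/

set_option autoImplicit false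

open Complex Metric Set MeasureTheory Filter Topology InnerProductSpace
open scoped ComplexConjugate

namespace Pool.Agent.H.MP_215299_an.CC

open Classical in
/-- A sheet of `u`. -/
noncomputable def sheet (Ω : Set ℂ) (u : ℂ → ℝ) (σ m s : ℂ → ℂ) (g : ℂ) : ℝ :=
  if m g ∈ Ω ∧ σ (m g) = s g then u (m g) else 0

end Pool.Agent.H.MP_215299_an.CC
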