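import Pool.Agent.H.MP_215299_an.CC.FoA
import Pool.Agent.H.MP_215299_an.CC.Bar
import Pool.Agent.H.MP_215299_an.CC.Cst

/-!
CC, module FoB: the folding argument.
-/

set_option autoImplicit false

open Complex Metric Set MeasureTheory Filter Topology InnerProductSpace
open scoped ComplexConjugate

namespace Pool.Agent.H.MP_215299_an.CC

private theorem FoB_sqrt_sq (z : ℂ) : Complex.sqrt z ^ 2 = z := by
  have h := Complex.cpow_nat_inv_pow z (n := 2) two_ne_zero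
  unfold Complex.sqrt
  push_cast at h
  exact h

private theorem FoB_slit {a κ δ : ℝ} (ha : 0 ≤ a) (hδ : 0 < δ) (hd : a ^ 2 + κ ^ 2 = δ ^ 2) {w : ℂ}
    (hw : w ∈ ball (a : ℂ) δ) : w - κ * I ∈ slitPlane := by
  rw [mem_slitPlane_iff]
  by_contra h
  push Not at h
  obtain ⟨h1, h2⟩ := h
  have e1 : (w - κ * I).re = w.re := by simp
  have e2 : (w - κ * I).im = w.im - κ := by simp
  rw [e1] at h1
  rw [e2] at h2
  rw [mem_ball, dist_eq_norm] at hw
  have h3 : ‖w - a‖ ^ 2 < δ ^ 2 := by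
    have := norm_nonneg (w - a)
    nlinarith
  have h4 : ‖w - a‖ ^ 2 = (w.re - a) ^ 2 + w.im ^ 2 := by
    rw [Complex.sq_norm, Complex.normSq_apply]
    simp only [sub_re, ofReal_re, sub_im, ofReal_im, sub_zero]
    ring
  have h5 : w.im = κ := by linarith
  rw [h4, h5] at h3
  nlinarith

private theorem FoB_core {Ω : Set ℂ} {u : ℂ → ℝ} {σ : ℂ → ℂ} {M a κ δ : ℝ} (hΩ : IsOpen Ω)
    (hu : Continuous u)
    (hu0 : ∀ w, w ∉ Ω → u w = 0) (hp : ∀ w, 0 ≤ u w) (hM : ∀ w, u w ≤ M)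
    (hh : ∀ w ∈ Ω, w.im ≠ 0 → HarmonicAt u w) (hσ : ContinuousOn σ Ω)
    (hσ2 : ∀ w ∈ Ω, σ w ^ 2 = w - κ * I) (hκ : 0 ≤ κ) (ha : 0 ≤ a) (hδ : 0 < δ)
    (hd : a ^ 2 + κ ^ 2 = δ ^ 2) (hb : ball (a : ℂ) δ ⊆ Ω)
    (hst : ∀ w ∈ ball (a : ℂ) δ, σ w = Complex.sqrt (w - κ * I)) :
    u (a + (1 + I) * δ / 8) + u (a + (1 - I) * δ / 8) ≤ (2 - 1 / 1000) * M := by
  obtain ⟨g₀, hg0, hl, hsc, hsd, harg⟩ := g0_facts hκ ha hδ hd
  have hM0 : 0 ≤ M := (hp 0).trans (hM 0)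
  obtain ⟨harm, hrange, hleft, hright⟩ := arg_facts (-κ)
  set A : ℂ → ℝ := sheet Ω u σ (lam κ) (sc κ) with hA
  set B : ℂ → ℝ := sheet Ω u σ (fun z => conj (lam κ z)) (sd κ) with hB
  have hA1 : ∀ g, A g ≤ M := by
    intro g
    rw [hA]
    unfold sheet
    split_ifs
    · exact hM _
    · exact hM0
  have hB1 : ∀ g, B g ≤ M := by
    intro g
    rw [hB]
    unfold sheet
    split_ifs
    · exact hM _
    · exact hM0
  have cl : ∀ g ∈ Hp, ContinuousAt (lam κ) g := fun g hg => (lam_an hg).continuousAt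
  have ccl : ∀ g ∈ Hp, ContinuousAt (fun z => conj (lam κ z)) g := fun g hg =>
    Complex.continuous_conj.continuousAt.comp (cl g hg)
  have cA : ∀ g ∈ Hp, ContinuousAt A g := fun g hg =>
    sheet_cont hΩ hu hu0 hp hσ hσ2 cl (fun g hg => (sc_sq hκ hg).2.2)
      (fun g hg => ⟨(sc_sq hκ hg).1, (sc_sq hκ hg).2.1⟩) hg
  have cB : ∀ g ∈ Hp, ContinuousAt B g := fun g hg =>
    sheet_cont hΩ hu hu0 hp hσ hσ2 ccl (fun g hg => (sd_sq hκ hg).2.2)
      (fun g hg => ⟨(sd_sq hκ hg).1, (sd_sq hκ hg).2.1⟩) hg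
  have sA : ∀ g ∈ Hp, SubM A g := fun g hg =>
    sheet_sub hΩ hu hu0 hp hσ hσ2 cl (fun g hg => (sc_sq hκ hg).2.2)
      (fun g hg => ⟨(sc_sq hκ hg).1, (sc_sq hκ hg).2.1⟩)
      (fun g hg h => harm_comp (lam_an hg) (hh _ h (ne_of_gt (lam_im hg)))) hg
  have sB : ∀ g ∈ Hp, SubM B g := fun g hg =>
    sheet_sub hΩ hu hu0 hp hσ hσ2 ccl (fun g hg => (sd_sq hκ hg).2.2)
      (fun g hg => ⟨(sd_sq hκ hg).1, (sd_sq hκ hg).2.1⟩)
      (fun g hg h => harm_comp (u := fun w => u (conj w)) (lam_an hg) (harm_conj (hh _ h (by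
        rw [conj_im]
        exact neg_ne_zero.2 (ne_of_gt (lam_im hg)))))) hg
  have hpi := Real.pi_pos
  set φ : ℂ → ℝ := fun g => (A g + B g) + (-(2 * M) + M / Real.pi * (g - ((-κ : ℝ) : ℂ)).arg) with hφ
  have harm2 : ∀ g ∈ Hp, HarmonicAt (fun z : ℂ => -(2 * M) + M / Real.pi * (z - ((-κ : ℝ) : ℂ)).arg) g := by
    intro g hg
    exact (harmonicAt_const (-(2 * M))).add ((harm g hg).const_smul (c := M / Real.pi))
  have hargle : ∀ g ∈ Hp, M / Real.pi * (g - ((-κ : ℝ) : ℂ)).arg ≤ M := by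
    intro g hg
    have h1 := (hrange g hg).2
    rw [div_mul_eq_mul_div, div_le_iff₀ hpi]
    exact mul_le_mul_of_nonneg_left h1 hM0
  have main := hp_max (φ := φ) (B := M) (b := -κ) ?_ ?_ ?_ ?_
  · have h1 := main g₀ hg0
    have hw0 : (a : ℂ) + (1 + I) * δ / 8 ∈ ball (a : ℂ) δ := by
      rw [mem_ball, dist_eq_norm, add_sub_cancel_left, norm_div, norm_mul, Complex.norm_real,
        Real.norm_of_nonneg hδ.le]
      have h2 : ‖(1 : ℂ) + I‖ ≤ 2 := by
        refine (norm_add_le _ _).trans ?_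
        simp
        norm_num
      have h3 : ‖(8 : ℂ)‖ = 8 := by simp
      rw [h3, div_lt_iff₀ (by norm_num)]
      nlinarith
    have hw1 : (a : ℂ) + (1 - I) * δ / 8 ∈ ball (a : ℂ) δ := by
      rw [mem_ball, dist_eq_norm, add_sub_cancel_left, norm_div, norm_mul, Complex.norm_real,
        Real.norm_of_nonneg hδ.le]
      have h2 : ‖(1 : ℂ) - I‖ ≤ 2 := by
        refine (norm_sub_le _ _).trans ?_
        simp
        norm_num
      have h3 : ‖(8 : ℂ)‖ = 8 := by simp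
      rw [h3, div_lt_iff₀ (by norm_num)]
      nlinarith
    have hc : conj ((a : ℂ) + (1 + I) * δ / 8) = (a : ℂ) + (1 - I) * δ / 8 := by
      simp only [map_add, map_mul, map_div₀, conj_ofReal, map_one, conj_I, map_ofNat]
      ring
    have hA0 : A g₀ = u (a + (1 + I) * δ / 8) := by
      rw [hA]
      unfold sheet
      rw [hl, if_pos]
      exact ⟨hb hw0, by rw [hst _ hw0, hsc]⟩
    have hB0 : B g₀ = u (a + (1 - I) * δ / 8) := by
      have hlc : conj (lam κ g₀) = (a : ℂ) + (1 - I) * δ / 8 := by rw [hl, hc]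
      have h5 : conj (lam κ g₀) ∈ Ω ∧ σ (conj (lam κ g₀)) = sd κ g₀ :=
        ⟨by rw [hlc]; exact hb hw1, by rw [hlc, hst _ hw1, hsd]⟩
      have h6 : B g₀ = u (conj (lam κ g₀)) := if_pos h5
      rw [h6, hlc]
    have h2 : A g₀ + B g₀ + (-(2 * M) + M / Real.pi * (g₀ - ((-κ : ℝ) : ℂ)).arg) ≤ 0 := h1
    have h3 : g₀ - ((-κ : ℝ) : ℂ) = g₀ + κ := by
      push_cast
      ring
    rw [h3, hA0, hB0] at h2
    have h4 : M / 1000 ≤ M / Real.pi * (g₀ + κ).arg := by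
      have h5 : M / Real.pi * (Real.pi / 1000) ≤ M / Real.pi * (g₀ + κ).arg :=
        mul_le_mul_of_nonneg_left harg (by positivity)
      have h6 : M / Real.pi * (Real.pi / 1000) = M / 1000 := by
        field_simp
      linarith
    linarith
  · intro g hg
    have c2 : ContinuousAt (fun z : ℂ => -(2 * M) + M / Real.pi * (z - ((-κ : ℝ) : ℂ)).arg) g :=
      (HarmonicOnNhd.continuousOn (s := Hp) harm2).continuousAt
        ((isOpen_lt continuous_const Complex.continuous_im).mem_nhds hg)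
    exact ((cA g hg).add (cB g hg)).add c2
  · intro g hg
    exact ((sA g hg).add (sB g hg)).add (SubM.of_harmonic (harm2 g hg))
  · intro g hg
    have h1 := hA1 g
    have h2 := hB1 g
    have h3 := hargle g hg
    show (A g + B g) + (-(2 * M) + M / Real.pi * (g - ((-κ : ℝ) : ℂ)).arg) ≤ M
    linarith
  · intro r hr ε hε
    rcases lt_or_gt_of_ne hr with h | h
    · have h1 := sheet_bd hΩ hu hu0 hp hM hσ hκ h hε
      have h2 : ∀ᶠ g in 𝓝[Hp] (r : ℂ), g ∈ Hp := self_mem_nhdsWithin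
      filter_upwards [h1, h2] with g hg1 hg2
      have h3 := hargle g hg2
      show (A g + B g) + (-(2 * M) + M / Real.pi * (g - ((-κ : ℝ) : ℂ)).arg) ≤ ε
      have h4 : A g + B g ≤ M + ε := hg1
      linarith
    · have h1 := (hright r h).const_mul (M / Real.pi)
      rw [mul_zero] at h1
      have h2 := h1.eventually (gt_mem_nhds hε)
      filter_upwards [h2] with g hg
      show (A g + B g) + (-(2 * M) + M / Real.pi * (g - ((-κ : ℝ) : ℂ)).arg) ≤ ε
      have h3 := hA1 g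
      have h4 := hB1 g
      linarith

/-- PROOF: replace `σ` by `-σ` if necessary so that `σ w = √(w - κ i)` (principal root) on `ball a δ`: there `w - κ i` is in the slit plane
(the points `κ i - s`, `s ≥ 0`, have distance `√(κ² + (a+s)²) ≥ δ` from `a`), both sides are continuous without zeros with equal squares and
the ball is connected. Apply `hp_max` with `b = -κ` to `φ g = A g + B g - 2 M + (M / π) arg (g + κ)`, `A` the sheet of `(lam κ, sc κ)`,
`B` the sheet of `(conj lam κ, sd κ)` (`sheet_cont`, `sheet_sub` with `harm_comp`, `harm_conj`, `lam_im`; `sheet_bd`; `arg_facts`;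
`φ ≤ M`). At `g₀` of `g0_facts` both sheet conditions hold, so `A g₀ = u w₀`, `B g₀ = u (conj w₀)`. -/
theorem fold {Ω : Set ℂ} {u : ℂ → ℝ} {σ : ℂ → ℂ} {M a κ δ : ℝ} (hΩ : IsOpen Ω) (hu : Continuous u)
    (hu0 : ∀ w, w ∉ Ω → u w = 0) (hp : ∀ w, 0 ≤ u w) (hM : ∀ w, u w ≤ M)
    (hh : ∀ w ∈ Ω, w.im ≠ 0 → HarmonicAt u w) (hσ : ContinuousOn σ Ω)
    (hσ2 : ∀ w ∈ Ω, σ w ^ 2 = w - κ * I) (hκ : 0 ≤ κ) (ha : 0 ≤ a) (hδ : 0 < δ)
    (hd : a ^ 2 + κ ^ 2 = δ ^ 2) (hb : ball (a : ℂ) δ ⊆ Ω) :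
    u (a + (1 + I) * δ / 8) + u (a + (1 - I) * δ / 8) ≤ (2 - 1 / 1000) * M := by
  have hS : IsPreconnected (ball (a : ℂ) δ) := (convex_ball _ _).isPreconnected
  have hτ : ContinuousOn (fun w : ℂ => Complex.sqrt (w - κ * I)) (ball (a : ℂ) δ) := by
    refine Complex.continuousOn_sqrt.comp (by fun_prop) ?_
    intro w hw
    exact FoB_slit ha hδ hd hw
  have hne : ∀ {w : ℂ}, w ∈ ball (a : ℂ) δ → Complex.sqrt (w - κ * I) ≠ 0 := by
    intro w hw h
    have h1 := FoB_sqrt_sq (w - κ * I)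
    rw [h, zero_pow two_ne_zero] at h1
    exact slitPlane_ne_zero (FoB_slit ha hδ hd hw) h1.symm
  rcases hS.eq_or_eq_neg_of_sq_eq (hσ.mono hb) hτ (fun w hw => by
      show σ w ^ 2 = Complex.sqrt (w - κ * I) ^ 2
      rw [hσ2 w (hb hw), FoB_sqrt_sq]) hne with h | h
  · exact FoB_core hΩ hu hu0 hp hM hh hσ hσ2 hκ ha hδ hd hb fun w hw => h hw
  · refine FoB_core (σ := fun w => - σ w) hΩ hu hu0 hp hM hh hσ.neg (fun w hw => ?_) hκ ha hδ hd hb
      fun w hw => ?_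
    · rw [neg_sq]
      exact hσ2 w hw
    · have h1 : σ w = - Complex.sqrt (w - κ * I) := h hw
      rw [h1, neg_neg]

end Pool.Agent.H.MP_215299_an.CC
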