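import Pool.Agent.H.MP_215299_an.CC.KbB

/-!
CC, module GaA: bounds for the Green function.
-/

set_option autoImplicit false

open Complex Metric Set MeasureTheory Filter Topology InnerProductSpace
open scoped ComplexConjugate

namespace Pool.Agent.H.MP_215299_an.CC

variable {f F : ℂ → ℂ}

private theorem GaA_id (a b : ℂ) :
    ‖1 - conj b * a‖ ^ 2 - ‖a - b‖ ^ 2 = (1 - ‖a‖ ^ 2) * (1 - ‖b‖ ^ 2) := by
  rw [Complex.sq_norm, Complex.sq_norm, Complex.sq_norm, Complex.sq_norm]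
  simp only [Complex.normSq_apply, Complex.sub_re, Complex.sub_im, Complex.mul_re, Complex.mul_im,
    Complex.conj_re, Complex.conj_im, Complex.one_re, Complex.one_im]
  ring

/-- PROOF: `|1 - conj b a|^2 - |a - b|^2 = (1 - |a|^2)(1 - |b|^2)`. -/
theorem ph_id {a b : ℂ} (ha : ‖a‖ < 1) (hb : ‖b‖ < 1) :
    1 - ph a b ^ 2 = (1 - ‖a‖ ^ 2) * (1 - ‖b‖ ^ 2) / ‖1 - conj b * a‖ ^ 2 ∧ 0 < ‖1 - conj b * a‖ := by
  have h1 : ‖conj b * a‖ < 1 := by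
    rw [norm_mul, RCLike.norm_conj]
    nlinarith [norm_nonneg a, norm_nonneg b]
  have h2 : 0 < ‖1 - conj b * a‖ := by
    have h3 := norm_sub_norm_le (1 : ℂ) (conj b * a)
    rw [norm_one] at h3
    linarith
  refine ⟨?_, h2⟩
  have h4 : ‖1 - conj b * a‖ ^ 2 ≠ 0 := pow_ne_zero _ h2.ne'
  rw [← GaA_id a b, ph, norm_div, div_pow, sub_div, div_self h4]

theorem ph_lt {a b : ℂ} (ha : ‖a‖ < 1) (hb : ‖b‖ < 1) : ph a b < 1 := by
  obtain ⟨h1, h2⟩ := ph_id ha hb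
  have h3 : 0 < (1 - ‖a‖ ^ 2) * (1 - ‖b‖ ^ 2) / ‖1 - conj b * a‖ ^ 2 := by
    have ha2 : 0 < 1 - ‖a‖ ^ 2 := by nlinarith [norm_nonneg a]
    have hb2 : 0 < 1 - ‖b‖ ^ 2 := by nlinarith [norm_nonneg b]
    positivity
  have h4 : 0 ≤ ph a b := norm_nonneg _
  nlinarith

theorem ph_pos {a b : ℂ} (ha : ‖a‖ < 1) (hb : ‖b‖ < 1) (hab : a ≠ b) : 0 < ph a b :=
  norm_pos_iff.mpr (div_ne_zero (sub_ne_zero.mpr hab) (norm_pos_iff.mp (ph_id ha hb).2))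

private theorem GaA_mem (h : Uni f F) {w : ℂ} (hw : w ∈ Om f) : ‖F w‖ < 1 := by
  obtain ⟨z, hz, rfl⟩ := hw
  rw [h.inv z hz]
  exact mem_ball_zero_iff.mp hz

theorem Uni.gr_nonneg (h : Uni f F) {w : ℂ} {t : ℝ} (hw : w ∈ Om f) (ht : (t : ℂ) ∈ Om f) :
    0 ≤ gr F w t :=
  neg_nonneg.mpr (Real.log_nonpos (norm_nonneg _) (ph_lt (GaA_mem h hw) (GaA_mem h ht)).le)

end Pool.Agent.H.MP_215299_an.CC
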