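import Pool.Agent.H.MP_215299_an.CC.GaA

/-!
CC, module GaB: bounds for the Green function.
-/

set_option autoImplicit false

open Complex Metric Set MeasureTheory Filter Topology InnerProductSpace
open scoped ComplexConjugate

namespace Pool.Agent.H.MP_215299_an.CC

variable {f F : ℂ → ℂ}

/-- PROOF: if `ph ≥ 1/2` then `gr ≤ log 2`; else `Uni.koebe` gives `ph ≥ ‖w - t‖ / (128 dd f t)`. -/
theorem Uni.gr_le (h : Uni f F) {w : ℂ} {t : ℝ} (hw : w ∈ Om f) (ht : (t : ℂ) ∈ Om f) (hne : w ≠ t) :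
    gr F w t ≤ max (Real.log 2) (Real.log (128 * dd f t / ‖w - t‖)) := by
  have hF : F w ≠ F t := fun h0 => hne (h.injF hw ht h0)
  have hpos : 0 < ph (F w) (F t) := ph_pos (h.maps hw).1 (h.maps ht).1 hF
  have hn : 0 < ‖w - t‖ := norm_pos_iff.2 (sub_ne_zero.2 hne)
  unfold gr
  by_cases hp : ph (F w) (F t) ≤ 1 / 2
  · refine le_max_of_le_right ?_
    have h1 := h.koebe hw ht hp
    rw [← Real.log_inv]
    apply Real.log_le_log (inv_pos.2 hpos)
    rw [le_div_iff₀ hn, inv_mul_le_iff₀ hpos]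
    linarith
  · refine le_max_of_le_left ?_
    rw [← Real.log_inv]
    apply Real.log_le_log (inv_pos.2 hpos)
    rw [inv_le_comm₀ hpos two_pos]
    push Not at hp
    linarith

/-- PROOF: `F (f 0) = 0`, `ph 0 (F t) = ‖F t‖`, `-log x ≥ (1 - x^2)/2` for `0 < x ≤ 1`. -/
theorem Uni.gr_zero (h : Uni f F) {t : ℝ} (ht : (t : ℂ) ∈ Om f) (hne : (t : ℂ) ≠ f 0) :
    1 - ‖F t‖ ^ 2 ≤ 2 * gr F (f 0) t := by
  have h0 : F (f 0) = 0 := h.inv 0 (mem_ball_self one_pos)
  have h1 : F t ≠ 0 := by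
    intro h2
    apply hne
    have h3 := (h.maps ht).2
    rw [h2] at h3
    exact h3.symm
  have h2 : ph (F (f 0)) (F t) = ‖F t‖ := by
    unfold ph
    rw [h0, mul_zero, sub_zero, div_one, zero_sub, norm_neg]
  have h3 : 0 < ‖F t‖ := norm_pos_iff.2 h1
  unfold gr
  rw [h2]
  have h4 := Real.log_le_sub_one_of_pos (show 0 < ‖F t‖ ^ 2 by positivity)
  rw [Real.log_pow] at h4
  push_cast at h4
  linarith

end Pool.Agent.H.MP_215299_an.CC
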