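import Pool.Agent.H.MP_215299_an.CC.GaA

/-!
CC, module GaC: bounds for the Green function.
-/

set_option autoImplicit false

open Complex Metric Set MeasureTheory Filter Topology InnerProductSpace
open scoped ComplexConjugate

namespace Pool.Agent.H.MP_215299_an.CC

variable {f F : ℂ → ℂ}

/-- Uniform smallness near the boundary. PROOF: with `r < 1` a bound for `‖F t‖`, `t ∈ E` (compactness), `ph^2 ≥ 1 - (1 - ‖F w‖^2)/(1 - r)^2`. -/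
theorem Uni.gr_bd (h : Uni f F) {E : Set ℝ} (hE : Cp f E) {ε : ℝ} (hε : 0 < ε) :
    ∃ r < 1, ∀ w ∈ Om f, r < ‖F w‖ → ∀ t ∈ E, gr F w t ≤ ε := by
  rcases E.eq_empty_or_nonempty with hemp | hne
  · refine ⟨0, zero_lt_one, fun w _ _ t ht => ?_⟩
    rw [hemp] at ht
    exact absurd ht (Set.notMem_empty t)
  have hcont : ContinuousOn (fun t : ℝ => ‖F (t : ℂ)‖) E := by
    refine (h.diffF.continuousOn.comp Complex.continuous_ofReal.continuousOn ?_).norm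
    intro t ht
    exact hE.sub t ht
  obtain ⟨t₀, ht₀, hmax⟩ := hE.cpt.exists_isMaxOn hne hcont
  obtain ⟨ρ, hρ⟩ : ∃ ρ, ρ = ‖F (t₀ : ℂ)‖ := ⟨_, rfl⟩
  have hρ1 : ρ < 1 := by
    rw [hρ]
    exact (h.maps (hE.sub t₀ ht₀)).1
  have hρ0 : 0 ≤ ρ := by
    rw [hρ]
    exact norm_nonneg _
  have hle : ∀ t ∈ E, ‖F (t : ℂ)‖ ≤ ρ := by
    intro t ht
    rw [hρ]
    exact hmax ht
  obtain ⟨η, hη⟩ : ∃ η, η = 1 - Real.exp (-(2 * ε)) := ⟨_, rfl⟩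
  have hη0 : 0 < η := by
    rw [hη, sub_pos, Real.exp_lt_one_iff]
    linarith
  have hη1 : η < 1 := by
    rw [hη]
    linarith [Real.exp_pos (-(2 * ε))]
  have hc0 : 0 < η * (1 - ρ) ^ 2 := mul_pos hη0 (pow_pos (by linarith) 2)
  have hc1 : η * (1 - ρ) ^ 2 < 1 := by
    have h1 : (1 - ρ) ^ 2 ≤ 1 := by nlinarith
    nlinarith
  refine ⟨Real.sqrt (1 - η * (1 - ρ) ^ 2), ?_, ?_⟩
  · rw [Real.sqrt_lt' one_pos]
    linarith
  · intro w hw hrw t ht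
    have ha : ‖F w‖ < 1 := (h.maps hw).1
    have hb : ‖F (t : ℂ)‖ < 1 := (h.maps (hE.sub t ht)).1
    obtain ⟨hid, hden⟩ := ph_id ha hb
    have ha2 : 1 - η * (1 - ρ) ^ 2 < ‖F w‖ ^ 2 := by
      have h1 : 0 ≤ 1 - η * (1 - ρ) ^ 2 := by linarith
      calc 1 - η * (1 - ρ) ^ 2 = Real.sqrt (1 - η * (1 - ρ) ^ 2) ^ 2 := (Real.sq_sqrt h1).symm
        _ < ‖F w‖ ^ 2 := pow_lt_pow_left₀ hrw (Real.sqrt_nonneg _) two_ne_zero
    have hd : 1 - ρ ≤ ‖1 - conj (F (t : ℂ)) * F w‖ := by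
      have h1 : ‖conj (F (t : ℂ)) * F w‖ ≤ ρ := by
        rw [norm_mul, RCLike.norm_conj]
        calc ‖F (t : ℂ)‖ * ‖F w‖ ≤ ρ * 1 :=
              mul_le_mul (hle t ht) ha.le (norm_nonneg _) hρ0
          _ = ρ := mul_one _
      have h2 := norm_sub_norm_le (1 : ℂ) (conj (F (t : ℂ)) * F w)
      rw [norm_one] at h2
      linarith
    have hd2 : (1 - ρ) ^ 2 ≤ ‖1 - conj (F (t : ℂ)) * F w‖ ^ 2 :=
      pow_le_pow_left₀ (by linarith) hd 2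
    have hq : (1 - ‖F w‖ ^ 2) * (1 - ‖F (t : ℂ)‖ ^ 2) / ‖1 - conj (F (t : ℂ)) * F w‖ ^ 2 ≤ η := by
      rw [div_le_iff₀ (pow_pos hden 2)]
      have h1 : 0 ≤ 1 - ‖F w‖ ^ 2 := by nlinarith [norm_nonneg (F w)]
      have h2 : 1 - ‖F (t : ℂ)‖ ^ 2 ≤ 1 := by nlinarith [sq_nonneg ‖F (t : ℂ)‖]
      calc (1 - ‖F w‖ ^ 2) * (1 - ‖F (t : ℂ)‖ ^ 2) ≤ (1 - ‖F w‖ ^ 2) * 1 :=
            mul_le_mul_of_nonneg_left h2 h1
        _ ≤ η * (1 - ρ) ^ 2 := by linarith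
        _ ≤ η * ‖1 - conj (F (t : ℂ)) * F w‖ ^ 2 := mul_le_mul_of_nonneg_left hd2 hη0.le
    have hph : Real.exp (-ε) ^ 2 ≤ ph (F w) (F (t : ℂ)) ^ 2 := by
      have h1 : Real.exp (-ε) ^ 2 = Real.exp (-(2 * ε)) := by
        rw [← Real.exp_nat_mul]
        congr 1
        push_cast
        ring
      rw [h1]
      linarith
    have hph0 : 0 ≤ ph (F w) (F (t : ℂ)) := norm_nonneg _
    have hph1 : Real.exp (-ε) ≤ ph (F w) (F (t : ℂ)) :=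
      le_of_sq_le_sq hph hph0
    have hlog := Real.log_le_log (Real.exp_pos (-ε)) hph1
    rw [Real.log_exp] at hlog
    unfold gr
    linarith

end Pool.Agent.H.MP_215299_an.CC
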