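import Pool.Agent.H.MP_215299_an.CC.GaA

/-!
CC, module GaD: bounds for the Green function.
-/

set_option autoImplicit false

open Complex Metric Set MeasureTheory Filter Topology InnerProductSpace
open scoped ComplexConjugate

namespace Pool.Agent.H.MP_215299_an.CC

variable {f F : ℂ → ℂ}

private theorem GaD_den {a b : ℂ} (ha : ‖a‖ < 1) (hb : ‖b‖ < 1) : 1 - conj b * a ≠ 0 := by
  intro h
  have h1 : conj b * a = 1 := (sub_eq_zero.mp h).symm
  have h2 : ‖conj b * a‖ = 1 := by rw [h1, norm_one]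
  rw [norm_mul, Complex.norm_conj] at h2
  have h3 : ‖b‖ * ‖a‖ < 1 := by
    have := mul_lt_mul'' hb ha (norm_nonneg b) (norm_nonneg a)
    simpa using this
  linarith

private theorem GaD_ne (h : Uni f F) {w t : ℂ} (hw : w ∈ Om f) (ht : t ∈ Om f) (hne : w ≠ t) :
    (F w - F t) / (1 - conj (F t) * F w) ≠ 0 := by
  have h1 : F w ≠ F t := fun he => hne (h.injF hw ht he)
  exact div_ne_zero (sub_ne_zero.mpr h1) (GaD_den (h.maps hw).1 (h.maps ht).1)

/-- PROOF: near `w`, `gr F · t = - log ‖(F w - F t) / (1 - conj (F t) F w)‖` with an analytic function without zeros,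
`AnalyticAt.harmonicAt_log_norm`. -/
theorem Uni.gr_harm (h : Uni f F) {w : ℂ} {t : ℝ} (hw : w ∈ Om f) (ht : (t : ℂ) ∈ Om f) (hne : w ≠ t) :
    HarmonicAt (fun z => gr F z t) w := by
  have hF : AnalyticAt ℂ F w := h.diffF.analyticAt (h.isOpen.mem_nhds hw)
  have hden : (1 : ℂ) - conj (F t) * F w ≠ 0 := GaD_den (h.maps hw).1 (h.maps ht).1
  have hφ : AnalyticAt ℂ (fun z => (F z - F t) / (1 - conj (F t) * F z)) w :=
    (hF.sub analyticAt_const).div (analyticAt_const.sub (analyticAt_const.mul hF)) hden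
  have h0 : (fun z => (F z - F t) / (1 - conj (F t) * F z)) w ≠ 0 := GaD_ne h hw ht hne
  have h1 := hφ.harmonicAt_log_norm h0
  exact h1.neg

/-- Joint continuity away from the diagonal. -/
theorem Uni.gr_cont (h : Uni f F) {w : ℂ} {t : ℝ} (hw : w ∈ Om f) (ht : (t : ℂ) ∈ Om f) (hne : w ≠ t) :
    ContinuousAt (fun q : ℂ × ℝ => gr F q.1 q.2) (w, t) := by
  have hFw : ContinuousAt F w := (h.diffF.differentiableAt (h.isOpen.mem_nhds hw)).continuousAt
  have hFt : ContinuousAt F (t : ℂ) := (h.diffF.differentiableAt (h.isOpen.mem_nhds ht)).continuousAt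
  have hden : (1 : ℂ) - conj (F t) * F w ≠ 0 := GaD_den (h.maps hw).1 (h.maps ht).1
  have h1 : ContinuousAt (fun q : ℂ × ℝ => F q.1) (w, t) :=
    ContinuousAt.comp (f := fun q : ℂ × ℝ => q.1) (g := F) hFw continuousAt_fst
  have h2 : ContinuousAt (fun q : ℂ × ℝ => F (q.2 : ℂ)) (w, t) := by
    have h3 : ContinuousAt (fun q : ℂ × ℝ => (q.2 : ℂ)) (w, t) :=
      (Complex.continuous_ofReal.comp continuous_snd).continuousAt
    exact ContinuousAt.comp (f := fun q : ℂ × ℝ => (q.2 : ℂ)) (g := F) hFt h3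
  have h2' : ContinuousAt (fun q : ℂ × ℝ => conj (F (q.2 : ℂ))) (w, t) :=
    Complex.continuous_conj.continuousAt.comp h2
  have h4 : ContinuousAt (fun q : ℂ × ℝ => (F q.1 - F (q.2 : ℂ)) / (1 - conj (F (q.2 : ℂ)) * F q.1)) (w, t) :=
    (h1.sub h2).div (continuousAt_const.sub (h2'.mul h1)) hden
  have h5 := (h4.norm.log (norm_ne_zero_iff.mpr (GaD_ne h hw ht hne))).neg
  exact h5

end Pool.Agent.H.MP_215299_an.CC
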