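import Pool.Agent.H.MP_215299_an.CC.Defs

/-!
CC, module GbB1: integrals of the Green function along the real line.
-/

set_option autoImplicit false

open Complex Metric Set MeasureTheory Filter Topology
open scoped ComplexConjugate

namespace Pool.Agent.H.MP_215299_an.CC

/-- PROOF: the integrand is `log (A / |t - c|) - k` for `|t - c| < A e^{-k}` and `0` outside (at `t = c` the value does not matter);
`∫_0^B log (B / s) ds = B`. -/
theorem log_int {A k : ℝ} (hA : 0 < A) (c : ℝ) :
    Integrable (fun t : ℝ => max (Real.log (A / |t - c|) - k) 0) ∧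
      ∫ t : ℝ, max (Real.log (A / |t - c|) - k) 0 = 2 * A * Real.exp (-k) := by
  obtain ⟨B, hB⟩ : ∃ B : ℝ, B = A * Real.exp (-k) := ⟨_, rfl⟩
  have hB0 : 0 < B := by rw [hB]; positivity
  have hlB : Real.log B = Real.log A - k := by
    rw [hB, Real.log_mul hA.ne' (Real.exp_pos _).ne', Real.log_exp]; ring
  have h1 : IntervalIntegrable (fun s : ℝ => Real.log B - Real.log s) volume (-B) B :=
    intervalIntegrable_const.sub intervalIntegral.intervalIntegrable_log'
  have h2 : Integrable ((Ioc (-B) B).indicator (fun s : ℝ => Real.log B - Real.log s)) := by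
    rw [integrable_indicator_iff measurableSet_Ioc]
    exact (intervalIntegrable_iff_integrableOn_Ioc_of_le (by linarith)).1 h1
  have h3 : ∫ s : ℝ, (Ioc (-B) B).indicator (fun s : ℝ => Real.log B - Real.log s) s = 2 * B := by
    rw [integral_indicator measurableSet_Ioc, ← intervalIntegral.integral_of_le (by linarith),
      intervalIntegral.integral_sub intervalIntegrable_const intervalIntegral.intervalIntegrable_log',
      integral_log, intervalIntegral.integral_const, Real.log_neg_eq_log, smul_eq_mul]
    ring
  have hae : (fun t : ℝ => (Ioc (-B) B).indicator (fun s : ℝ => Real.log B - Real.log s) (t - c)) =ᵐ[volume]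
      fun t : ℝ => max (Real.log (A / |t - c|) - k) 0 := by
    have e1 : ∀ᵐ t : ℝ, t ∉ ({c, c - B} : Set ℝ) :=
      ((countable_singleton (c - B)).insert c).ae_notMem volume
    filter_upwards [e1] with t ht
    have hc : t - c ≠ 0 := fun e => ht (by
      left; linarith)
    have hcB : t - c ≠ -B := fun e => ht (by
      right; show t = c - B; linarith)
    have hpos : 0 < |t - c| := abs_pos.2 hc
    have e2 : Real.log (A / |t - c|) - k = Real.log B - Real.log (t - c) := by
      rw [Real.log_div hA.ne' hpos.ne', Real.log_abs, hlB]; ring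
    rw [e2]
    by_cases hm : t - c ∈ Ioc (-B) B
    · rw [indicator_of_mem hm]
      refine (max_eq_left ?_).symm
      rw [sub_nonneg, ← Real.log_abs (t - c)]
      exact Real.log_le_log hpos (abs_le.2 ⟨hm.1.le, hm.2⟩)
    · rw [indicator_of_notMem hm]
      refine (max_eq_right ?_).symm
      rw [sub_nonpos, ← Real.log_abs (t - c)]
      refine Real.log_le_log hB0 ?_
      by_contra hlt
      rw [not_le, abs_lt] at hlt
      exact hm ⟨hlt.1, hlt.2.le⟩
  refine ⟨(h2.comp_sub_right c).congr hae, ?_⟩
  rw [← integral_congr_ae hae, integral_sub_right_eq_self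
    (fun s => (Ioc (-B) B).indicator (fun s : ℝ => Real.log B - Real.log s) s) c, h3, hB]
  ring

end Pool.Agent.H.MP_215299_an.CC
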