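import Pool.Agent.H.MP_215299_an.CC.GbA
import Pool.Agent.H.MP_215299_an.CC.GbB1

/-!
CC, module GbB2: integrals of the Green function along the real line.
-/

set_option autoImplicit false

open Complex Metric Set MeasureTheory Filter Topology
open scoped ComplexConjugate

namespace Pool.Agent.H.MP_215299_an.CC

variable {f F : ℂ → ℂ}

/-- Measurability in `t`. PROOF: `E` is measurable (compact), `F` is continuous on the image, so the integrand is continuous on `E` off
the point `w`. -/
theorem Uni.gr_meas (h : Uni f F) {E : Set ℝ} (hE : Cp f E) {w : ℂ} (hw : w ∈ Om f) :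
    AEStronglyMeasurable (fun t => gr F w t) (volume.restrict E) := by
  have hE' : MeasurableSet (E \ {w.re}) := hE.cpt.measurableSet.diff (measurableSet_singleton _)
  have h1 : ContinuousOn (fun t : ℝ => gr F w t) (E \ {w.re}) := by
    intro t ht
    have hne : w ≠ (t : ℂ) := by
      intro hh
      apply ht.2
      rw [hh]
      simp
    have h2 := h.gr_cont hw (hE.sub t ht.1) hne
    have h3 : ContinuousAt (fun s : ℝ => ((w, s) : ℂ × ℝ)) t := by fun_prop
    exact (ContinuousAt.comp (f := fun s : ℝ => ((w, s) : ℂ × ℝ)) (x := t) h2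
      h3).continuousWithinAt
  have h4 : (volume : Measure ℝ).restrict E = (volume : Measure ℝ).restrict (E \ {w.re}) :=
    (Measure.restrict_congr_set (sdiff_null_ae_eq_self (measure_singleton _))).symm
  rw [h4]
  exact h1.aestronglyMeasurable hE'

/-- PROOF: `Uni.gr_le` with `dd f t ≤ D` on `E`, `|w.re - t| ≤ ‖w - t‖`, `dd f t ≥ d₀ > 0` on `E`, `log_int` with `k = 0`. -/
theorem Uni.gr_int (h : Uni f F) {E : Set ℝ} (hE : Cp f E) {w : ℂ} (hw : w ∈ Om f) :
    IntegrableOn (fun t => gr F w t / dd f t) E := by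
  rcases E.eq_empty_or_nonempty with hemp | hne
  · rw [hemp]
    exact integrableOn_empty
  have hc : ContinuousOn (fun t : ℝ => dd f t) E :=
    ((dd_cont f).comp continuous_ofReal).continuousOn
  obtain ⟨t₁, ht₁, hmin⟩ := hE.cpt.exists_isMinOn hne hc
  obtain ⟨t₂, ht₂, hmax⟩ := hE.cpt.exists_isMaxOn hne hc
  have hd0 : 0 < dd f t₁ := h.dd_pos (hE.sub _ ht₁)
  have hD0 : 0 < dd f t₂ := h.dd_pos (hE.sub _ ht₂)
  set d₀ := dd f t₁
  set D := dd f t₂
  have hfin : volume E ≠ ⊤ := hE.cpt.measure_lt_top.ne
  have hI := (log_int (A := 128 * D) (k := 0) (by positivity) w.re).1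
  have hg : IntegrableOn (fun t : ℝ =>
      (Real.log 2 + max (Real.log (128 * D / |t - w.re|) - 0) 0) / d₀) E := by
    apply Integrable.div_const
    exact (integrableOn_const hfin).add hI.integrableOn
  have hpos : ∀ t ∈ E, 0 < dd f t := fun t ht => h.dd_pos (hE.sub t ht)
  refine Integrable.mono' hg ?_ ?_
  · have h1 : ContinuousOn (fun t : ℝ => (dd f t)⁻¹) E := hc.inv₀ fun t ht => (hpos t ht).ne'
    have h2 := (h.gr_meas hE hw).mul (h1.aestronglyMeasurable hE.cpt.measurableSet)
    exact h2
  · have hne : ∀ᵐ t : ℝ, t ≠ w.re := by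
      rw [ae_iff]
      simp
    rw [ae_restrict_iff' hE.cpt.measurableSet]
    filter_upwards [hne] with t htn htE
    have hwt : w ≠ (t : ℂ) := by
      intro hh
      apply htn
      rw [hh]
      simp
    have ht := hE.sub t htE
    have hdt := hpos t htE
    have h0 := h.gr_nonneg hw ht
    have h1 := h.gr_le hw ht hwt
    have hab : 0 < |t - w.re| := abs_pos.2 (sub_ne_zero.2 htn)
    have hle : |t - w.re| ≤ ‖w - t‖ := by
      have h2 := Complex.abs_re_le_norm (w - t)
      rw [Complex.sub_re, Complex.ofReal_re, abs_sub_comm] at h2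
      exact h2
    have hdD : dd f t ≤ D := hmax htE
    have hdd : d₀ ≤ dd f t := hmin htE
    have hl2 : 0 ≤ Real.log 2 := Real.log_nonneg (by norm_num)
    have hq : Real.log (128 * dd f t / ‖w - t‖) ≤ Real.log (128 * D / |t - w.re|) := by
      apply Real.log_le_log
      · have : 0 < ‖w - t‖ := hab.trans_le hle
        positivity
      · gcongr
    have h3 : gr F w t ≤ Real.log 2 + max (Real.log (128 * D / |t - w.re|) - 0) 0 := by
      refine h1.trans (max_le ?_ ?_)
      · linarith [le_max_right (Real.log (128 * D / |t - w.re|) - 0) 0]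
      · linarith [le_max_left (Real.log (128 * D / |t - w.re|) - 0) 0]
    rw [Real.norm_of_nonneg (div_nonneg h0 hdt.le)]
    have h4 : 0 ≤ Real.log 2 + max (Real.log (128 * D / |t - w.re|) - 0) 0 := h0.trans h3
    exact div_le_div₀ h4 h3 hd0 hdd

end Pool.Agent.H.MP_215299_an.CC
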