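import Pool.Agent.H.MP_215299_an.CC.GbB2

/-!
CC, module GbB3: integrals of the Green function along the real line.
-/

set_option autoImplicit false

open Complex Metric Set MeasureTheory Filter Topology
open scoped ComplexConjugate

namespace Pool.Agent.H.MP_215299_an.CC

variable {f F : ℂ → ℂ}

/-- PROOF: for `k ≥ log 2`, `max (gr F w t - k) 0 ≤ max (log (128 D / |t - w.re|) - k) 0`, and `log_int`. -/
theorem Uni.tail (h : Uni f F) {E : Set ℝ} (hE : Cp f E) {ε : ℝ} (hε : 0 < ε) :
    ∃ k : ℝ, 0 < k ∧ ∀ w ∈ Om f, ∫ t in E, max (gr F w t - k) 0 / dd f t ≤ ε := by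
  rcases E.eq_empty_or_nonempty with rfl | hne
  · refine ⟨1, one_pos, fun w _ => ?_⟩
    rw [Measure.restrict_empty, integral_zero_measure]
    exact hε.le
  have hcont : ContinuousOn (fun t : ℝ => dd f (t : ℂ)) E :=
    ((dd_cont f).comp Complex.continuous_ofReal).continuousOn
  obtain ⟨t₀, ht₀, hmin⟩ := hE.cpt.exists_isMinOn hne hcont
  obtain ⟨t₁, ht₁, hmax⟩ := hE.cpt.exists_isMaxOn hne hcont
  have hd₀ : 0 < dd f t₀ := h.dd_pos (hE.sub t₀ ht₀)
  have hD : 0 < dd f t₁ := h.dd_pos (hE.sub t₁ ht₁)
  set d₀ := dd f (t₀ : ℂ) with hd₀'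
  set D := dd f (t₁ : ℂ) with hD'
  have hq : 0 < 256 * D / (d₀ * ε) := by positivity
  set k : ℝ := max (Real.log 2) (Real.log (256 * D / (d₀ * ε))) with hk
  have hk2 : Real.log 2 ≤ k := le_max_left _ _
  have hk0 : 0 < k := lt_of_lt_of_le (Real.log_pos one_lt_two) hk2
  refine ⟨k, hk0, fun w hw => ?_⟩
  obtain ⟨hi, hv⟩ := log_int (A := 128 * D) (k := k) (by positivity) w.re
  have hEm : MeasurableSet E := hE.cpt.measurableSet
  have hae : ∀ᵐ t ∂(volume.restrict E), max (gr F w t - k) 0 / dd f t ≤
      (1 / d₀) * max (Real.log (128 * D / |t - w.re|) - k) 0 := by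
    have h1 : ∀ᵐ t ∂(volume.restrict E), t ≠ w.re := by
      refine ae_restrict_of_ae ?_
      exact Measure.ae_ne volume w.re
    filter_upwards [h1, ae_restrict_mem hEm] with t ht htE
    have hdt : d₀ ≤ dd f t := hmin htE
    have hdt' : dd f t ≤ D := hmax htE
    have hdpos : 0 < dd f (t : ℂ) := lt_of_lt_of_le hd₀ hdt
    have hne' : w ≠ t := by
      intro e
      apply ht
      rw [e]
      simp
    have habs : 0 < |t - w.re| := abs_pos.2 (sub_ne_zero.2 ht)
    have hle : |t - w.re| ≤ ‖w - t‖ := by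
      have := Complex.abs_re_le_norm (w - t)
      rw [Complex.sub_re, Complex.ofReal_re] at this
      rwa [abs_sub_comm]
    have hg := h.gr_le hw (hE.sub t htE) hne'
    have hlog : Real.log (128 * dd f t / ‖w - t‖) ≤ Real.log (128 * D / |t - w.re|) := by
      apply Real.log_le_log
      · have : 0 < ‖w - t‖ := lt_of_lt_of_le habs hle
        positivity
      · gcongr
    have hm : max (gr F w t - k) 0 ≤ max (Real.log (128 * D / |t - w.re|) - k) 0 := by
      apply max_le _ (le_max_right _ _)
      rcases le_total (Real.log 2) (Real.log (128 * dd f t / ‖w - t‖)) with h3 | h3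
      · rw [max_eq_right h3] at hg
        exact le_max_of_le_left (by linarith)
      · rw [max_eq_left h3] at hg
        exact le_max_of_le_right (by linarith)
    have hm0 : 0 ≤ max (gr F w t - k) 0 := le_max_right _ _
    calc max (gr F w t - k) 0 / dd f t ≤ max (gr F w t - k) 0 / d₀ :=
          div_le_div_of_nonneg_left hm0 hd₀ hdt
      _ = (1 / d₀) * max (gr F w t - k) 0 := by ring
      _ ≤ _ := mul_le_mul_of_nonneg_left hm (by positivity)
  have hnn : ∀ᵐ t ∂(volume.restrict E), (0 : ℝ) ≤ max (gr F w t - k) 0 / dd f t :=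
    Eventually.of_forall fun t => div_nonneg (le_max_right _ _) (dd_nonneg f _)
  calc ∫ t in E, max (gr F w t - k) 0 / dd f t
      ≤ ∫ t in E, (1 / d₀) * max (Real.log (128 * D / |t - w.re|) - k) 0 :=
        integral_mono_of_nonneg hnn ((hi.const_mul (1 / d₀)).integrableOn) hae
    _ = (1 / d₀) * ∫ t in E, max (Real.log (128 * D / |t - w.re|) - k) 0 := integral_const_mul _ _
    _ ≤ (1 / d₀) * ∫ t : ℝ, max (Real.log (128 * D / |t - w.re|) - k) 0 := by
        refine mul_le_mul_of_nonneg_left ?_ (by positivity)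
        exact setIntegral_le_integral hi (Eventually.of_forall fun t => le_max_right _ _)
    _ = (1 / d₀) * (2 * (128 * D) * Real.exp (-k)) := by rw [hv]
    _ ≤ (1 / d₀) * (2 * (128 * D) * (d₀ * ε / (256 * D))) := by
        refine mul_le_mul_of_nonneg_left ?_ (by positivity)
        refine mul_le_mul_of_nonneg_left ?_ (by positivity)
        have h1 : Real.exp (-k) ≤ Real.exp (-Real.log (256 * D / (d₀ * ε))) :=
          Real.exp_le_exp.2 (neg_le_neg (le_max_right _ _))
        rw [Real.exp_neg (Real.log _), Real.exp_log hq, inv_div] at h1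
        exact h1
    _ = ε := by
        field_simp
        norm_num

end Pool.Agent.H.MP_215299_an.CC
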