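import Pool.Agent.H.MP_215299_an.CC.GbB

/-!
CC, module GbC: the near part of the potential.
-/

set_option autoImplicit false

open Complex Metric Set MeasureTheory Filter Topology
open scoped ComplexConjugate

namespace Pool.Agent.H.MP_215299_an.CC

variable {f F : ℂ → ℂ}

/-- PROOF: `δ = dd f x`. For `|t - x| < δ / 2`: `δ / 2 ≤ dd f t ≤ 3 δ / 2` (`dd_lip`), so by `Uni.gr_le`
`gr F x t / dd f t ≤ (2 / δ) (log 2 + log (192 δ / |t - x|))`, and `∫_{|s| < δ/2} log (192 δ / |s|) ds = δ (log 384 + 1)`. In total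
`≤ 2 log 2 + 2 (log 384 + 1) < 2 + 14 ≤ 20` (`384 < e^6`). -/
theorem Uni.near_le (h : Uni f F) {E : Set ℝ} (hE : Cp f E) {x : ℝ} (hx : (x : ℂ) ∈ Om f) :
    ∫ t in E ∩ Ioo (x - dd f x / 2) (x + dd f x / 2), gr F x t / dd f t ≤ 20 := by
  set δ := dd f x with hδ
  have hδ0 : 0 < δ := h.dd_pos hx
  set S : Set ℝ := E ∩ Ioo (x - δ / 2) (x + δ / 2) with hS
  have hSm : MeasurableSet S := hE.cpt.measurableSet.inter measurableSet_Ioo
  set k : ℝ := Real.log 384 with hk
  have hk0 : 0 < k := Real.log_pos (by norm_num)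
  have hk2 : Real.log 2 ≤ k := Real.log_le_log (by norm_num) (by norm_num)
  have hk6 : k ≤ 6 := by
    rw [hk, Real.log_le_iff_le_exp (by norm_num)]
    have h1 : (2.7182818283 : ℝ) ^ 6 ≤ Real.exp 1 ^ 6 :=
      pow_le_pow_left₀ (by norm_num) Real.exp_one_gt_d9.le 6
    have h2 : Real.exp 1 ^ 6 = Real.exp 6 := by
      rw [← Real.exp_nat_mul]
      norm_num
    rw [h2] at h1
    refine le_trans ?_ h1
    norm_num
  have hA : 0 < 192 * δ := by positivity
  obtain ⟨hint, hval⟩ := log_int (k := k) hA x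
  have hval' : ∫ t : ℝ, max (Real.log (192 * δ / |t - x|) - k) 0 = δ := by
    rw [hval, Real.exp_neg, hk, Real.exp_log (by norm_num)]
    ring
  have hvol : volume.real S ≤ δ := by
    have h1 : volume.real S ≤ volume.real (Ioo (x - δ / 2) (x + δ / 2)) :=
      measureReal_mono inter_subset_right (by simp)
    rw [Real.volume_real_Ioo_of_le (by linarith)] at h1
    linarith
  have hvolS : volume S ≠ ⊤ :=
    ne_top_of_le_ne_top (by simp) (measure_mono (inter_subset_right : S ⊆ Ioo (x - δ / 2) (x + δ / 2)))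
  -- the pointwise bound
  have hpt : ∀ t ∈ S, t ≠ x → gr F x t / dd f t ≤
      2 / δ * (k + max (Real.log (192 * δ / |t - x|) - k) 0) := by
    intro t ht htx
    have htE : (t : ℂ) ∈ Om f := hE.sub t ht.1
    have hne : (x : ℂ) ≠ (t : ℂ) := fun h0 => htx (Complex.ofReal_injective h0).symm
    have hn : ‖(x : ℂ) - (t : ℂ)‖ = |t - x| := by
      rw [← Complex.ofReal_sub, Complex.norm_real, Real.norm_eq_abs, abs_sub_comm]
    have habs : |t - x| < δ / 2 := by
      rw [abs_lt]
      exact ⟨by linarith [ht.2.1], by linarith [ht.2.2]⟩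
    have hpos : 0 < |t - x| := abs_pos.2 (sub_ne_zero.2 htx)
    have hl := dd_lip f x t
    rw [hn, ← hδ] at hl
    have hl2 := abs_le.1 hl
    have hd1 : δ / 2 ≤ dd f t := by linarith [hl2.2]
    have hd2 : dd f t ≤ 3 * δ / 2 := by linarith [hl2.1]
    have hd0 : 0 < dd f t := by linarith
    have hg := h.gr_le hx htE hne
    rw [hn] at hg
    have hlog : Real.log (128 * dd f t / |t - x|) ≤ Real.log (192 * δ / |t - x|) := by
      apply Real.log_le_log (by positivity)
      apply div_le_div_of_nonneg_right _ hpos.le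
      linarith
    set mm := max (Real.log (192 * δ / |t - x|) - k) 0 with hmm
    have hmm0 : 0 ≤ mm := le_max_right _ _
    have hmm1 : Real.log (192 * δ / |t - x|) - k ≤ mm := le_max_left _ _
    have hg2 : gr F x t ≤ k + mm := by
      refine hg.trans (max_le (by linarith) (by linarith))
    rw [div_le_iff₀ hd0]
    refine hg2.trans ?_
    have h5 : 2 / δ * (δ / 2) = 1 := by field_simp
    have h6 : 2 / δ * (k + mm) * (δ / 2) = k + mm := by
      rw [mul_right_comm, h5, one_mul]
    calc k + mm = 2 / δ * (k + mm) * (δ / 2) := h6.symm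
      _ ≤ 2 / δ * (k + mm) * dd f t := by
        apply mul_le_mul_of_nonneg_left hd1
        positivity
  have hgi : IntegrableOn (fun t => gr F x t / dd f t) S :=
    (h.gr_int hE hx).mono_set inter_subset_left
  have hci : IntegrableOn (fun _ : ℝ => k) S := integrableOn_const hvolS
  have hmi : IntegrableOn (fun t : ℝ => max (Real.log (192 * δ / |t - x|) - k) 0) S :=
    hint.integrableOn
  have hGi : IntegrableOn (fun t : ℝ =>
      2 / δ * (k + max (Real.log (192 * δ / |t - x|) - k) 0)) S := (hci.add hmi).const_mul _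
  have hae : ∀ᵐ t ∂(volume.restrict S), gr F x t / dd f t ≤
      2 / δ * (k + max (Real.log (192 * δ / |t - x|) - k) 0) := by
    have h1 : ∀ᵐ t ∂(volume : Measure ℝ), t ≠ x := by
      rw [ae_iff]
      simp
    have h2 := ae_restrict_of_ae (s := S) h1
    filter_upwards [h2, ae_restrict_mem hSm] with t h3 h4
    exact hpt t h4 h3
  refine (integral_mono_ae hgi hGi hae).trans ?_
  rw [integral_const_mul, integral_add hci hmi, setIntegral_const, smul_eq_mul]
  have h7 : ∫ t in S, max (Real.log (192 * δ / |t - x|) - k) 0 ≤ δ :=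
    (setIntegral_le_integral hint
      (Filter.Eventually.of_forall fun t => le_max_right _ _)).trans hval'.le
  have h8 : volume.real S * k ≤ δ * k := mul_le_mul_of_nonneg_right hvol hk0.le
  have h9 : 2 / δ * (volume.real S * k + ∫ t in S, max (Real.log (192 * δ / |t - x|) - k) 0) ≤
      2 / δ * (δ * k + δ) := by
    apply mul_le_mul_of_nonneg_left (by linarith)
    positivity
  refine h9.trans ?_
  have h10 : 2 / δ * (δ * k + δ) = 2 * (k + 1) := by
    field_simp
  rw [h10]
  linarith

end Pool.Agent.H.MP_215299_an.CC
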