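import Pool.Agent.H.MP_215299_an.CC.HW1

/-!
CC, module HW2: the uniform bound of the potential (a form of the theorem of Hayman and Wu).
-/

set_option autoImplicit false

open Complex Metric Set MeasureTheory Filter Topology InnerProductSpace
open scoped ComplexConjugate

namespace Pool.Agent.H.MP_215299_an.CC

variable {f F : ℂ → ℂ}

/-- The weak type estimate. PROOF: `V w = 200000 * v (F w) / Λ` is harmonic on the image (`harm_comp`), `V ≥ 200000 ≥ potz` on `E`;
`Uni.compare` at `f 0`, `F (f 0) = 0`. -/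
theorem Uni.weak (h : Uni f F) {E : Set ℝ} (hE : Cp f E) {v : ℂ → ℝ}
    (hv : ∀ z ∈ ball (0 : ℂ) 1, HarmonicAt v z) (hv0 : ∀ z ∈ ball (0 : ℂ) 1, 0 < v z) {Λ : ℝ} (hΛ : 0 < Λ)
    (hEv : ∀ t ∈ E, Λ ≤ v (F t)) : potz f F E (f 0) ≤ 200000 * v 0 / Λ := by
  have h0 : (0 : ℂ) ∈ ball (0 : ℂ) 1 := mem_ball_self one_pos
  have hFm : ∀ w ∈ Om f, F w ∈ ball (0 : ℂ) 1 := fun w hw =>
    mem_ball_zero_iff.2 (h.maps hw).1
  have hV : ∀ w ∈ Om f, HarmonicAt (fun w => (200000 / Λ) * v (F w)) w := by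
    intro w hw
    have h1 : AnalyticAt ℂ F w := h.diffF.analyticAt (h.isOpen.mem_nhds hw)
    have h2 : HarmonicAt (fun z => v (F z)) w := harm_comp h1 (hv _ (hFm w hw))
    have h3 := h2.const_smul (c := 200000 / Λ)
    exact h3
  have h4 := h.compare hE hV (fun w hw => mul_nonneg (by positivity) (hv0 _ (hFm w hw)).le)
    (fun t ht => (h.hw hE t).trans (by
      have h5 := hEv t ht
      rw [div_mul_eq_mul_div, le_div_iff₀ hΛ]
      linarith)) (f 0) (h.mem h0)
  rw [h.inv _ h0] at h4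
  exact h4.trans (le_of_eq (by ring))

end Pool.Agent.H.MP_215299_an.CC
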