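import Pool.Agent.H.MP_215299_an.CC.Sym1
import Pool.Agent.H.MP_215299_an.CC.SmA

/-!
CC, module Sym2: the gain at a real point, general position of the omitted point.
-/

set_option autoImplicit false

open Complex Metric Set MeasureTheory Filter Topology InnerProductSpace
open scoped ComplexConjugate

namespace Pool.Agent.H.MP_215299_an.CC

/-- Reflection in the real line. PROOF: `gain1` for `u (conj w)`, `σ' w = conj (σ (conj w))`. -/
theorem gain2 {Ω : Set ℂ} {u : ℂ → ℝ} {M x δ : ℝ} {ζ : ℂ} (hΩ : IsOpen Ω) (hu : Continuous u)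
    (hu0 : ∀ w, w ∉ Ω → u w = 0) (hp : ∀ w, 0 ≤ u w) (hM : ∀ w, u w ≤ M)
    (hh : ∀ w ∈ Ω, w.im ≠ 0 → HarmonicAt u w)
    (hσ : ∃ σ : ℂ → ℂ, ContinuousOn σ Ω ∧ ∀ w ∈ Ω, σ w ^ 2 = w - ζ) (hδ : 0 < δ)
    (hd : ‖ζ - x‖ = δ) (hb : ball (x : ℂ) δ ⊆ Ω) (h2 : ζ.re ≤ x) :
    u (x + (1 + I) * δ / 8) + u (x + (1 - I) * δ / 8) ≤ (2 - 1 / 1000) * M := by
  rcases le_total 0 ζ.im with h1 | h1
  · exact gain1 hΩ hu hu0 hp hM hh hσ hδ hd hb h1 h2
  obtain ⟨σ, hσc, hσ2⟩ := hσ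
  have hcc : Continuous (fun w : ℂ => conj w) := Complex.continuous_conj
  have hd' : ‖conj ζ - (x : ℂ)‖ = δ := by
    rw [← hd, ← Complex.norm_conj (ζ - x), map_sub, Complex.conj_ofReal]
  have hb' : ball (x : ℂ) δ ⊆ (fun w : ℂ => conj w) ⁻¹' Ω := by
    intro w hw
    refine hb ?_
    rw [mem_ball, dist_eq_norm] at hw ⊢
    rw [← Complex.norm_conj (conj w - x), map_sub, Complex.conj_conj, Complex.conj_ofReal]
    exact hw
  have key := gain1 (Ω := (fun w : ℂ => conj w) ⁻¹' Ω) (u := fun w => u (conj w)) (M := M)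
    (x := x) (δ := δ) (ζ := conj ζ) (hΩ.preimage hcc) (hu.comp hcc)
    (fun w hw => hu0 _ hw) (fun w => hp _) (fun w => hM _)
    (fun w hw hw0 => harm_conj (hh _ hw (by rw [Complex.conj_im]; exact neg_ne_zero.2 hw0)))
    ⟨fun w => conj (σ (conj w)), hcc.comp_continuousOn (hσc.comp hcc.continuousOn
      (fun w hw => hw)), fun w hw => by
        rw [← map_pow, hσ2 _ hw, map_sub, Complex.conj_conj]⟩ hδ hd' hb'
    (by rw [Complex.conj_im]; linarith) (by rw [Complex.conj_re]; exact h2)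
  have e1 : conj ((x : ℂ) + (1 + I) * δ / 8) = x + (1 - I) * δ / 8 := by
    rw [map_add, map_div₀, map_mul, map_add, map_one, Complex.conj_I, Complex.conj_ofReal,
      Complex.conj_ofReal, map_ofNat, ← sub_eq_add_neg]
  have e2 : conj ((x : ℂ) + (1 - I) * δ / 8) = x + (1 + I) * δ / 8 := by
    rw [map_add, map_div₀, map_mul, map_sub, map_one, Complex.conj_I, Complex.conj_ofReal,
      Complex.conj_ofReal, map_ofNat, sub_neg_eq_add]
  have key' : u (conj ((x : ℂ) + (1 + I) * δ / 8)) + u (conj ((x : ℂ) + (1 - I) * δ / 8)) ≤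
    (2 - 1 / 1000) * M := key
  rw [e1, e2, add_comm] at key'
  exact key'

end Pool.Agent.H.MP_215299_an.CC
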