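import Pool.Agent.H.MP_215299_an.CC.Sym2

/-!
CC, module Sym3: the gain at a real point, general position of the omitted point.
-/

set_option autoImplicit false

open Complex Metric Set MeasureTheory Filter Topology InnerProductSpace
open scoped ComplexConjugate

namespace Pool.Agent.H.MP_215299_an.CC

/-- Reflection in the vertical line through `x`. PROOF: `gain2` for `u (2x - conj w)`, `σ' w = i conj (σ (2x - conj w))`. -/
theorem gain3 {Ω : Set ℂ} {u : ℂ → ℝ} {M x δ : ℝ} {ζ : ℂ} (hΩ : IsOpen Ω) (hu : Continuous u)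
    (hu0 : ∀ w, w ∉ Ω → u w = 0) (hp : ∀ w, 0 ≤ u w) (hM : ∀ w, u w ≤ M)
    (hh : ∀ w ∈ Ω, w.im ≠ 0 → HarmonicAt u w)
    (hσ : ∃ σ : ℂ → ℂ, ContinuousOn σ Ω ∧ ∀ w ∈ Ω, σ w ^ 2 = w - ζ) (hδ : 0 < δ)
    (hd : ‖ζ - x‖ = δ) (hb : ball (x : ℂ) δ ⊆ Ω) (h2 : x ≤ ζ.re) :
    u (x + (-1 + I) * δ / 8) + u (x + (-1 - I) * δ / 8) ≤ (2 - 1 / 1000) * M := by
  obtain ⟨σ, hσc, hσ2⟩ := hσ
  obtain ⟨R, hR⟩ : ∃ R : ℂ → ℂ, R = fun w => 2 * (x : ℂ) - conj w := ⟨_, rfl⟩
  have hRa : ∀ w, R w = 2 * (x : ℂ) - conj w := fun w => by rw [hR]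
  have hRc : Continuous R := by
    rw [hR]
    exact continuous_const.sub Complex.continuous_conj
  have hRn : ∀ w, ‖R w - x‖ = ‖w - x‖ := by
    intro w
    have h1 : R w - x = -(conj (w - x)) := by
      rw [hRa, map_sub, Complex.conj_ofReal]
      ring
    rw [h1, norm_neg, RCLike.norm_conj]
  have key := gain2 (Ω := R ⁻¹' Ω) (u := fun w => u (R w)) (M := M) (x := x) (δ := δ) (ζ := R ζ)
    (hΩ.preimage hRc) (hu.comp hRc) (fun w hw => hu0 _ hw) (fun w => hp _) (fun w => hM _)
    (by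
      intro w hw hwi
      have h1 : (R w).im ≠ 0 := by
        rw [hRa]
        simpa using hwi
      have h3 : HarmonicAt (fun z => u (2 * (x : ℂ) - z)) (conj w) := by
        refine harm_comp (g := fun z => 2 * (x : ℂ) - z) (analyticAt_const.sub analyticAt_id) ?_
        have h4 := hh (R w) hw h1
        rw [hRa] at h4
        exact h4
      have h5 := harm_conj h3
      have h6 : (fun w => u (R w)) = fun z => u (2 * (x : ℂ) - conj z) := by
        funext z
        rw [hRa]
      rw [h6]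
      exact h5)
    ⟨fun w => I * conj (σ (R w)), by
      refine continuousOn_const.mul (Complex.continuous_conj.comp_continuousOn ?_)
      exact hσc.comp hRc.continuousOn (fun w hw => hw), by
      intro w hw
      rw [mul_pow, I_sq, ← map_pow, hσ2 (R w) hw, hRa, hRa, map_sub, map_sub, Complex.conj_conj,
        map_mul, Complex.conj_ofReal, map_ofNat]
      ring⟩ hδ (by rw [hRn, hd])
    (by
      intro w hw
      refine hb ?_
      rw [mem_ball_iff_norm] at hw ⊢
      rw [hRn]
      exact hw)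
    (by
      rw [hRa]
      have h1 : (2 * (x : ℂ) - conj ζ).re = 2 * x - ζ.re := by simp
      rw [h1]
      linarith)
  have e1 : R (x + (1 + I) * δ / 8) = x + (-1 + I) * δ / 8 := by
    rw [hRa]
    simp only [map_add, map_mul, map_div₀, map_one, Complex.conj_ofReal, conj_I, map_ofNat]
    ring
  have e2 : R (x + (1 - I) * δ / 8) = x + (-1 - I) * δ / 8 := by
    rw [hRa]
    simp only [map_add, map_sub, map_mul, map_div₀, map_one, Complex.conj_ofReal, conj_I, map_ofNat]
    ring
  simp only [e1, e2] at key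
  exact key

end Pool.Agent.H.MP_215299_an.CC
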