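import Pool.Agent.H.MP_215299_an.CC.Sym3
import Pool.Agent.H.MP_215299_an.CC.Hk

/-!
CC, module Sym4: the gain at a real point, general position of the omitted point.
-/

set_option autoImplicit false

open Complex Metric Set MeasureTheory Filter Topology InnerProductSpace
open scoped ComplexConjugate

namespace Pool.Agent.H.MP_215299_an.CC

private theorem Sym4_aux {u : ℂ → ℝ} {M x δ : ℝ} (hh : ∀ z ∈ ball (x : ℂ) (δ / 2), HarmonicAt u z)
    (hM : ∀ w, u w ≤ M) (hδ : 0 < δ) {a : ℂ} (ha : ‖a‖ ^ 2 = δ ^ 2 / 32) :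
    47 / 100 * (M - u (x + a)) ≤ M - u x := by
  have hn := norm_nonneg a
  have h1 : ‖a‖ ≤ 177 / 1000 * δ := by
    by_contra h
    push Not at h
    nlinarith
  have hw : (x : ℂ) + a ∈ ball (x : ℂ) (δ / 2) := by
    rw [mem_ball_iff_norm, add_sub_cancel_left]
    linarith
  have h2 := (harnack (h := fun w => M - u w) (fun z hz => (harmonicAt_const M).sub (hh z hz))
    (fun z _ => sub_nonneg.mpr (hM z)) hw).1
  rw [add_sub_cancel_left] at h2
  have h3 : 47 / 100 ≤ (δ / 2 - ‖a‖) / (δ / 2 + ‖a‖) := by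
    rw [le_div_iff₀ (by positivity)]
    linarith
  exact (mul_le_mul_of_nonneg_right h3 (sub_nonneg.mpr (hM _))).trans h2

/-- PROOF: `M - u` is harmonic and `≥ 0` on `ball x (δ/2)`; the points `x + (±1 ± i) δ / 8` have distance `√2 δ / 8 < 0.177 δ` from `x`, so
by `harnack` `M - u x ≥ 0.47 (M - u w₀)` for each of them; add the two inequalities: `2 (M - u x) ≥ 0.47 M / 1000`. -/
theorem gain {Ω : Set ℂ} {u : ℂ → ℝ} {M x δ : ℝ} {ζ : ℂ} (hΩ : IsOpen Ω) (hu : Continuous u)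
    (hu0 : ∀ w, w ∉ Ω → u w = 0) (hp : ∀ w, 0 ≤ u w) (hM : ∀ w, u w ≤ M)
    (hh : ∀ w ∈ Ω, (w.im ≠ 0 ∨ |w.re - x| < δ / 2) → HarmonicAt u w)
    (hσ : ∃ σ : ℂ → ℂ, ContinuousOn σ Ω ∧ ∀ w ∈ Ω, σ w ^ 2 = w - ζ) (hδ : 0 < δ)
    (hd : ‖ζ - x‖ = δ) (hb : ball (x : ℂ) δ ⊆ Ω) : u x ≤ (1 - 1 / 10000) * M := by
  have h0 : 0 ≤ M := (hp 0).trans (hM 0)
  have hball : ∀ z ∈ ball (x : ℂ) (δ / 2), HarmonicAt u z := by
    intro z hz
    have hz1 : ‖z - x‖ < δ / 2 := mem_ball_iff_norm.mp hz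
    refine hh z (hb (ball_subset_ball (by linarith) hz)) (Or.inr ?_)
    have hz2 := Complex.abs_re_le_norm (z - x)
    rw [Complex.sub_re, Complex.ofReal_re] at hz2
    linarith
  have hh' : ∀ w ∈ Ω, w.im ≠ 0 → HarmonicAt u w := fun w hw h => hh w hw (Or.inl h)
  rcases le_total ζ.re x with h2 | h2
  · have h3 := gain2 hΩ hu hu0 hp hM hh' hσ hδ hd hb h2
    have a1 := Sym4_aux hball hM hδ (a := (1 + I) * δ / 8) (by
      rw [Complex.sq_norm, Complex.normSq_apply]; simp; ring)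
    have a2 := Sym4_aux hball hM hδ (a := (1 - I) * δ / 8) (by
      rw [Complex.sq_norm, Complex.normSq_apply]; simp; ring)
    linarith
  · have h3 := gain3 hΩ hu hu0 hp hM hh' hσ hδ hd hb h2
    have a1 := Sym4_aux hball hM hδ (a := (-1 + I) * δ / 8) (by
      rw [Complex.sq_norm, Complex.normSq_apply]; simp; ring)
    have a2 := Sym4_aux hball hM hδ (a := (-1 - I) * δ / 8) (by
      rw [Complex.sq_norm, Complex.normSq_apply]; simp; ring)
    linarith

end Pool.Agent.H.MP_215299_an.CC
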