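import Pool.Agent.H.MP_215299_an.CC.Md
import Pool.Agent.H.MP_215299_an.CC.Sym
import Pool.Agent.H.MP_215299_an.CC.GbC

/-!
CC, module HW1: the uniform bound of the potential (a form of the theorem of Hayman and Wu).
-/

set_option autoImplicit false

open Complex Metric Set MeasureTheory Filter Topology InnerProductSpace
open scoped ComplexConjugate

namespace Pool.Agent.H.MP_215299_an.CC

variable {f F : ℂ → ℂ}

/-- PROOF: `E` empty: `potz = 0`. Let `M = potz f F E x`, `x ∈ E`, be the maximum on `E` (compact, `Uni.potz_cont`), so `potz f F E ≤ M` everywhere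
(`Uni.potz_le`). With `δ = dd f x`, `I = Ioo (x - δ/2) (x + δ/2)`, `E' = E \ I` (compact): `M = near + potz f F E' x ≤ 20 + potz f F E' x`
(`Uni.potz_split`, `Uni.near_le`), `potz f F E' ≤ potz f F E ≤ M`, and `gain` for `u = potz f F E'`, `ζ` from `Uni.near`, `σ` from `Uni.root`, harmonicity
from `Uni.potz_harm`: `M ≤ 20 + (1 - 1/10000) M`. -/
theorem Uni.hw (h : Uni f F) {E : Set ℝ} (hE : Cp f E) (w : ℂ) : potz f F E w ≤ 200000 := by
  rcases E.eq_empty_or_nonempty with rfl | hne
  · have h0 : potz f F ∅ w = 0 := by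
      unfold potz pot
      split
      · rw [Measure.restrict_empty, integral_zero_measure]
      · rfl
    rw [h0]
    norm_num
  · have hc : Continuous fun t : ℝ => potz f F E (t : ℂ) :=
      (h.potz_cont hE).comp Complex.continuous_ofReal
    obtain ⟨x, hx, hmax⟩ := hE.cpt.exists_isMaxOn hne hc.continuousOn
    have hxO : (x : ℂ) ∈ Om f := hE.sub x hx
    have hM0 : 0 ≤ potz f F E x := h.potz_nonneg hE x
    have hle : ∀ w, potz f F E w ≤ potz f F E x := fun w => h.potz_le hE hM0 (fun t ht => hmax ht) w
    have hδ : 0 < dd f x := h.dd_pos hxO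
    have hE' : Cp f (E \ Ioo (x - dd f x / 2) (x + dd f x / 2)) :=
      ⟨hE.cpt.diff isOpen_Ioo, fun t ht => hE.sub t ht.1⟩
    obtain ⟨ζ, hζ, hζd⟩ := h.near (x : ℂ)
    have hg := gain (Ω := Om f) (u := potz f F (E \ Ioo (x - dd f x / 2) (x + dd f x / 2)))
      (M := potz f F E x) (x := x) (δ := dd f x) (ζ := ζ) h.isOpen (h.potz_cont hE')
      (fun w hw => by unfold potz; exact if_neg hw) (fun w => h.potz_nonneg hE' w)
      (fun w => (h.potz_mono hE hE' sdiff_subset w).trans (hle w))
      (fun w hw hwx => by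
        refine h.potz_harm hE' hw fun t ht htw => ?_
        rcases hwx with hwx | hwx
        · exact hwx (by rw [← htw, Complex.ofReal_im])
        · rw [← htw, Complex.ofReal_re, abs_lt] at hwx
          exact ht.2 ⟨by linarith [hwx.1], by linarith [hwx.2]⟩)
      (h.root hζ) hδ hζd (ball_sub f x)
    have hs := h.potz_split hE measurableSet_Ioo hE' hxO
    have hn := h.near_le hE hxO
    have hM := hle w
    linarith


end Pool.Agent.H.MP_215299_an.CC
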