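import Pool.Agent.H.MP_215299_an.CC.HW

/-!
CC, module IntA: the integral over one piece.
-/

set_option autoImplicit false

open Complex Metric Set MeasureTheory Filter Topology InnerProductSpace
open scoped ComplexConjugate ENNReal

namespace Pool.Agent.H.MP_215299_an.CC

variable {f F : ℂ → ℂ}

/-- PROOF: for `t ∈ E`, `(t : ℂ) ≠ f 0`: `‖F' t‖^{1+s} = ‖F' t‖ (‖F' t‖^{s'})^{s/s'} ≤ ((1 - ‖F t‖²)/dd f t) v(F t)^{s/s'} ≤
2 gr F (f 0) t / dd f t * L^{s/s'}` (`Uni.derivF_le`, `Uni.gr_zero`); integrate (`Uni.gr_int`, `ofReal_integral_eq_lintegral_ofReal`). -/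
theorem Uni.piece (h : Uni f F) {E : Set ℝ} (hE : Cp f E) {v : ℂ → ℝ} (hv0 : ∀ z ∈ ball (0 : ℂ) 1, 0 < v z)
    {s s' L : ℝ} (hs : 0 ≤ s) (hs' : s < s') (hL : 0 < L) (hEv : ∀ t ∈ E, v (F t) ≤ L)
    (hd : ∀ t : ℝ, (t : ℂ) ∈ Om f → ‖deriv F t‖ ^ s' ≤ v (F t)) :
    ∫⁻ t in E, ENNReal.ofReal (‖deriv F t‖ ^ (1 + s)) ≤
      ENNReal.ofReal (2 * L ^ (s / s') * potz f F E (f 0)) := by
  have h0 : f 0 ∈ Om f := h.mem (mem_ball_self one_pos)
  have hs0 : 0 < s' := lt_of_le_of_lt hs hs'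
  have hexp : 0 ≤ s / s' := div_nonneg hs hs0.le
  have hc0 : 0 ≤ L ^ (s / s') := Real.rpow_nonneg hL.le _
  have hmeas : MeasurableSet E := hE.cpt.measurableSet
  have hpt : ∀ t ∈ E, (t : ℂ) ≠ f 0 →
      ‖deriv F t‖ ^ (1 + s) ≤ 2 * L ^ (s / s') * (gr F (f 0) t / dd f t) := by
    intro t ht hne
    have htO : (t : ℂ) ∈ Om f := hE.sub t ht
    have hdd : 0 < dd f t := h.dd_pos htO
    have hx : 0 ≤ ‖deriv F t‖ := norm_nonneg _
    have h1 : ‖deriv F t‖ ^ (1 + s) = ‖deriv F t‖ * (‖deriv F t‖ ^ s') ^ (s / s') := by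
      rw [Real.rpow_add_of_nonneg hx zero_le_one hs, Real.rpow_one, ← Real.rpow_mul hx,
        mul_div_cancel₀ s hs0.ne']
    have h2 : (‖deriv F t‖ ^ s') ^ (s / s') ≤ L ^ (s / s') :=
      Real.rpow_le_rpow (Real.rpow_nonneg hx _) ((hd t htO).trans (hEv t ht)) hexp
    have h3 : ‖deriv F t‖ ≤ 2 * (gr F (f 0) t / dd f t) := by
      refine (h.derivF_le htO).trans ?_
      rw [← mul_div_assoc]
      exact div_le_div_of_nonneg_right (h.gr_zero htO hne) hdd.le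
    rw [h1]
    calc ‖deriv F t‖ * (‖deriv F t‖ ^ s') ^ (s / s')
        ≤ 2 * (gr F (f 0) t / dd f t) * L ^ (s / s') :=
          mul_le_mul h3 h2 (Real.rpow_nonneg (Real.rpow_nonneg hx _) _) (hx.trans h3)
      _ = 2 * L ^ (s / s') * (gr F (f 0) t / dd f t) := by ring
  have hint : IntegrableOn (fun t : ℝ => 2 * L ^ (s / s') * (gr F (f 0) t / dd f t)) E :=
    (h.gr_int hE h0).const_mul _
  have hnn : 0 ≤ᵐ[volume.restrict E] fun t : ℝ => 2 * L ^ (s / s') * (gr F (f 0) t / dd f t) := by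
    refine (ae_restrict_iff' hmeas).2 (Eventually.of_forall fun t ht => ?_)
    have htO : (t : ℂ) ∈ Om f := hE.sub t ht
    exact mul_nonneg (mul_nonneg zero_le_two hc0)
      (div_nonneg (h.gr_nonneg h0 htO) (h.dd_pos htO).le)
  have hpot : ∫ t in E, 2 * L ^ (s / s') * (gr F (f 0) t / dd f t) =
      2 * L ^ (s / s') * potz f F E (f 0) := by
    rw [integral_const_mul, potz, if_pos h0, pot]
  rw [← hpot, ofReal_integral_eq_lintegral_ofReal hint hnn]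
  refine lintegral_mono_ae ((ae_restrict_iff' hmeas).2 ?_)
  have hne : ∀ᵐ t : ℝ, t ∉ ({(f 0).re} : Set ℝ) := (countable_singleton _).ae_notMem volume
  filter_upwards [hne] with t ht htE
  refine ENNReal.ofReal_le_ofReal (hpt t htE fun h1 => ht ?_)
  rw [mem_singleton_iff, ← h1, Complex.ofReal_re]

end Pool.Agent.H.MP_215299_an.CC
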