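import Pool.Agent.H.MP_215299_an.CC.IntB1

/-!
CC, module IntB2: the whole integral.
-/

set_option autoImplicit false

open Complex Metric Set MeasureTheory Filter Topology InnerProductSpace
open scoped ComplexConjugate ENNReal

namespace Pool.Agent.H.MP_215299_an.CC

variable {f F : ℂ → ℂ}

/-- PROOF: the sets `E_N = {t | |t| ≤ N ∧ 1/(N+1) ≤ dd f t}` are compact, increasing, with union `{t | (t : ℂ) ∈ Om f}`; monotone
convergence (`lintegral_iUnion_of_directed` or `tendsto_setLIntegral`) and `Uni.cpt_bound`. -/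
theorem Uni.line_int (h : Uni f F) {v : ℂ → ℝ} (hv : ∀ z ∈ ball (0 : ℂ) 1, HarmonicAt v z)
    (hv0 : ∀ z ∈ ball (0 : ℂ) 1, 0 < v z) {s s' : ℝ} (hs : 0 ≤ s) (hs' : s < s')
    (hd : ∀ t : ℝ, (t : ℂ) ∈ Om f → ‖deriv F t‖ ^ s' ≤ v (F t)) :
    ∫⁻ t in {t : ℝ | (t : ℂ) ∈ Om f}, ENNReal.ofReal (‖deriv F t‖ ^ (1 + s)) < ⊤ := by
  obtain ⟨C, hC, hE⟩ := h.cpt_bound hv hv0 hs hs' hd
  set E : ℕ → Set ℝ := fun N => {t : ℝ | |t| ≤ N ∧ 1 / ((N : ℝ) + 1) ≤ dd f (t : ℂ)} with hEd
  have hcpt : ∀ N, Cp f (E N) := by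
    intro N
    refine ⟨?_, ?_⟩
    · refine Metric.isCompact_of_isClosed_isBounded ?_ ?_
      · exact (isClosed_le continuous_abs continuous_const).inter
          (isClosed_le continuous_const ((dd_cont f).comp Complex.continuous_ofReal))
      · refine (Metric.isBounded_closedBall (x := (0 : ℝ)) (r := N)).subset ?_
        intro t ht
        rw [mem_closedBall, Real.dist_eq, sub_zero]
        exact ht.1
    · intro t ht
      by_contra hc
      have h0 : dd f (t : ℂ) = 0 := infDist_zero_of_mem hc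
      have h1 : (0 : ℝ) < 1 / ((N : ℝ) + 1) := by positivity
      have h2 := ht.2
      rw [h0] at h2
      linarith
  have hmono : Monotone E := by
    intro m n hmn t ht
    have hmn' : (m : ℝ) ≤ n := by exact_mod_cast hmn
    refine ⟨ht.1.trans hmn', le_trans ?_ ht.2⟩
    exact one_div_le_one_div_of_le (by positivity) (by linarith)
  have hun : {t : ℝ | (t : ℂ) ∈ Om f} = ⋃ N, E N := by
    ext t
    constructor
    · intro ht
      have hdp : 0 < dd f (t : ℂ) := h.dd_pos ht
      obtain ⟨n, hn⟩ := exists_nat_gt (max |t| (1 / dd f (t : ℂ)))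
      refine mem_iUnion.2 ⟨n, ((le_max_left _ _).trans hn.le), ?_⟩
      have h1 : 1 / dd f (t : ℂ) ≤ (n : ℝ) + 1 := by
        have := (le_max_right |t| (1 / dd f (t : ℂ))).trans hn.le
        linarith
      rw [div_le_iff₀ hdp] at h1
      rw [div_le_iff₀ (by positivity)]
      linarith
    · intro ht
      obtain ⟨n, hn⟩ := mem_iUnion.1 ht
      exact (hcpt n).sub t hn
  rw [hun, setLIntegral_iUnion_of_directed _ hmono.directed_le]
  exact lt_of_le_of_lt (iSup_le fun n => hE (E n) (hcpt n)) hC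

end Pool.Agent.H.MP_215299_an.CC
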