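import Pool.Agent.H.MP_215299_an.CC.IntA

/-!
CC, module IntB1: the whole integral.
-/

set_option autoImplicit false

open Complex Metric Set MeasureTheory Filter Topology InnerProductSpace
open scoped ComplexConjugate ENNReal

namespace Pool.Agent.H.MP_215299_an.CC

variable {f F : ℂ → ℂ}

/-- PROOF: `θ = s/s' < 1`. `E ⊆ {v ∘ F ≤ 1} ∪ ⋃_k {2^k ≤ v ∘ F ≤ 2^{k+1}}`, all closed in `E` (`v ∘ F` is continuous), hence compact. First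
piece: `Uni.piece`, `Uni.hw`: `≤ 2 * 200000`. Piece `k`: `≤ 2 * 2^{(k+1)θ} * 200000 * v 0 / 2^k` (`Uni.weak`). The sum is the geometric series
`≤ 2 * 200000 + 2 * 2^θ * 200000 * v 0 * ∑ 2^{k(θ-1)}`. -/
theorem Uni.cpt_bound (h : Uni f F) {v : ℂ → ℝ} (hv : ∀ z ∈ ball (0 : ℂ) 1, HarmonicAt v z)
    (hv0 : ∀ z ∈ ball (0 : ℂ) 1, 0 < v z) {s s' : ℝ} (hs : 0 ≤ s) (hs' : s < s')
    (hd : ∀ t : ℝ, (t : ℂ) ∈ Om f → ‖deriv F t‖ ^ s' ≤ v (F t)) :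
    ∃ C : ℝ≥0∞, C < ⊤ ∧ ∀ E : Set ℝ, Cp f E → ∫⁻ t in E, ENNReal.ofReal (‖deriv F t‖ ^ (1 + s)) ≤ C := by
  have hs0 : 0 < s' := lt_of_le_of_lt hs hs'
  set θ : ℝ := s / s' with hθ
  have hθ0 : 0 ≤ θ := div_nonneg hs hs0.le
  have hθ1 : θ < 1 := (div_lt_one hs0).2 hs'
  have hv00 : 0 < v 0 := hv0 0 (mem_ball_self one_pos)
  set ρ : ℝ := (2 : ℝ) ^ θ / 2 with hρ
  have h2θ : 0 < (2 : ℝ) ^ θ := Real.rpow_pos_of_pos two_pos _
  have hρ0 : 0 ≤ ρ := by positivity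
  have hρ1 : ρ < 1 := by
    rw [hρ, div_lt_one two_pos]
    calc (2 : ℝ) ^ θ < (2 : ℝ) ^ (1 : ℝ) := Real.rpow_lt_rpow_of_exponent_lt one_lt_two hθ1
      _ = 2 := Real.rpow_one 2
  set c : ℝ := 2 * (2 : ℝ) ^ θ * (200000 * v 0) with hc
  have hc0 : 0 ≤ c := by positivity
  have hsum : Summable fun k : ℕ => c * ρ ^ k := (summable_geometric_of_lt_one hρ0 hρ1).mul_left c
  refine ⟨ENNReal.ofReal (2 * 200000) + ∑' k : ℕ, ENNReal.ofReal (c * ρ ^ k), ?_, ?_⟩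
  · rw [← ENNReal.ofReal_tsum_of_nonneg (fun k => mul_nonneg hc0 (pow_nonneg hρ0 k)) hsum]
    exact ENNReal.add_lt_top.2 ⟨ENNReal.ofReal_lt_top, ENNReal.ofReal_lt_top⟩
  intro E hE
  have hvc : ContinuousOn v (ball (0 : ℂ) 1) := fun z hz =>
    ((hv z hz).1.continuousAt).continuousWithinAt
  have hφ : ContinuousOn (fun t : ℝ => v (F t)) E := by
    have h1 : ContinuousOn (fun t : ℝ => F (t : ℂ)) E :=
      h.diffF.continuousOn.comp Complex.continuous_ofReal.continuousOn fun t ht => hE.sub t ht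
    exact hvc.comp h1 fun t ht => mem_ball_zero_iff.2 (h.maps (hE.sub t ht)).1
  have hEc : IsClosed E := hE.cpt.isClosed
  have hpc : ∀ A : Set ℝ, IsClosed A → Cp f (E ∩ (fun t : ℝ => v (F t)) ⁻¹' A) := fun A hA =>
    ⟨hE.cpt.of_isClosed_subset (hφ.preimage_isClosed_of_isClosed hEc hA) inter_subset_left,
      fun t ht => hE.sub t ht.1⟩
  set E0 : Set ℝ := E ∩ (fun t : ℝ => v (F t)) ⁻¹' Iic 1 with hE0
  set Ek : ℕ → Set ℝ := fun k => E ∩ (fun t : ℝ => v (F t)) ⁻¹' Icc (2 ^ k) (2 ^ (k + 1)) with hEk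
  have hcov : E ⊆ E0 ∪ ⋃ k, Ek k := by
    intro t ht
    rcases le_or_gt (v (F t)) 1 with h1 | h1
    · exact Or.inl ⟨ht, h1⟩
    · obtain ⟨k, hk1, hk2⟩ := exists_nat_pow_near h1.le (one_lt_two : (1 : ℝ) < 2)
      exact Or.inr (mem_iUnion.2 ⟨k, ht, hk1, hk2.le⟩)
  have hp0 : ∫⁻ t in E0, ENNReal.ofReal (‖deriv F t‖ ^ (1 + s)) ≤ ENNReal.ofReal (2 * 200000) := by
    refine (h.piece (hpc _ isClosed_Iic) hv0 hs hs' one_pos (fun t ht => ht.2) hd).trans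
      (ENNReal.ofReal_le_ofReal ?_)
    rw [Real.one_rpow, mul_one]
    exact mul_le_mul_of_nonneg_left (h.hw (hpc _ isClosed_Iic) _) two_pos.le
  have hpk : ∀ k, ∫⁻ t in Ek k, ENNReal.ofReal (‖deriv F t‖ ^ (1 + s)) ≤
      ENNReal.ofReal (c * ρ ^ k) := by
    intro k
    have hL : (0 : ℝ) < 2 ^ (k + 1) := by positivity
    have hΛ : (0 : ℝ) < 2 ^ k := by positivity
    refine (h.piece (hpc _ isClosed_Icc) hv0 hs hs' hL (fun t ht => ht.2.2) hd).trans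
      (ENNReal.ofReal_le_ofReal ?_)
    have hw : potz f F (Ek k) (f 0) ≤ 200000 * v 0 / 2 ^ k :=
      h.weak (hpc (Icc (2 ^ k) (2 ^ (k + 1))) isClosed_Icc) hv hv0 hΛ (fun t ht => ht.2.1)
    have hpos : (0 : ℝ) ≤ 2 * (2 ^ (k + 1)) ^ (s / s') := by positivity
    refine (mul_le_mul_of_nonneg_left hw hpos).trans (le_of_eq ?_)
    have h3 : ((2 : ℝ) ^ (k + 1)) ^ (s / s') = ((2 : ℝ) ^ θ) ^ (k + 1) := by
      rw [← hθ, ← Real.rpow_natCast, ← Real.rpow_natCast, ← Real.rpow_mul two_pos.le,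
        ← Real.rpow_mul two_pos.le, mul_comm]
    rw [h3, hc, hρ, div_pow, pow_succ]
    field_simp
  calc ∫⁻ t in E, ENNReal.ofReal (‖deriv F t‖ ^ (1 + s))
      ≤ ∫⁻ t in E0 ∪ ⋃ k, Ek k, ENNReal.ofReal (‖deriv F t‖ ^ (1 + s)) := lintegral_mono_set hcov
    _ ≤ (∫⁻ t in E0, ENNReal.ofReal (‖deriv F t‖ ^ (1 + s))) +
        ∫⁻ t in ⋃ k, Ek k, ENNReal.ofReal (‖deriv F t‖ ^ (1 + s)) := lintegral_union_le _ _ _
    _ ≤ (∫⁻ t in E0, ENNReal.ofReal (‖deriv F t‖ ^ (1 + s))) +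
        ∑' k, ∫⁻ t in Ek k, ENNReal.ofReal (‖deriv F t‖ ^ (1 + s)) := by
          gcongr
          exact lintegral_iUnion_le _ _
    _ ≤ _ := add_le_add hp0 (ENNReal.tsum_le_tsum hpk)

end Pool.Agent.H.MP_215299_an.CC
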