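import Pool.Agent.H.MP_215299_an.CC.Defs
import Pool.Agent.H.MP_215299_an.KD.Ne
import Pool.Agent.H.MP_215299_an.KD.Grow

/-!
CC, module KaA: elementary facts on univalent functions.
-/

set_option autoImplicit false

open Complex Metric Set MeasureTheory Filter Topology
open scoped ComplexConjugate

namespace Pool.Agent.H.MP_215299_an.CC

variable {f F : ℂ → ℂ}

/-- PROOF: `H65K.isOpen_im`. -/
theorem Uni.isOpen (h : Uni f F) : IsOpen (Om f) :=
  H65K.isOpen_im isOpen_ball h.diff h.inj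

/-- PROOF: otherwise `F` is entire and bounded (`H65K.diff_inv`), so constant by Liouville, but `F (f z) = z`. -/
theorem Uni.compl_ne (h : Uni f F) : ((Om f)ᶜ).Nonempty := by
  by_contra hcon
  rw [Set.not_nonempty_iff_eq_empty, Set.compl_empty_iff] at hcon
  have hd : DifferentiableOn ℂ F (Om f) := H65K.diff_inv isOpen_ball h.diff h.inj h.inv
  rw [hcon, differentiableOn_univ] at hd
  have hb : Bornology.IsBounded (range F) := by
    refine (Metric.isBounded_ball (x := (0 : ℂ)) (r := 1)).subset ?_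
    rintro _ ⟨w, rfl⟩
    have hw : w ∈ Om f := by
      rw [hcon]
      exact mem_univ w
    obtain ⟨z, hz, rfl⟩ := hw
    rw [h.inv z hz]
    exact hz
  have h0 : (0 : ℂ) ∈ ball (0 : ℂ) 1 := mem_ball_self one_pos
  have h1 : (1 / 2 : ℂ) ∈ ball (0 : ℂ) 1 := by
    rw [mem_ball_zero_iff]
    norm_num
  have h2 := hd.apply_eq_apply_of_bounded hb (f 0) (f (1 / 2))
  rw [h.inv _ h0, h.inv _ h1] at h2
  norm_num at h2

theorem Uni.maps (h : Uni f F) {w : ℂ} (hw : w ∈ Om f) : ‖F w‖ < 1 ∧ f (F w) = w := by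
  obtain ⟨z, hz, rfl⟩ := hw
  rw [h.inv z hz]
  exact ⟨mem_ball_zero_iff.1 hz, rfl⟩

/-- PROOF: `H65K.diff_inv`. -/
theorem Uni.diffF (h : Uni f F) : DifferentiableOn ℂ F (Om f) :=
  H65K.diff_inv isOpen_ball h.diff h.inj h.inv

theorem Uni.injF (h : Uni f F) : InjOn F (Om f) := by
  intro a ha b hb hab
  rw [← (h.maps ha).2, hab, (h.maps hb).2]

theorem Uni.mem (h : Uni f F) {z : ℂ} (hz : z ∈ ball (0 : ℂ) 1) : f z ∈ Om f := ⟨z, hz, rfl⟩

end Pool.Agent.H.MP_215299_an.CC
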