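import Pool.Agent.H.MP_215299_an.CC.KaA

/-!
CC, module KaB: elementary facts on univalent functions.
-/

set_option autoImplicit false

open Complex Metric Set MeasureTheory Filter Topology
open scoped ComplexConjugate

namespace Pool.Agent.H.MP_215299_an.CC

variable {f F : ℂ → ℂ}

theorem Uni.dd_pos (h : Uni f F) {w : ℂ} (hw : w ∈ Om f) : 0 < dd f w := by
  have h1 : w ∉ (Om f)ᶜ := fun h2 => h2 hw
  exact ((h.isOpen.isClosed_compl).notMem_iff_infDist_pos h.compl_ne).mp h1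

theorem dd_nonneg (f : ℂ → ℂ) (w : ℂ) : 0 ≤ dd f w := infDist_nonneg

/-- PROOF: `infDist_le_infDist_add_dist` or `continuous_infDist_pt`, `lipschitz_infDist_pt`. -/
theorem dd_lip (f : ℂ → ℂ) (w w' : ℂ) : |dd f w - dd f w'| ≤ ‖w - w'‖ := by
  have h1 : infDist w (Om f)ᶜ ≤ infDist w' (Om f)ᶜ + dist w w' := infDist_le_infDist_add_dist
  have h2 : infDist w' (Om f)ᶜ ≤ infDist w (Om f)ᶜ + dist w' w := infDist_le_infDist_add_dist
  rw [dist_comm w' w] at h2
  rw [← dist_eq_norm, abs_le, dd, dd]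
  constructor <;> linarith

theorem dd_cont (f : ℂ → ℂ) : Continuous (dd f) := continuous_infDist_pt _

/-- PROOF: `ball_infDist_compl_subset`. -/
theorem ball_sub (f : ℂ → ℂ) (w : ℂ) : ball w (dd f w) ⊆ Om f :=
  ball_infDist_compl_subset

/-- PROOF: the complement is closed and nonempty, `IsClosed.exists_infDist_eq_dist`. -/
theorem Uni.near (h : Uni f F) (w : ℂ) : ∃ ζ, ζ ∉ Om f ∧ ‖ζ - w‖ = dd f w := by
  obtain ⟨y, hy, hd⟩ := h.isOpen.isClosed_compl.exists_infDist_eq_dist h.compl_ne w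
  refine ⟨y, hy, ?_⟩
  rw [dd, hd, dist_comm, dist_eq_norm]

end Pool.Agent.H.MP_215299_an.CC
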