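import Pool.Agent.H.MP_215299_an.CC.KaA

/-!
CC, module KaC: elementary facts on univalent functions.
-/

set_option autoImplicit false

open Complex Metric Set MeasureTheory Filter Topology
open scoped ComplexConjugate

namespace Pool.Agent.H.MP_215299_an.CC

variable {f F : ℂ → ℂ}

/-- The compact exhaustion: as `w` tends to a point outside the image, `‖F w‖` tends to `1`.
PROOF: `f '' closedBall 0 r` is compact and contained in `Om f`, so its complement is a neighbourhood of `w₀`; for `w ∈ Om f` in it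
`‖F w‖ > r` (as `f (F w) = w`). -/
theorem Uni.proper (h : Uni f F) {w₀ : ℂ} (hw₀ : w₀ ∉ Om f) {r : ℝ} (hr : r < 1) :
    ∀ᶠ w in 𝓝 w₀, w ∈ Om f → r < ‖F w‖ := by
  have hsub : closedBall (0 : ℂ) r ⊆ ball 0 1 := closedBall_subset_ball hr
  have hc : IsCompact (f '' closedBall 0 r) :=
    (isCompact_closedBall (0 : ℂ) r).image_of_continuousOn (h.diff.continuousOn.mono hsub)
  have h0 : w₀ ∉ f '' closedBall 0 r := fun h1 => hw₀ (image_mono hsub h1)
  filter_upwards [hc.isClosed.isOpen_compl.mem_nhds h0] with w hw hwO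
  obtain ⟨z, hz, rfl⟩ := hwO
  rw [h.inv z hz]
  by_contra hc2
  exact hw ⟨z, by rw [mem_closedBall, dist_zero_right]; exact not_lt.1 hc2, rfl⟩

end Pool.Agent.H.MP_215299_an.CC
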