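import Pool.Agent.H.MP_215299_an.CC.KaA
import Pool.Agent.H.MP_215299_an.KD.Bieb

/-!
CC, module KaD: elementary facts on univalent functions.
-/

set_option autoImplicit false

open Complex Metric Set MeasureTheory Filter Topology
open scoped ComplexConjugate

namespace Pool.Agent.H.MP_215299_an.CC

variable {f F : ℂ → ℂ}

/-- A square root. PROOF: `f z - ζ` has no zero in the disc; a holomorphic function without zeros in the disc is the square of a
holomorphic function (cf. `H65K.Bieb_sqrt` in KD/Bieb, apply it to `(f z - ζ)/(f 0 - ζ)` and multiply by a square root of `f 0 - ζ`);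
compose with `F`. -/
theorem Uni.root (h : Uni f F) {ζ : ℂ} (hζ : ζ ∉ Om f) :
    ∃ σ : ℂ → ℂ, ContinuousOn σ (Om f) ∧ ∀ w ∈ Om f, σ w ^ 2 = w - ζ := by
  have hne : ∀ z ∈ ball (0 : ℂ) 1, f z - ζ ≠ 0 := by
    intro z hz h0
    exact hζ ⟨z, hz, sub_eq_zero.1 h0⟩
  have h0m : (0 : ℂ) ∈ ball (0 : ℂ) 1 := mem_ball_self one_pos
  have ha : f 0 - ζ ≠ 0 := hne 0 h0m
  obtain ⟨s, hs⟩ := IsAlgClosed.exists_pow_nat_eq (f 0 - ζ) (n := 2) two_pos
  obtain ⟨q, hqd, -, hqk⟩ := H65K.Bieb_sqrt (k := fun z => (f z - ζ) / (f 0 - ζ))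
    ((h.diff.sub_const ζ).div_const (f 0 - ζ)) (fun z hz => div_ne_zero (hne z hz) ha) (div_self ha)
  have hF : ∀ w ∈ Om f, F w ∈ ball (0 : ℂ) 1 := fun w hw => mem_ball_zero_iff.2 (h.maps hw).1
  refine ⟨fun w => s * q (F w), ?_, ?_⟩
  · exact continuousOn_const.mul (hqd.continuousOn.comp h.diffF.continuousOn hF)
  · intro w hw
    have h1 := hqk (F w) (hF w hw)
    have h2 : (s * q (F w)) ^ 2 = s ^ 2 * q (F w) ^ 2 := mul_pow _ _ _
    show (s * q (F w)) ^ 2 = w - ζ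
    rw [h2, h1, hs, (h.maps hw).2]
    field_simp

end Pool.Agent.H.MP_215299_an.CC
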