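import Pool.Agent.H.MP_215299_an.CC.KaA
import Pool.Agent.H.MP_215299_an.CC.KaB
import Pool.Agent.H.MP_215299_an.CC.KaC
import Pool.Agent.H.MP_215299_an.CC.KaD
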