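import Pool.Agent.H.MP_215299_an.CC.KbA

/-!
CC, module KbB2: estimates of Schwarz-Pick and Koebe.
-/

set_option autoImplicit false

open Complex Metric Set MeasureTheory Filter Topology
open scoped ComplexConjugate

namespace Pool.Agent.H.MP_215299_an.CC

variable {f F : ℂ → ℂ}

/-- the automorphism of the disc -/
private noncomputable def KbB2_phi (z ζ : ℂ) : ℂ := (ζ + z) / (1 + (starRingEnd ℂ) z * ζ)

private theorem KbB2_den {z ζ : ℂ} (hz : ‖z‖ < 1) (hζ : ‖ζ‖ < 1) :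
    1 + (starRingEnd ℂ) z * ζ ≠ 0 := by
  intro h1
  have h2 : (starRingEnd ℂ) z * ζ = -1 := by linear_combination h1
  have h3 : ‖(starRingEnd ℂ) z * ζ‖ = 1 := by rw [h2, norm_neg, norm_one]
  rw [norm_mul, Complex.norm_conj] at h3
  have h4 := mul_lt_one_of_nonneg_of_lt_one_left (norm_nonneg z) hz hζ.le
  linarith

private theorem KbB2_map {z ζ : ℂ} (hz : ‖z‖ < 1) (hζ : ‖ζ‖ < 1) : ‖KbB2_phi z ζ‖ < 1 := by
  unfold KbB2_phi
  rw [norm_div, div_lt_one (norm_pos_iff.2 (KbB2_den hz hζ))]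
  have h1 : ‖ζ + z‖ ^ 2 < ‖1 + (starRingEnd ℂ) z * ζ‖ ^ 2 := by
    have e1 : ‖1 + (starRingEnd ℂ) z * ζ‖ ^ 2 - ‖ζ + z‖ ^ 2 = (1 - ‖z‖ ^ 2) * (1 - ‖ζ‖ ^ 2) := by
      simp only [← Complex.normSq_eq_norm_sq, Complex.normSq_apply, Complex.add_re,
        Complex.add_im, Complex.mul_re, Complex.mul_im, Complex.conj_re, Complex.conj_im,
        Complex.one_re, Complex.one_im]
      ring
    have h2 : 0 < 1 - ‖z‖ ^ 2 := by nlinarith [norm_nonneg z]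
    have h3 : 0 < 1 - ‖ζ‖ ^ 2 := by nlinarith [norm_nonneg ζ]
    have h4 := mul_pos h2 h3
    linarith
  exact lt_of_pow_lt_pow_left₀ 2 (norm_nonneg _) h1

private theorem KbB2_inj {z ζ ξ : ℂ} (hz : ‖z‖ < 1) (hζ : ‖ζ‖ < 1) (hξ : ‖ξ‖ < 1)
    (h : KbB2_phi z ζ = KbB2_phi z ξ) : ζ = ξ := by
  unfold KbB2_phi at h
  have h1 := (div_eq_div_iff (KbB2_den hz hζ) (KbB2_den hz hξ)).1 h
  have h2 : (1 - z * (starRingEnd ℂ) z) * (ζ - ξ) = 0 := by linear_combination h1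
  rcases mul_eq_zero.1 h2 with h3 | h3
  · exfalso
    rw [Complex.mul_conj, Complex.normSq_eq_norm_sq] at h3
    have h4 : ((1 - ‖z‖ ^ 2 : ℝ) : ℂ) = 0 := by push_cast; exact_mod_cast h3
    have h5 : (1 - ‖z‖ ^ 2 : ℝ) = 0 := by exact_mod_cast h4
    nlinarith [norm_nonneg z]
  · exact sub_eq_zero.1 h3

private theorem KbB2_der {z ζ : ℂ} (hz : ‖z‖ < 1) (hζ : ‖ζ‖ < 1) :
    HasDerivAt (KbB2_phi z) ((1 - z * (starRingEnd ℂ) z) / (1 + (starRingEnd ℂ) z * ζ) ^ 2) ζ := by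
  have h1 := ((hasDerivAt_id ζ).add_const z).div
    (((hasDerivAt_id ζ).const_mul ((starRingEnd ℂ) z)).const_add 1) (KbB2_den hz hζ)
  refine h1.congr_deriv ?_
  congr 1
  simp only [id]
  ring

/-- Growth at any point. -/
private theorem KbB2_growth {h : ℂ → ℂ} (hd : DifferentiableOn ℂ h (ball 0 1))
    (hi : InjOn h (ball 0 1)) {z ζ : ℂ} (hz1 : ‖z‖ < 1) (hζ1 : ‖ζ‖ < 1) :
    ‖h (KbB2_phi z ζ) - h z‖ ≤
      8 * ‖ζ‖ / (1 - ‖ζ‖) ^ 2 * ((1 - ‖z‖ ^ 2) * ‖deriv h z‖) := by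
  have hz : z ∈ ball (0 : ℂ) 1 := by simpa using hz1
  obtain ⟨F, hF⟩ : ∃ F : ℂ → ℂ, ∀ z ∈ ball (0 : ℂ) 1, F (h z) = z :=
    ⟨Function.invFunOn h (ball 0 1), fun z hz => hi.leftInvOn_invFunOn hz⟩
  have hne := (H65K.deriv_inv isOpen_ball hd hi hF hz).1
  obtain ⟨c, hc⟩ : ∃ c : ℂ, c = (1 - z * (starRingEnd ℂ) z) * deriv h z := ⟨_, rfl⟩
  have hcz : (1 - z * (starRingEnd ℂ) z) = ((1 - ‖z‖ ^ 2 : ℝ) : ℂ) := by
    rw [Complex.mul_conj, Complex.normSq_eq_norm_sq]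
    push_cast
    ring
  have hpos : 0 < 1 - ‖z‖ ^ 2 := by nlinarith [norm_nonneg z]
  have hcn : ‖c‖ = (1 - ‖z‖ ^ 2) * ‖deriv h z‖ := by
    rw [hc, norm_mul, hcz, Complex.norm_real, Real.norm_of_nonneg hpos.le]
  have hc0 : c ≠ 0 := by
    rw [← norm_pos_iff, hcn]
    exact mul_pos hpos (norm_pos_iff.2 hne)
  have hphi0 : KbB2_phi z 0 = z := by
    unfold KbB2_phi
    rw [mul_zero, add_zero, div_one, zero_add]
  have hH : H65K.Schl (fun ζ => (h (KbB2_phi z ζ) - h z) / c) := by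
    have hder : ∀ ζ ∈ ball (0 : ℂ) 1, HasDerivAt (fun ζ => (h (KbB2_phi z ζ) - h z) / c)
        (deriv h (KbB2_phi z ζ) *
          ((1 - z * (starRingEnd ℂ) z) / (1 + (starRingEnd ℂ) z * ζ) ^ 2) / c) ζ := by
      intro ζ hζ
      have hζ1 : ‖ζ‖ < 1 := by simpa using hζ
      have h1 : HasDerivAt h (deriv h (KbB2_phi z ζ)) (KbB2_phi z ζ) :=
        (hd.differentiableAt (isOpen_ball.mem_nhds (by simpa using KbB2_map hz1 hζ1))).hasDerivAt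
      exact ((h1.comp ζ (KbB2_der hz1 hζ1)).sub_const (h z)).div_const c
    refine ⟨fun ζ hζ => (hder ζ hζ).differentiableAt.differentiableWithinAt, ?_, ?_, ?_⟩
    · intro a ha b hb hab
      have ha1 : ‖a‖ < 1 := by simpa using ha
      have hb1 : ‖b‖ < 1 := by simpa using hb
      have h1 : h (KbB2_phi z a) - h z = h (KbB2_phi z b) - h z := (div_left_inj' hc0).1 hab
      exact KbB2_inj hz1 ha1 hb1 (hi (by simpa using KbB2_map hz1 ha1)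
        (by simpa using KbB2_map hz1 hb1) (sub_left_injective h1))
    · show (h (KbB2_phi z 0) - h z) / c = 0
      rw [hphi0, sub_self, zero_div]
    · rw [(hder 0 (mem_ball_self one_pos)).deriv, hphi0, mul_zero, add_zero, one_pow, div_one,
        mul_comm, ← hc, div_self hc0]
  have h2 := H65K.growth hH (z := ζ) (by simpa using hζ1)
  have h3 : ‖h (KbB2_phi z ζ) - h z‖ / ‖c‖ ≤ 8 * ‖ζ‖ / (1 - ‖ζ‖) ^ 2 := by
    rw [← norm_div]
    exact h2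
  rw [div_le_iff₀ (norm_pos_iff.2 hc0), hcn] at h3
  exact h3

/-- Koebe. PROOF: with `a = F t`, the function `h z = (f ((z + a) / (1 + conj a * z)) - t) / (f' a (1 - |a|^2))` is a normalised univalent
function (`H65K.Schl`), so `‖h z‖ ≤ 8 ‖z‖ / (1 - ‖z‖)^2` (`H65K.growth`); `(1 - |a|^2) |f' a| ≤ 4 dd f t` (`H65K.shift`). Take `z` with
`‖z‖ = ph (F w) (F t)`, i.e. `z = (F w - a) / (1 - conj a * F w)`. -/
theorem Uni.koebe (h : Uni f F) {w t : ℂ} (hw : w ∈ Om f) (ht : t ∈ Om f)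
    (hp : ph (F w) (F t) ≤ 1 / 2) : ‖w - t‖ ≤ 128 * dd f t * ph (F w) (F t) := by
  obtain ⟨hb1, hb⟩ := h.maps hw
  obtain ⟨ha1, ha⟩ := h.maps ht
  set a : ℂ := F t with hadef
  set b : ℂ := F w with hbdef
  have haa : ‖a‖ ^ 2 < 1 := by nlinarith [norm_nonneg a]
  have hden : (1 : ℂ) - conj a * b ≠ 0 := by
    have h1 := KbB2_den (z := a) (ζ := -b) ha1 (by rwa [norm_neg])
    intro h2
    apply h1
    rw [← h2]
    ring
  set ζ : ℂ := (b - a) / (1 - conj a * b) with hζ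
  have hζn : ‖ζ‖ = ph b a := rfl
  have hζ1 : ‖ζ‖ < 1 := by rw [hζn]; linarith
  have hcz : (1 : ℂ) - a * conj a ≠ 0 := by
    rw [Complex.mul_conj, Complex.normSq_eq_norm_sq]
    intro h2
    have h4 : ((1 - ‖a‖ ^ 2 : ℝ) : ℂ) = 0 := by push_cast; exact_mod_cast h2
    have h5 : (1 - ‖a‖ ^ 2 : ℝ) = 0 := by exact_mod_cast h4
    linarith
  have hphi : KbB2_phi a ζ = b := by
    have hd := KbB2_den ha1 hζ1
    unfold KbB2_phi
    rw [div_eq_iff hd]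
    have e1 : ζ * (1 - conj a * b) = b - a := by rw [hζ, div_mul_cancel₀ _ hden]
    apply mul_right_cancel₀ hden
    linear_combination (1 - b * conj a) * e1
  have h1 := KbB2_growth h.diff h.inj ha1 hζ1
  rw [hphi, hb, ha] at h1
  have h2 := H65K.shift h.diff h.inj (z := a) (by simpa using ha1)
  rw [ha] at h2
  have h3 : (1 - ‖a‖ ^ 2) * ‖deriv f a‖ / 4 ≤ dd f t := by
    unfold dd
    rw [le_infDist h.compl_ne]
    intro y hy
    by_contra hlt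
    push Not at hlt
    exact hy (h2 (by rw [mem_ball, dist_comm]; exact hlt))
  have h4 : 8 * ‖ζ‖ / (1 - ‖ζ‖) ^ 2 ≤ 32 * ‖ζ‖ := by
    have h5 : (1 : ℝ) / 4 ≤ (1 - ‖ζ‖) ^ 2 := by
      rw [hζn]
      nlinarith
    rw [div_le_iff₀ (by linarith)]
    nlinarith [norm_nonneg ζ]
  have h6 : 0 ≤ (1 - ‖a‖ ^ 2) * ‖deriv f a‖ := mul_nonneg (by linarith) (norm_nonneg _)
  calc ‖w - t‖ ≤ 8 * ‖ζ‖ / (1 - ‖ζ‖) ^ 2 * ((1 - ‖a‖ ^ 2) * ‖deriv f a‖) := h1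
    _ ≤ 32 * ‖ζ‖ * ((1 - ‖a‖ ^ 2) * ‖deriv f a‖) := mul_le_mul_of_nonneg_right h4 h6
    _ ≤ 32 * ‖ζ‖ * (4 * dd f t) := by
        refine mul_le_mul_of_nonneg_left (by linarith) (by positivity)
    _ = 128 * dd f t * ph b a := by rw [hζn]; ring

end Pool.Agent.H.MP_215299_an.CC
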