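import Pool.Agent.H.MP_215299_an.CC.KbA

/-!
CC, module KbB1: estimates of Schwarz-Pick and Koebe.
-/

set_option autoImplicit false

open Complex Metric Set MeasureTheory Filter Topology
open scoped ComplexConjugate

namespace Pool.Agent.H.MP_215299_an.CC

variable {f F : ℂ → ℂ}

private theorem KbB1_disc {a ζ : ℂ} (ha : ‖a‖ < 1) (hζ : ‖ζ‖ < 1) :
    1 - (starRingEnd ℂ) a * ζ ≠ 0 ∧ ‖(ζ - a) / (1 - (starRingEnd ℂ) a * ζ)‖ < 1 := by
  have h1 : 1 - (starRingEnd ℂ) a * ζ ≠ 0 := by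
    intro h
    have h2 : (starRingEnd ℂ) a * ζ = 1 := (sub_eq_zero.1 h).symm
    have h3 : ‖(starRingEnd ℂ) a * ζ‖ = 1 := by rw [h2, norm_one]
    rw [norm_mul, RCLike.norm_conj] at h3
    have h4 := norm_nonneg a
    have h5 := norm_nonneg ζ
    nlinarith
  refine ⟨h1, ?_⟩
  rw [norm_div, div_lt_one (norm_pos_iff.2 h1)]
  have h2 : ‖ζ - a‖ ^ 2 < ‖1 - (starRingEnd ℂ) a * ζ‖ ^ 2 := by
    have h3 : ‖1 - (starRingEnd ℂ) a * ζ‖ ^ 2 - ‖ζ - a‖ ^ 2 = (1 - ‖a‖ ^ 2) * (1 - ‖ζ‖ ^ 2) := by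
      rw [← Complex.normSq_eq_norm_sq, ← Complex.normSq_eq_norm_sq, ← Complex.normSq_eq_norm_sq,
        ← Complex.normSq_eq_norm_sq]
      simp only [Complex.normSq_apply, Complex.sub_re, Complex.sub_im, Complex.one_re,
        Complex.one_im, Complex.mul_re, Complex.mul_im, Complex.conj_re, Complex.conj_im]
      ring
    have h4 : 0 < 1 - ‖a‖ ^ 2 := by
      have := norm_nonneg a
      nlinarith
    have h5 : 0 < 1 - ‖ζ‖ ^ 2 := by
      have := norm_nonneg ζ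
      nlinarith
    have h6 := mul_pos h4 h5
    linarith
  exact lt_of_pow_lt_pow_left₀ 2 (norm_nonneg _) h2

/-- Schwarz-Pick. PROOF: as `H65K.geoA` in KD/Geo (there for normalised `f`): `F` maps `ball w (dd f w)` into the unit disc; compose with
the Moebius map which sends `F w` to `0` and use `norm_deriv_le_div_of_mapsTo_ball` (Schwarz). -/
theorem Uni.derivF_le (h : Uni f F) {w : ℂ} (hw : w ∈ Om f) :
    ‖deriv F w‖ ≤ (1 - ‖F w‖ ^ 2) / dd f w := by
  have hd := h.dd_pos hw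
  obtain ⟨o, ho'⟩ : ∃ o : ℝ, o = 1 - ‖F w‖ ^ 2 := ⟨_, rfl⟩
  have ho : 0 < o := by
    have h1 := (h.maps hw).1
    have h2 := norm_nonneg (F w)
    rw [ho']
    nlinarith
  have hsub : ball w (dd f w) ⊆ Om f := ball_sub f w
  have hFd : DifferentiableOn ℂ F (Om f) := h.diffF
  have hFm : ∀ x ∈ Om f, ‖F x‖ < 1 := fun x hx => (h.maps hx).1
  obtain ⟨a, ha⟩ : ∃ a, a = F w := ⟨_, rfl⟩
  have ha1 : ‖a‖ < 1 := by
    rw [ha]
    exact hFm w hw
  have hφd : ∀ ζ : ℂ, ‖ζ‖ < 1 →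
      HasDerivAt (fun ζ : ℂ => (ζ - a) / (1 - (starRingEnd ℂ) a * ζ))
        ((1 * (1 - (starRingEnd ℂ) a * ζ) - (ζ - a) * (-((starRingEnd ℂ) a * 1))) /
          (1 - (starRingEnd ℂ) a * ζ) ^ 2) ζ := by
    intro ζ hζ
    have h1 := (KbB1_disc ha1 hζ).1
    refine HasDerivAt.div ((hasDerivAt_id ζ).sub_const a) ?_ h1
    exact ((hasDerivAt_id ζ).const_mul ((starRingEnd ℂ) a)).const_sub 1
  have hG0 : (F w - a) / (1 - (starRingEnd ℂ) a * F w) = 0 := by
    rw [← ha, sub_self, zero_div]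
  have h1 := Complex.norm_deriv_le_div_of_mapsTo_ball (c := w) (R₁ := dd f w) (R₂ := 1)
    (f := fun x => (F x - a) / (1 - (starRingEnd ℂ) a * F x)) ?_ ?_ hd
  · have hFw : HasDerivAt F (deriv F w) w :=
      (hFd.differentiableAt (h.isOpen.mem_nhds hw)).hasDerivAt
    have h2 := (hφd (F w) (hFm w hw)).comp w hFw
    have h3 : deriv (fun x => (F x - a) / (1 - (starRingEnd ℂ) a * F x)) w =
        (1 * (1 - (starRingEnd ℂ) a * F w) - (F w - a) * (-((starRingEnd ℂ) a * 1))) /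
          (1 - (starRingEnd ℂ) a * F w) ^ 2 * deriv F w := h2.deriv
    have h4 : (1 - (starRingEnd ℂ) a * F w) = ((o : ℝ) : ℂ) := by
      rw [ha, mul_comm, Complex.mul_conj, Complex.normSq_eq_norm_sq, ho']
      push_cast
      ring
    rw [h3, h4, ← ha, sub_self, zero_mul, sub_zero, one_mul] at h1
    have h5 : ((o : ℝ) : ℂ) / ((o : ℝ) : ℂ) ^ 2 = (((o)⁻¹ : ℝ) : ℂ) := by
      have h6 : ((o : ℝ) : ℂ) ≠ 0 := by exact_mod_cast ho.ne'
      push_cast
      field_simp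
    rw [h5, norm_mul, Complex.norm_real, Real.norm_eq_abs, abs_of_pos (inv_pos.2 ho)] at h1
    rw [← ho', le_div_iff₀ hd]
    rw [inv_mul_eq_div, div_le_iff₀ ho, one_div, inv_mul_eq_div, le_div_iff₀ hd] at h1
    exact h1
  · intro x hx
    refine DifferentiableAt.differentiableWithinAt ?_
    have h2 := (hφd (F x) (hFm x (hsub hx))).differentiableAt
    have h3 := hFd.differentiableAt (h.isOpen.mem_nhds (hsub hx))
    exact h2.comp x h3
  · intro x hx
    simp only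
    rw [hG0, mem_closedBall_zero_iff]
    exact (KbB1_disc ha1 (hFm x (hsub hx))).2.le

end Pool.Agent.H.MP_215299_an.CC
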