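import Pool.Agent.H.MP_215299_an.CC.Defs

/-!
CC, module LamA1: the maps `lam`, `sc`, `sd` in the upper half plane.
For `g` in the upper half plane `κ² - g²` lies in the slit plane (`g²` is not a real number `≥ 0`, so `κ² - g²` is not a real number
`≤ κ²`, in particular not `≤ 0`), its square root has positive real part, hence `lam κ g` has positive imaginary part.
-/

set_option autoImplicit false

open Complex Metric Set MeasureTheory Filter Topology
open scoped ComplexConjugate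

namespace Pool.Agent.H.MP_215299_an.CC

private theorem LamA1_sqrt_sq (z : ℂ) : Complex.sqrt z ^ 2 = z := by
  rw [Complex.sqrt]
  simp

private theorem LamA1_sqrt_re {z : ℂ} (hz : z ∈ slitPlane) : 0 < (Complex.sqrt z).re := by
  rw [Complex.sqrt, Complex.cpow_inv_two_re]
  apply Real.sqrt_pos.2
  have h0 : 0 < ‖z‖ + z.re := by
    rcases Complex.mem_slitPlane_iff.1 hz with h | h
    · have := norm_nonneg z
      linarith
    · have h1 := Complex.abs_re_lt_norm.2 h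
      have h2 := neg_abs_le z.re
      linarith
  linarith

private theorem LamA1_slit {κ : ℝ} {g : ℂ} (hg : 0 < g.im) : (κ : ℂ) ^ 2 - g ^ 2 ∈ slitPlane := by
  rw [Complex.mem_slitPlane_iff]
  have hre : ((κ : ℂ) ^ 2 - g ^ 2).re = κ ^ 2 - (g.re ^ 2 - g.im ^ 2) := by
    simp [pow_two]
  have him : ((κ : ℂ) ^ 2 - g ^ 2).im = -(2 * g.re * g.im) := by
    simp [pow_two]
    ring
  rw [hre, him]
  by_cases h : g.re = 0
  · left
    rw [h]
    nlinarith [sq_nonneg κ, mul_pos hg hg]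
  · right
    have h1 : g.re * g.im ≠ 0 := mul_ne_zero h hg.ne'
    intro h2
    apply h1
    linarith

theorem lam_im {κ : ℝ} {g : ℂ} (hg : 0 < g.im) : 0 < (lam κ g).im := by
  have h := LamA1_sqrt_re (LamA1_slit (κ := κ) hg)
  have h1 : (lam κ g).im = (Complex.sqrt ((κ : ℂ) ^ 2 - g ^ 2)).re := by
    simp [lam]
  rw [h1]
  exact h

theorem lam_an {κ : ℝ} {g : ℂ} (hg : 0 < g.im) : AnalyticAt ℂ (lam κ) g := by
  have h1 : AnalyticAt ℂ (fun z : ℂ => (κ : ℂ) ^ 2 - z ^ 2) g := by fun_prop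
  have h2 : AnalyticAt ℂ (fun z : ℂ => ((κ : ℂ) ^ 2 - z ^ 2) ^ (2⁻¹ : ℂ)) g :=
    h1.cpow analyticAt_const (LamA1_slit hg)
  exact analyticAt_const.mul h2

theorem lam_sq (κ : ℝ) (g : ℂ) : lam κ g ^ 2 = g ^ 2 - (κ : ℂ) ^ 2 := by
  rw [lam, mul_pow, LamA1_sqrt_sq, Complex.I_sq]
  ring

private theorem LamA1_add {κ : ℝ} (hκ : 0 ≤ κ) {g : ℂ} (hg : 0 < g.im) :
    0 < (lam κ g + κ * I).im := by
  have h := lam_im (κ := κ) hg
  have h1 : (lam κ g + κ * I).im = (lam κ g).im + κ := by simp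
  rw [h1]
  linarith

private theorem LamA1_ne {κ : ℝ} (hκ : 0 ≤ κ) {g : ℂ} (hg : 0 < g.im) : lam κ g + κ * I ≠ 0 := by
  intro h
  have h1 := LamA1_add hκ hg
  rw [h] at h1
  simp at h1

private theorem LamA1_sqrt_ne {κ : ℝ} (hκ : 0 ≤ κ) {g : ℂ} (hg : 0 < g.im) :
    Complex.sqrt (lam κ g + κ * I) ≠ 0 := by
  intro h
  have h1 := LamA1_sqrt_sq (lam κ g + κ * I)
  rw [h] at h1
  apply LamA1_ne hκ hg
  rw [← h1]
  norm_num

private theorem LamA1_cont {κ : ℝ} (hκ : 0 ≤ κ) {g : ℂ} (hg : 0 < g.im) :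
    ContinuousAt (fun z : ℂ => Complex.sqrt (lam κ z + κ * I)) g := by
  have h1 : ContinuousAt (fun z : ℂ => lam κ z + κ * I) g :=
    (lam_an hg).continuousAt.add continuousAt_const
  exact ContinuousAt.comp (g := Complex.sqrt) (f := fun z : ℂ => lam κ z + κ * I)
    (Complex.continuousAt_sqrt (Or.inr (LamA1_add hκ hg).ne')) h1

/-- PROOF: `(lam - κ i)(lam + κ i) = lam² + κ² = g²`, `lam + κ i ≠ 0`. -/
theorem sc_sq {κ : ℝ} (hκ : 0 ≤ κ) {g : ℂ} (hg : 0 < g.im) :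
    sc κ g ^ 2 = lam κ g - κ * I ∧ sc κ g ≠ 0 ∧ ContinuousAt (sc κ) g := by
  refine ⟨?_, ?_, ?_⟩
  · rw [sc, div_pow, LamA1_sqrt_sq, div_eq_iff (LamA1_ne hκ hg)]
    have h1 := lam_sq κ g
    have h2 : (lam κ g - κ * I) * (lam κ g + κ * I) = lam κ g ^ 2 - (κ : ℂ) ^ 2 * I ^ 2 := by ring
    rw [h2, h1, Complex.I_sq]
    ring
  · refine div_ne_zero ?_ (LamA1_sqrt_ne hκ hg)
    rintro rfl
    simp at hg
  · exact continuousAt_id.div (LamA1_cont hκ hg) (LamA1_sqrt_ne hκ hg)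

/-- PROOF: `conj (lam + κ i) = conj lam - κ i`. -/
theorem sd_sq {κ : ℝ} (hκ : 0 ≤ κ) {g : ℂ} (hg : 0 < g.im) :
    sd κ g ^ 2 = conj (lam κ g) - κ * I ∧ sd κ g ≠ 0 ∧ ContinuousAt (sd κ) g := by
  refine ⟨?_, ?_, ?_⟩
  · rw [sd, ← map_pow, LamA1_sqrt_sq, map_add, map_mul, Complex.conj_I, Complex.conj_ofReal]
    ring
  · rw [sd]
    exact (map_ne_zero _).2 (LamA1_sqrt_ne hκ hg)
  · exact Complex.continuous_conj.continuousAt.comp (LamA1_cont hκ hg)

end Pool.Agent.H.MP_215299_an.CC
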