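import Pool.Agent.H.MP_215299_an.CC.Md1

/-!
CC, module Md2: the potential attains its maximum on `E`; comparison with a positive harmonic function.
-/

set_option autoImplicit false

open Complex Metric Set MeasureTheory Filter Topology InnerProductSpace
open scoped ComplexConjugate

namespace Pool.Agent.H.MP_215299_an.CC

variable {f F : ℂ → ℂ}

private theorem Md2_in {E : Set ℝ} {w : ℂ} (hw : w ∈ Om f) :
    potz f F E w = ∫ t in E, gr F w t / dd f t := by
  unfold potz
  rw [if_pos hw]
  rfl

private theorem Md2_out {E : Set ℝ} {w : ℂ} (hw : w ∉ Om f) : potz f F E w = 0 := by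
  unfold potz
  rw [if_neg hw]

/-- PROOF: `Uni.compare` with the constant function. -/
theorem Uni.potz_le (h : Uni f F) {E : Set ℝ} (hE : Cp f E) {M : ℝ} (hM : 0 ≤ M)
    (hb : ∀ t ∈ E, potz f F E t ≤ M) (w : ℂ) : potz f F E w ≤ M := by
  by_cases hw : w ∈ Om f
  · exact h.compare hE (V := fun _ => M) (fun _ _ => harmonicAt_const M) (fun _ _ => hM) hb w hw
  · rw [Md2_out hw]
    exact hM

/-- Monotonicity and additivity in the set. -/
theorem Uni.potz_split (h : Uni f F) {E A : Set ℝ} (hE : Cp f E) (hA : MeasurableSet A) (hE' : Cp f (E \ A))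
    {w : ℂ} (hw : w ∈ Om f) :
    potz f F E w = (∫ t in E ∩ A, gr F w t / dd f t) + potz f F (E \ A) w := by
  rw [Md2_in hw, Md2_in hw]
  exact (integral_inter_add_sdiff hA (h.gr_int hE hw)).symm

theorem Uni.potz_mono (h : Uni f F) {E E' : Set ℝ} (hE : Cp f E) (hE' : Cp f E') (hs : E' ⊆ E) (w : ℂ) :
    potz f F E' w ≤ potz f F E w := by
  by_cases hw : w ∈ Om f
  · rw [Md2_in hw, Md2_in hw]
    refine setIntegral_mono_set (h.gr_int hE hw) ?_ (Filter.Eventually.of_forall hs)
    refine (ae_restrict_iff' hE.cpt.measurableSet).2 (Filter.Eventually.of_forall fun t ht => ?_)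
    exact div_nonneg (h.gr_nonneg hw (hE.sub t ht)) infDist_nonneg
  · rw [Md2_out hw, Md2_out hw]

end Pool.Agent.H.MP_215299_an.CC
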