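import Pool.Agent.H.MP_215299_an.CC.Pc1

/-!
CC, module Pc2: continuity of the potential.
-/

set_option autoImplicit false

open Complex Metric Set MeasureTheory Filter Topology
open scoped ComplexConjugate

namespace Pool.Agent.H.MP_215299_an.CC

variable {f F : ℂ → ℂ}

private theorem pc2_dd_nonneg (f : ℂ → ℂ) (w : ℂ) : 0 ≤ dd f w := infDist_nonneg

private theorem pc2_max_int (h : Uni f F) {E : Set ℝ} (hE : Cp f E) {w : ℂ} (hw : w ∈ Om f) {k : ℝ}
    (hk : 0 < k) : IntegrableOn (fun t => max (gr F w t - k) 0 / dd f t) E := by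
  have h1 := h.gr_int hE hw
  have h2 := h.gr_meas hE hw
  have h3 : AEStronglyMeasurable (fun t : ℝ => dd f (t : ℂ)) (volume.restrict E) :=
    ((continuous_infDist_pt (Om f)ᶜ).comp Complex.continuous_ofReal).aestronglyMeasurable
  refine Integrable.mono h1 ?_ ?_
  · exact (((h2.sub aestronglyMeasurable_const).sup aestronglyMeasurable_const).aemeasurable.div
      h3.aemeasurable).aestronglyMeasurable
  · refine Eventually.of_forall fun t => ?_
    rw [norm_div, norm_div]
    refine div_le_div_of_nonneg_right ?_ (norm_nonneg _)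
    rw [Real.norm_eq_abs, Real.norm_eq_abs, abs_of_nonneg (le_max_right _ _)]
    refine max_le ?_ (abs_nonneg _)
    have := le_abs_self (gr F w t)
    linarith

/-- PROOF: `pot = ∫ min (gr) k / dd + ∫ max (gr - k) 0 / dd`, uniform limit (`Uni.tail`). -/
theorem Uni.pot_cont (h : Uni f F) {E : Set ℝ} (hE : Cp f E) : ContinuousOn (pot f F E) (Om f) := by
  refine continuousOn_of_uniform_approx_of_continuousOn fun u hu => ?_
  obtain ⟨ε, hε, hεu⟩ := Metric.mem_uniformity_dist.1 hu
  obtain ⟨k, hk, hk1⟩ := h.tail hE (half_pos hε)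
  refine ⟨_, h.trunc_cont hE hk, fun w hw => hεu ?_⟩
  have h1 := h.gr_int hE hw
  have h2 := pc2_max_int h hE hw hk
  have h3 : (fun t : ℝ => min (gr F w t) k / dd f t) =
      fun t : ℝ => gr F w t / dd f t - max (gr F w t - k) 0 / dd f t := by
    funext t
    rw [← sub_div]
    congr 1
    rcases le_total (gr F w t) k with h4 | h4
    · rw [min_eq_left h4, max_eq_right (by linarith), sub_zero]
    · rw [min_eq_right h4, max_eq_left (by linarith)]
      ring
  have h5 : pot f F E w - ∫ t in E, min (gr F w t) k / dd f t =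
      ∫ t in E, max (gr F w t - k) 0 / dd f t := by
    rw [h3, integral_sub h1 h2]
    unfold pot
    ring
  have h6 : 0 ≤ ∫ t in E, max (gr F w t - k) 0 / dd f t :=
    integral_nonneg fun t => div_nonneg (le_max_right _ _) (pc2_dd_nonneg f t)
  rw [Real.dist_eq, h5, abs_of_nonneg h6]
  have := hk1 w hw
  linarith

end Pool.Agent.H.MP_215299_an.CC
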