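import Pool.Agent.H.MP_215299_an.CC.Pc2

/-!
CC, module Pc3: continuity of the potential.
-/

set_option autoImplicit false

open Complex Metric Set MeasureTheory Filter Topology
open scoped ComplexConjugate

namespace Pool.Agent.H.MP_215299_an.CC

variable {f F : ℂ → ℂ}

/-- PROOF: inside `Uni.pot_cont`; at a point outside the image `Uni.proper` and `Uni.gr_bd`: `pot ≤ ε ∫_E dt / dd f t`. -/
theorem Uni.potz_cont (h : Uni f F) {E : Set ℝ} (hE : Cp f E) : Continuous (potz f F E) := by
  have hmeas : MeasurableSet E := hE.cpt.measurableSet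
  have hpos : ∀ t ∈ E, 0 < dd f t := fun t ht => h.dd_pos (hE.sub t ht)
  have hcont : ContinuousOn (fun t : ℝ => 1 / dd f t) E := by
    refine ContinuousOn.div continuousOn_const ?_ fun t ht => (hpos t ht).ne'
    exact ((dd_cont f).comp Complex.continuous_ofReal).continuousOn
  have hint : IntegrableOn (fun t : ℝ => 1 / dd f t) E :=
    hcont.integrableOn_compact hE.cpt
  set C : ℝ := ∫ t in E, 1 / dd f t with hC
  have hC0 : 0 ≤ C := setIntegral_nonneg hmeas fun t ht => (div_pos one_pos (hpos t ht)).le
  rw [continuous_iff_continuousAt]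
  intro w₀
  by_cases hw₀ : w₀ ∈ Om f
  · have h1 : ContinuousAt (pot f F E) w₀ :=
      (h.pot_cont hE).continuousAt (h.isOpen.mem_nhds hw₀)
    refine h1.congr ?_
    filter_upwards [h.isOpen.mem_nhds hw₀] with w hw
    unfold potz
    rw [if_pos hw]
  · have h0 : potz f F E w₀ = 0 := by
      unfold potz
      rw [if_neg hw₀]
    rw [Metric.continuousAt_iff']
    intro η hη
    have hε : 0 < η / (2 * (C + 1)) := by positivity
    obtain ⟨r, hr, hgr⟩ := h.gr_bd hE hε
    filter_upwards [h.proper hw₀ hr] with w hw
    rw [h0, Real.dist_eq, sub_zero, abs_of_nonneg (h.potz_nonneg hE w)]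
    by_cases hwo : w ∈ Om f
    · have h1 : potz f F E w = pot f F E w := by
        unfold potz
        rw [if_pos hwo]
      rw [h1]
      have h2 : pot f F E w ≤ ∫ t in E, η / (2 * (C + 1)) * (1 / dd f t) := by
        unfold pot
        refine setIntegral_mono_on (h.gr_int hE hwo) (hint.const_mul _) hmeas fun t ht => ?_
        rw [mul_one_div]
        exact div_le_div_of_nonneg_right (hgr w hwo (hw hwo) t ht) (hpos t ht).le
      have h3 : ∫ t in E, η / (2 * (C + 1)) * (1 / dd f t) = η / (2 * (C + 1)) * C := by
        rw [integral_const_mul]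
      rw [h3] at h2
      refine h2.trans_lt ?_
      rw [div_mul_eq_mul_div, div_lt_iff₀ (by positivity)]
      nlinarith
    · unfold potz
      rw [if_neg hwo]
      exact hη

end Pool.Agent.H.MP_215299_an.CC
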