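import Pool.Agent.H.MP_215299_an.CC.Pc1
import Pool.Agent.H.MP_215299_an.CC.Pc2
import Pool.Agent.H.MP_215299_an.CC.Pc3
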