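import Pool.Agent.H.MP_215299_an.CC.Ph1
import Pool.Agent.H.MP_215299_an.CC.Pc2

/-!
CC, module Ph2: the potential is harmonic off `E`.
-/

set_option autoImplicit false

open Complex Metric Set MeasureTheory Filter Topology InnerProductSpace
open scoped ComplexConjugate

namespace Pool.Agent.H.MP_215299_an.CC

variable {f F : ℂ → ℂ}

/-- PROOF: `pot` is continuous on the circle; by `Uni.pot_poisson` it is the real part of the circle average of the Herglotz-Riesz kernel times
`pot`, which is analytic (`analyticOnNhd_circleAverage_herglotzRieszKernel_smul`, `re_circleAverage_herglotzRieszKernel_smul`,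
`poissonKernel_eq_re_herglotzRieszKernel`); `potz = pot` near `w`. -/
theorem Uni.potz_harm (h : Uni f F) {E : Set ℝ} (hE : Cp f E) {w : ℂ} (hw : w ∈ Om f)
    (hwE : ∀ t ∈ E, (t : ℂ) ≠ w) : HarmonicAt (potz f F E) w := by
  have hEc : IsClosed ((fun t : ℝ => (t : ℂ)) '' E) :=
    (hE.cpt.image Complex.continuous_ofReal).isClosed
  have hU : IsOpen (Om f ∩ ((fun t : ℝ => (t : ℂ)) '' E)ᶜ) := h.isOpen.inter hEc.isOpen_compl
  have hwU : w ∈ Om f ∩ ((fun t : ℝ => (t : ℂ)) '' E)ᶜ := by
    refine ⟨hw, ?_⟩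
    rintro ⟨t, ht, htw⟩
    exact hwE t ht htw
  obtain ⟨R, hR, hsub⟩ := Metric.nhds_basis_closedBall.mem_iff.1 (hU.mem_nhds hwU)
  have hb : closedBall w R ⊆ Om f := fun z hz => (hsub hz).1
  have hd : ∀ t ∈ E, (t : ℂ) ∉ closedBall w R := fun t ht hmem => (hsub hmem).2 ⟨t, ht, rfl⟩
  obtain ⟨g, hg⟩ : ∃ g : ℂ → ℝ, g = fun ζ => pot f F E (ζ + w) := ⟨_, rfl⟩
  have hgc : ContinuousOn g (sphere 0 R) := by
    rw [hg]
    refine (h.pot_cont hE).comp (by fun_prop) ?_
    intro ζ hζ
    apply hb
    rw [mem_closedBall, dist_eq_norm, add_sub_cancel_right]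
    rw [mem_sphere_zero_iff_norm] at hζ
    exact hζ.le
  have hgi : CircleIntegrable g 0 R := hgc.circleIntegrable hR.le
  have hgi' : CircleIntegrable (fun ζ => (g ζ : ℂ)) 0 R :=
    (Complex.continuous_ofReal.comp_continuousOn hgc).circleIntegrable hR.le
  have hA := analyticOnNhd_circleAverage_herglotzRieszKernel_smul hgi'
  have h0 : AnalyticAt ℂ (fun z => Real.circleAverage
      (fun ζ => herglotzRieszKernel 0 (z - w) ζ • (g ζ : ℂ)) 0 R) w := by
    have h1 : AnalyticAt ℂ (fun z => Real.circleAverage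
      (fun ζ => herglotzRieszKernel 0 z ζ • (g ζ : ℂ)) 0 R) (w - w) := by
      rw [sub_self]
      exact hA 0 (mem_ball_self hR)
    exact h1.fun_comp (f := fun z : ℂ => z - w) (by fun_prop)
  have h2 := h0.harmonicAt_re
  refine (harmonicAt_congr_nhds ?_).1 h2
  filter_upwards [Metric.ball_mem_nhds w hR] with z hz
  have hzO : z ∈ Om f := hb (ball_subset_closedBall hz)
  rw [potz, if_pos hzO, ← h.pot_poisson hE hR hb hd hz,
    re_circleAverage_herglotzRieszKernel_smul hgi (by
      rw [mem_ball_zero_iff]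
      rwa [mem_ball, dist_eq_norm] at hz),
    ← Real.circleAverage_map_add_const (f := poissonKernel w z • pot f F E)]
  congr 1
  funext ζ
  rw [Pi.smul_apply', Pi.smul_apply', poissonKernel_eq_re_herglotzRieszKernel, Function.comp_apply,
    Function.comp_apply, herglotzRieszKernel_add_const, hg]

end Pool.Agent.H.MP_215299_an.CC
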