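import Pool.Agent.H.MP_215299_an.CC.SmA
import Pool.Agent.H.MP_215299_an.CC.SmB
import Pool.Agent.H.MP_215299_an.CC.Pc
import Pool.Agent.H.MP_215299_an.CC.Ph

/-!
CC, module Md1: the potential attains its maximum on `E`; comparison with a positive harmonic function.
-/

set_option autoImplicit false

open Complex Metric Set MeasureTheory Filter Topology InnerProductSpace
open scoped ComplexConjugate

namespace Pool.Agent.H.MP_215299_an.CC

variable {f F : ℂ → ℂ}

/-- The potential is small near the boundary of the image. -/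
private theorem Md1_small (h : Uni f F) {E : Set ℝ} (hE : Cp f E) {ε : ℝ} (hε : 0 < ε) :
    ∃ r < 1, ∀ w ∈ Om f, r < ‖F w‖ → potz f F E w ≤ ε := by
  rcases E.eq_empty_or_nonempty with rfl | hne
  · refine ⟨0, one_pos, fun w hw _ => ?_⟩
    rw [potz, if_pos hw, pot, Measure.restrict_empty, integral_zero_measure]
    exact hε.le
  obtain ⟨t₀, ht₀, hmin⟩ := hE.cpt.exists_isMinOn hne
    ((dd_cont f).comp continuous_ofReal).continuousOn
  obtain ⟨δ, hδ⟩ : ∃ δ, δ = dd f t₀ := ⟨_, rfl⟩
  have hδ0 : 0 < δ := by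
    rw [hδ]
    exact h.dd_pos (hE.sub t₀ ht₀)
  have hδE : ∀ t ∈ E, δ ≤ dd f t := by
    intro t ht
    rw [hδ]
    exact hmin ht
  obtain ⟨M, hM⟩ : ∃ M, M = volume.real E := ⟨_, rfl⟩
  have hM0 : 0 ≤ M := by
    rw [hM]
    exact measureReal_nonneg
  obtain ⟨r, hr, hgr⟩ := h.gr_bd hE (ε := ε * δ / (M + 1)) (by positivity)
  refine ⟨r, hr, fun w hw hwr => ?_⟩
  rw [potz, if_pos hw, pot]
  have h1 : ‖∫ t in E, gr F w t / dd f t‖ ≤ ε / (M + 1) * volume.real E := by
    refine norm_setIntegral_le_of_norm_le_const hE.cpt.measure_lt_top fun t ht => ?_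
    have h2 := h.gr_nonneg hw (hE.sub t ht)
    have h3 := hgr w hw hwr t ht
    have h4 := hδE t ht
    have h5 : 0 < dd f t := hδ0.trans_le h4
    rw [Real.norm_eq_abs, abs_of_nonneg (div_nonneg h2 h5.le), div_le_iff₀ h5]
    have h6 : ε * δ / (M + 1) = ε / (M + 1) * δ := by ring
    rw [h6] at h3
    exact h3.trans (mul_le_mul_of_nonneg_left h4 (by positivity))
  rw [← hM] at h1
  refine (le_abs_self _).trans (h1.trans ?_)
  rw [div_mul_eq_mul_div, div_le_iff₀ (by positivity)]
  nlinarith

/-- Comparison principle. PROOF: `max0` with `U = Om f` minus `E` (open) and `φ w = potz f F E w - V w`, harmonic there. For `ε > 0` the set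
`K = {w ∈ Om f | ε ≤ φ w}` is closed in the plane (`potz` is continuous and vanishes outside the image; if `w_n → w` with `w` outside the
image then `φ w_n ≤ potz w_n → 0`), bounded: `K ⊆ f '' closedBall 0 r` for some `r < 1` because `potz f F E (f z) → 0` uniformly as
`‖z‖ → 1` (`Uni.gr_bd`), and it does not meet `E`. -/
theorem Uni.compare (h : Uni f F) {E : Set ℝ} (hE : Cp f E) {V : ℂ → ℝ}
    (hV : ∀ w ∈ Om f, HarmonicAt V w) (hV0 : ∀ w ∈ Om f, 0 ≤ V w)
    (hEV : ∀ t ∈ E, potz f F E t ≤ V t) : ∀ w ∈ Om f, potz f F E w ≤ V w := by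
  have hEc : IsClosed (ofReal '' E) := (hE.cpt.image continuous_ofReal).isClosed
  obtain ⟨U, hU⟩ : ∃ U, U = Om f \ ofReal '' E := ⟨_, rfl⟩
  have hUo : IsOpen U := by
    rw [hU]
    exact h.isOpen.sdiff hEc
  have hVc : ContinuousOn V (Om f) := fun w hw =>
    (hV w hw).1.continuousAt.continuousWithinAt
  have hφc : ContinuousOn (fun w => potz f F E w - V w) (Om f) :=
    (h.potz_cont hE).continuousOn.sub hVc
  have hmain : ∀ w ∈ U, potz f F E w - V w ≤ 0 := by
    refine max0 hUo (hφc.mono (by rw [hU]; exact sdiff_subset)) ?_ ?_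
    · intro w hw
      rw [hU] at hw
      refine SubM.of_harmonic ?_
      exact (h.potz_harm hE hw.1 fun t ht hwt => hw.2 ⟨t, ht, hwt⟩).sub (hV w hw.1)
    · intro ε hε
      obtain ⟨r, hr, hsm⟩ := Md1_small h hE hε
      obtain ⟨C, hC⟩ : ∃ C, C = f '' closedBall 0 (max r 0) := ⟨_, rfl⟩
      have hr1 : max r 0 < 1 := max_lt hr one_pos
      have hsub : closedBall (0 : ℂ) (max r 0) ⊆ ball 0 1 := closedBall_subset_ball hr1
      have hCc : IsCompact C := by
        rw [hC]
        exact (isCompact_closedBall _ _).image_of_continuousOn (h.diff.continuousOn.mono hsub)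
      have hCO : C ⊆ Om f := by
        rw [hC]
        exact image_mono hsub
      refine ⟨C ∩ (fun w => potz f F E w - V w) ⁻¹' Ici ε, ?_, ?_, ?_⟩
      · rintro w ⟨hwC, hwε⟩
        rw [hU]
        refine ⟨hCO hwC, ?_⟩
        rintro ⟨t, ht, rfl⟩
        have h1 := hEV t ht
        have h2 : ε ≤ potz f F E t - V t := hwε
        linarith
      · exact hCc.of_isClosed_subset
          ((hφc.mono hCO).preimage_isClosed_of_isClosed hCc.isClosed isClosed_Ici)
          inter_subset_left
      · intro w hwU hwK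
        rw [hU] at hwU
        by_cases hwC : w ∈ C
        · have h1 : ¬ ε ≤ potz f F E w - V w := fun h2 => hwK ⟨hwC, h2⟩
          exact (not_le.1 h1).le
        · have h1 : r < ‖F w‖ := by
            by_contra h2
            apply hwC
            rw [hC]
            refine ⟨F w, ?_, (h.maps hwU.1).2⟩
            rw [mem_closedBall, dist_zero_right]
            exact (not_lt.1 h2).trans (le_max_left _ _)
          have h2 := hsm w hwU.1 h1
          have h3 := hV0 w hwU.1
          linarith
  intro w hw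
  by_cases hwE : w ∈ ofReal '' E
  · obtain ⟨t, ht, rfl⟩ := hwE
    exact hEV t ht
  · have h1 := hmain w (by rw [hU]; exact ⟨hw, hwE⟩)
    linarith

end Pool.Agent.H.MP_215299_an.CC
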