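import Pool.Agent.H.MP_215299_an.CC.GbB

/-!
CC, module Pc1: continuity of the potential.
-/

set_option autoImplicit false

open Complex Metric Set MeasureTheory Filter Topology
open scoped ComplexConjugate

namespace Pool.Agent.H.MP_215299_an.CC

variable {f F : ℂ → ℂ}

theorem Uni.potz_nonneg (h : Uni f F) {E : Set ℝ} (hE : Cp f E) (w : ℂ) : 0 ≤ potz f F E w := by
  unfold potz
  split_ifs with hw
  · exact setIntegral_nonneg hE.cpt.measurableSet fun t ht =>
      div_nonneg (h.gr_nonneg hw (hE.sub t ht)) (dd_nonneg f t)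
  · exact le_rfl

/-- PROOF: dominated convergence: the integrand is `≤ k / dd f t` and for almost every `t` (all `t` with `(t : ℂ) ≠ w₀`) it is continuous
in `w` at `w₀` (`Uni.gr_cont`). -/
theorem Uni.trunc_cont (h : Uni f F) {E : Set ℝ} (hE : Cp f E) {k : ℝ} (hk : 0 < k) :
    ContinuousOn (fun w => ∫ t in E, min (gr F w t) k / dd f t) (Om f) := by
  intro w₀ hw₀
  have hm : Continuous fun t : ℝ => dd f (t : ℂ) := (dd_cont f).comp continuous_ofReal
  show ContinuousWithinAt (fun w : ℂ => ∫ t in E, min (gr F w t) k / dd f t) (Om f) w₀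
  refine continuousWithinAt_of_dominated (μ := volume.restrict E)
    (F := fun (w : ℂ) (t : ℝ) => min (gr F w t) k / dd f t)
    (bound := fun t : ℝ => k / dd f t) ?_ ?_ ?_ ?_
  · refine eventually_mem_nhdsWithin.mono fun w hw => ?_
    exact (((h.gr_meas hE hw).aemeasurable.min aemeasurable_const).div
      hm.measurable.aemeasurable).aestronglyMeasurable
  · refine eventually_mem_nhdsWithin.mono fun w hw => ?_
    refine (ae_restrict_iff' hE.cpt.measurableSet).2 (Eventually.of_forall fun t ht => ?_)
    have h1 := h.gr_nonneg hw (hE.sub t ht)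
    rw [Real.norm_eq_abs, abs_of_nonneg (div_nonneg (le_min h1 hk.le) (dd_nonneg f t))]
    exact div_le_div_of_nonneg_right (min_le_right _ _) (dd_nonneg f t)
  · exact (continuousOn_const.div hm.continuousOn fun t ht =>
      (h.dd_pos (hE.sub t ht)).ne').integrableOn_compact hE.cpt
  · refine (ae_restrict_iff' hE.cpt.measurableSet).2 ?_
    have h0 : ∀ᵐ t : ℝ, t ≠ w₀.re := by
      rw [ae_iff]
      simp
    filter_upwards [h0] with t ht htE
    have hne : w₀ ≠ (t : ℂ) := by
      intro e
      exact ht (by rw [e, ofReal_re])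
    have hc := h.gr_cont hw₀ (hE.sub t htE) hne
    have h2 : ContinuousAt (fun w : ℂ => (w, t)) w₀ :=
      continuousAt_id.prodMk continuousAt_const
    have h3 : ContinuousAt (fun w : ℂ => gr F w t) w₀ :=
      ContinuousAt.comp (f := fun w : ℂ => (w, t)) (g := fun q : ℂ × ℝ => gr F q.1 q.2) hc h2
    have h4 : ContinuousAt (fun w : ℂ => min (gr F w t) k / dd f t) w₀ :=
      (h3.min continuousAt_const).div_const _
    exact h4.continuousWithinAt

end Pool.Agent.H.MP_215299_an.CC
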