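import Pool.Agent.H.MP_215299_an.CC.GbA

/-!
CC, module Ph1: the potential is harmonic off `E`.
-/

set_option autoImplicit false

open Complex Metric Set MeasureTheory Filter Topology InnerProductSpace
open scoped ComplexConjugate

namespace Pool.Agent.H.MP_215299_an.CC

variable {f F : ℂ → ℂ}

/-- The Poisson formula for the potential. PROOF: it holds for each `gr F · t` (`Uni.gr_harm`,
`HarmonicOnNhd.circleAverage_poissonKernel_smul`); Fubini (the integrand is continuous on the compact set circle times `E`). -/
theorem Uni.pot_poisson (h : Uni f F) {E : Set ℝ} (hE : Cp f E) {c : ℂ} {R : ℝ} (hR : 0 < R)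
    (hb : closedBall c R ⊆ Om f) (hd : ∀ t ∈ E, (t : ℂ) ∉ closedBall c R) {w : ℂ} (hw : w ∈ ball c R) :
    Real.circleAverage (poissonKernel c w • pot f F E) c R = pot f F E w := by
  have hpi : (0 : ℝ) ≤ 2 * Real.pi := by positivity
  have hs : ∀ θ, circleMap c R θ ∈ sphere c R := fun θ => circleMap_mem_sphere c hR.le θ
  have hcb : ∀ θ, circleMap c R θ ∈ closedBall c R := fun θ => sphere_subset_closedBall (hs θ)
  have hne : ∀ θ, ∀ t ∈ E, circleMap c R θ ≠ (t : ℂ) := by
    intro θ t ht h1
    exact hd t ht (h1 ▸ hcb θ)
  have h1 : ∀ t ∈ E, (2 * Real.pi)⁻¹ * ∫ θ in (0 : ℝ)..(2 * Real.pi),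
      poissonKernel c w (circleMap c R θ) * (gr F (circleMap c R θ) t / dd f t) =
        gr F w t / dd f t := by
    intro t ht
    have h2 : HarmonicOnNhd (fun z => gr F z t) (closedBall c R) := by
      intro z hz
      refine h.gr_harm (hb hz) (hE.sub t ht) ?_
      rintro rfl
      exact hd t ht hz
    have h3 := h2.circleAverage_poissonKernel_smul hw
    rw [Real.circleAverage_def, smul_eq_mul] at h3
    have h4 : ∫ θ in (0 : ℝ)..(2 * Real.pi),
        poissonKernel c w (circleMap c R θ) * (gr F (circleMap c R θ) t / dd f t) =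
        (∫ θ in (0 : ℝ)..(2 * Real.pi),
          (poissonKernel c w • fun z => gr F z t) (circleMap c R θ)) / dd f t := by
      rw [← intervalIntegral.integral_div]
      refine intervalIntegral.integral_congr fun θ _ => ?_
      show poissonKernel c w (circleMap c R θ) * (gr F (circleMap c R θ) t / dd f t) =
        poissonKernel c w (circleMap c R θ) * gr F (circleMap c R θ) t / dd f t
      ring
    rw [h4, ← mul_div_assoc, h3]
  have hcont : ContinuousOn (Function.uncurry fun (θ t : ℝ) =>
      poissonKernel c w (circleMap c R θ) * (gr F (circleMap c R θ) t / dd f t))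
      (Icc 0 (2 * Real.pi) ×ˢ E) := by
    rintro ⟨θ, t⟩ ⟨-, ht⟩
    have ht' : t ∈ E := ht
    have hcm : Continuous fun q : ℝ × ℝ => circleMap c R q.1 :=
      (continuous_circleMap c R).comp continuous_fst
    have c1 : ContinuousAt (fun q : ℝ × ℝ => poissonKernel c w (circleMap c R q.1)) (θ, t) := by
      have hw1 : (circleMap c R θ - c) - (w - c) ≠ 0 := by
        intro h5
        have h6 : circleMap c R θ = w := by linear_combination h5
        have h7 := hs θ
        rw [h6, mem_sphere] at h7
        rw [mem_ball] at hw
        linarith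
      unfold poissonKernel
      refine ContinuousAt.div ?_ ?_ (pow_ne_zero 2 (norm_ne_zero_iff.2 hw1))
      · exact (((hcm.sub continuous_const).norm.pow 2).sub continuous_const).continuousAt
      · exact (((hcm.sub continuous_const).sub continuous_const).norm.pow 2).continuousAt
    have c2 : ContinuousAt (fun q : ℝ × ℝ => gr F (circleMap c R q.1) q.2) (θ, t) := by
      have h5 := h.gr_cont (hb (hcb θ)) (hE.sub t ht') (hne θ t ht')
      exact ContinuousAt.comp (f := fun q : ℝ × ℝ => (circleMap c R q.1, q.2))
        (g := fun q : ℂ × ℝ => gr F q.1 q.2) h5 (hcm.prodMk continuous_snd).continuousAt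
    have c3 : ContinuousAt (fun q : ℝ × ℝ => dd f (q.2 : ℂ)) (θ, t) :=
      ((dd_cont f).comp (Complex.continuous_ofReal.comp continuous_snd)).continuousAt
    exact (c1.mul (c2.div c3 (h.dd_pos (hE.sub t ht')).ne')).continuousWithinAt
  have hint : Integrable (Function.uncurry fun (θ t : ℝ) =>
      poissonKernel c w (circleMap c R θ) * (gr F (circleMap c R θ) t / dd f t))
      ((volume.restrict (Ioc 0 (2 * Real.pi))).prod (volume.restrict E)) := by
    rw [Measure.prod_restrict]
    have h5 := hcont.integrableOn_compact (μ := volume.prod volume)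
      (isCompact_Icc.prod hE.cpt)
    exact h5.mono_set (prod_mono Ioc_subset_Icc_self subset_rfl)
  have h2 : ∀ θ, (poissonKernel c w • pot f F E) (circleMap c R θ) =
      ∫ t in E, poissonKernel c w (circleMap c R θ) * (gr F (circleMap c R θ) t / dd f t) :=
    fun θ => (integral_const_mul _ _).symm
  rw [Real.circleAverage_def, smul_eq_mul, intervalIntegral.integral_congr fun θ _ => h2 θ,
    intervalIntegral.integral_of_le hpi, integral_integral_swap hint, ← integral_const_mul]
  refine setIntegral_congr_fun hE.cpt.measurableSet fun t ht => ?_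
  have h3 := h1 t ht
  rw [intervalIntegral.integral_of_le hpi] at h3
  exact h3

end Pool.Agent.H.MP_215299_an.CC
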