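import Pool.Agent.H.MP_215299_an.CC.IntB

/-!
CC, module QA: the weight. `1 / f'` is bounded by a power of an analytic function with nonnegative real part.
-/

set_option autoImplicit false

open Complex Metric Set MeasureTheory Filter Topology InnerProductSpace
open scoped ComplexConjugate ENNReal

namespace Pool.Agent.H.MP_215299_an.CC

variable {f F : ℂ → ℂ}

/-- `1 / |f'| ≤ M |q|^β` with an analytic function `q` without zeros, `Re q ≥ 0`. -/
structure Qm (f q : ℂ → ℂ) (β M : ℝ) : Prop where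
  an : ∀ z ∈ ball (0 : ℂ) 1, AnalyticAt ℂ q z
  ne : ∀ z ∈ ball (0 : ℂ) 1, q z ≠ 0
  re : ∀ z ∈ ball (0 : ℂ) 1, 0 ≤ (q z).re
  le : ∀ z ∈ ball (0 : ℂ) 1, ‖deriv f z‖⁻¹ ≤ M * ‖q z‖ ^ β
  pos : 0 < M

/-- `1/f'` at the point `F t`. PROOF: `H65K.deriv_inv`. -/
theorem Uni.derivF (h : Uni f F) {w : ℂ} (hw : w ∈ Om f) : ‖deriv F w‖ = ‖deriv f (F w)‖⁻¹ ∧ deriv F w ≠ 0 := by
  obtain ⟨z, hz, rfl⟩ := hw
  have h1 := H65K.deriv_inv isOpen_ball h.diff h.inj h.inv hz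
  rw [h.inv z hz, h1.2, norm_inv]
  exact ⟨rfl, inv_ne_zero h1.1⟩

/-- PROOF: `deriv F` is continuous on the open set `Om f` (`Uni.isOpen`, `Uni.diffF`). -/
theorem Uni.derivF_cont (h : Uni f F) : ContinuousOn (deriv F) (Om f) :=
  ((h.diffF.analyticOnNhd h.isOpen).deriv).continuousOn

end Pool.Agent.H.MP_215299_an.CC
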