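import Pool.Agent.H.MP_215299_an.CC.QA

/-!
CC, module QB: the length integral over a compact set.
-/

set_option autoImplicit false

open Complex Metric Set MeasureTheory Filter Topology InnerProductSpace
open scoped ComplexConjugate ENNReal

namespace Pool.Agent.H.MP_215299_an.CC

variable {f F : ℂ → ℂ}

/-- PROOF: as in `Uni.piece` (CC/IntA, with `s = 0`, without `v`), or from `Uni.piece` with `v z = ‖deriv f z‖⁻¹`, `s = 0`, `s' = 1` and `L` a bound
of `‖deriv F t‖` on the compact set `E` (`Uni.derivF`, `Uni.derivF_cont`). -/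
theorem Uni.len (h : Uni f F) {E : Set ℝ} (hE : Cp f E) :
    ∫⁻ t in E, ENNReal.ofReal ‖deriv F t‖ ≤ ENNReal.ofReal (2 * potz f F E (f 0)) := by
  have h0 : f 0 ∈ Om f := h.mem (mem_ball_self one_pos)
  have hmeas : MeasurableSet E := hE.cpt.measurableSet
  have hpt : ∀ t ∈ E, (t : ℂ) ≠ f 0 → ‖deriv F t‖ ≤ 2 * (gr F (f 0) t / dd f t) := by
    intro t ht hne
    have htO : (t : ℂ) ∈ Om f := hE.sub t ht
    have hdd : 0 < dd f t := h.dd_pos htO
    refine (h.derivF_le htO).trans ?_
    rw [← mul_div_assoc]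
    exact div_le_div_of_nonneg_right (h.gr_zero htO hne) hdd.le
  have hint : IntegrableOn (fun t : ℝ => 2 * (gr F (f 0) t / dd f t)) E :=
    (h.gr_int hE h0).const_mul _
  have hnn : 0 ≤ᵐ[volume.restrict E] fun t : ℝ => 2 * (gr F (f 0) t / dd f t) := by
    refine (ae_restrict_iff' hmeas).2 (Eventually.of_forall fun t ht => ?_)
    have htO : (t : ℂ) ∈ Om f := hE.sub t ht
    exact mul_nonneg zero_le_two (div_nonneg (h.gr_nonneg h0 htO) (h.dd_pos htO).le)
  have hpot : ∫ t in E, 2 * (gr F (f 0) t / dd f t) = 2 * potz f F E (f 0) := by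
    rw [integral_const_mul, potz, if_pos h0, pot]
  rw [← hpot, ofReal_integral_eq_lintegral_ofReal hint hnn]
  refine lintegral_mono_ae ((ae_restrict_iff' hmeas).2 ?_)
  have hne : ∀ᵐ t : ℝ, t ∉ ({(f 0).re} : Set ℝ) := (countable_singleton _).ae_notMem volume
  filter_upwards [hne] with t ht htE
  refine ENNReal.ofReal_le_ofReal (hpt t htE fun h1 => ht ?_)
  rw [mem_singleton_iff, ← h1, Complex.ofReal_re]

end Pool.Agent.H.MP_215299_an.CC
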