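import Pool.Agent.H.MP_215299_an.CC.QB

/-!
CC, module QC: the weak type estimate at the endpoint, compact sets.
-/

set_option autoImplicit false

open Complex Metric Set MeasureTheory Filter Topology InnerProductSpace
open scoped ComplexConjugate ENNReal

namespace Pool.Agent.H.MP_215299_an.CC

variable {f F : ℂ → ℂ}

private theorem QC_re (a : ℂ) (κ : ℝ) :
    (a / (a + κ)).re = (a.re * a.re + a.im * a.im + κ * a.re) /
      (a.re * a.re + a.im * a.im + 2 * κ * a.re + κ * κ) := by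
  have h1 : normSq (a + κ) = a.re * a.re + a.im * a.im + 2 * κ * a.re + κ * κ := by
    rw [normSq_apply, add_re, add_im, ofReal_re, ofReal_im]
    ring
  rw [div_re, h1, add_re, add_im, ofReal_re, ofReal_im, add_zero, ← add_div]
  congr 1
  ring

private theorem QC_den {a : ℂ} {κ : ℝ} (hκ : 0 < κ) (ha : 0 ≤ a.re) :
    0 < a.re * a.re + a.im * a.im + 2 * κ * a.re + κ * κ := by
  have h1 : 0 < κ * κ := mul_pos hκ hκ
  have h2 : 0 ≤ a.re * a.re := mul_self_nonneg _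
  have h3 : 0 ≤ a.im * a.im := mul_self_nonneg _
  have h4 : 0 ≤ 2 * κ * a.re := by positivity
  linarith

private theorem QC_pos {a : ℂ} {κ : ℝ} (hκ : 0 < κ) (ha : 0 ≤ a.re) (ha0 : a ≠ 0) :
    0 < (a / (a + κ)).re := by
  rw [QC_re]
  refine div_pos ?_ (QC_den hκ ha)
  have h1 : 0 < normSq a := normSq_pos.2 ha0
  rw [normSq_apply] at h1
  have h2 : 0 ≤ κ * a.re := mul_nonneg hκ.le ha
  linarith

private theorem QC_half {a : ℂ} {κ : ℝ} (hκ : 0 < κ) (ha : 0 ≤ a.re) (ha0 : κ ≤ ‖a‖) :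
    1 / 2 ≤ (a / (a + κ)).re := by
  rw [QC_re, div_le_div_iff₀ two_pos (QC_den hκ ha)]
  have h1 : ‖a‖ * ‖a‖ = a.re * a.re + a.im * a.im := by
    rw [Complex.norm_mul_self_eq_normSq, normSq_apply]
  have h2 : κ * κ ≤ ‖a‖ * ‖a‖ := mul_self_le_mul_self hκ.le ha0
  rw [h1] at h2
  linarith

private theorem QC_le {a : ℂ} {κ : ℝ} (hκ : 0 < κ) (ha : 0 ≤ a.re) :
    (a / (a + κ)).re ≤ ‖a‖ / κ := by
  have h1 : κ ≤ ‖a + κ‖ := by
    refine le_trans ?_ (re_le_norm _)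
    rw [add_re, ofReal_re]
    linarith
  refine (re_le_norm _).trans ?_
  rw [norm_div]
  exact div_le_div_of_nonneg_left (norm_nonneg _) hκ h1

/-- PROOF: `κ = (Λ / M)^{1/β} > 0`. On `E`: `Λ ≤ ‖F'‖ = ‖f'(F t)‖⁻¹ ≤ M ‖q (F t)‖^β`, so `κ ≤ ‖q (F t)‖`. Put `v z = Re (q z / (q z + κ))`: `q + κ` has
positive real part, `v` is harmonic, `v = (|q|² + κ Re q) / |q + κ|² > 0`, and `|q| ≥ κ` gives `v ≥ 1/2` (as `|q + κ|² = |q|² + 2 κ Re q + κ²`);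
`v 0 ≤ |q 0| / |q 0 + κ| ≤ |q 0| / κ`. `Uni.weak` with `1/2`: `potz f F E (f 0) ≤ 400000 |q 0| / κ`; `Uni.len`; `1/κ = (M/Λ)^{1/β}`. -/
theorem Uni.wk (h : Uni f F) {q : ℂ → ℂ} {β M : ℝ} (hq : Qm f q β M) (hβ : 0 < β) {E : Set ℝ} (hE : Cp f E)
    {Λ : ℝ} (hΛ : 0 < Λ) (hEv : ∀ t ∈ E, Λ ≤ ‖deriv F t‖) :
    ∫⁻ t in E, ENNReal.ofReal ‖deriv F t‖ ≤
      ENNReal.ofReal (800000 * (‖q 0‖ * M ^ (1 / β)) * Λ ^ (-(1 / β))) := by
  have hM := hq.pos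
  have hb0 : (0 : ℂ) ∈ ball (0 : ℂ) 1 := mem_ball_self one_pos
  set κ : ℝ := (Λ / M) ^ (1 / β) with hκd
  have hκ : 0 < κ := Real.rpow_pos_of_pos (div_pos hΛ hM) _
  have hne : ∀ z ∈ ball (0 : ℂ) 1, q z + κ ≠ 0 := by
    intro z hz h0
    have h1 := congrArg Complex.re h0
    rw [add_re, ofReal_re, zero_re] at h1
    have h2 := hq.re z hz
    linarith
  have hv : ∀ z ∈ ball (0 : ℂ) 1, HarmonicAt (fun z => (q z / (q z + κ)).re) z := by
    intro z hz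
    have h1 : AnalyticAt ℂ (fun z => q z / (q z + κ)) z :=
      (hq.an z hz).fun_div ((hq.an z hz).fun_add analyticAt_const) (hne z hz)
    exact h1.harmonicAt_re
  have hv0 : ∀ z ∈ ball (0 : ℂ) 1, 0 < (q z / (q z + κ)).re := fun z hz =>
    QC_pos hκ (hq.re z hz) (hq.ne z hz)
  have hEv' : ∀ t ∈ E, 1 / 2 ≤ (q (F t) / (q (F t) + κ)).re := by
    intro t ht
    have htO : (t : ℂ) ∈ Om f := hE.sub t ht
    have hz : F t ∈ ball (0 : ℂ) 1 := mem_ball_zero_iff.2 (h.maps htO).1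
    refine QC_half hκ (hq.re _ hz) ?_
    have h1 : Λ ≤ M * ‖q (F t)‖ ^ β := (hEv t ht).trans (by
      rw [(h.derivF htO).1]
      exact hq.le _ hz)
    have h2 : Λ / M ≤ ‖q (F t)‖ ^ β := by
      rw [div_le_iff₀ hM]
      linarith
    have h3 : (Λ / M) ^ (1 / β) ≤ (‖q (F t)‖ ^ β) ^ (1 / β) :=
      Real.rpow_le_rpow (div_pos hΛ hM).le h2 (by positivity)
    rw [← Real.rpow_mul (norm_nonneg _), mul_one_div_cancel hβ.ne', Real.rpow_one] at h3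
    exact h3
  have hw := h.weak hE hv hv0 (half_pos one_pos) hEv'
  refine (h.len hE).trans (ENNReal.ofReal_le_ofReal ?_)
  have h4 : (q 0 / (q 0 + κ)).re ≤ ‖q 0‖ / κ := QC_le hκ (hq.re 0 hb0)
  have h5 : 1 / κ = M ^ (1 / β) * Λ ^ (-(1 / β)) := by
    rw [hκd, Real.div_rpow hΛ.le hM.le, one_div_div, Real.rpow_neg hΛ.le, div_eq_mul_inv]
  have h6 : ‖q 0‖ / κ = ‖q 0‖ * M ^ (1 / β) * Λ ^ (-(1 / β)) := by
    rw [div_eq_mul_one_div, h5, mul_assoc]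
  calc 2 * potz f F E (f 0) ≤ 2 * (200000 * (q 0 / (q 0 + κ)).re / (1 / 2)) :=
        mul_le_mul_of_nonneg_left hw two_pos.le
    _ = 800000 * (q 0 / (q 0 + κ)).re := by ring
    _ ≤ 800000 * (‖q 0‖ / κ) := mul_le_mul_of_nonneg_left h4 (by norm_num)
    _ = _ := by rw [h6]; ring

end Pool.Agent.H.MP_215299_an.CC
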