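import Pool.Agent.H.MP_215299_an.CC.QC

/-!
CC, module QD: the weak type estimate at the endpoint, the real line.
-/

set_option autoImplicit false

open Complex Metric Set MeasureTheory Filter Topology InnerProductSpace
open scoped ComplexConjugate ENNReal

namespace Pool.Agent.H.MP_215299_an.CC

variable {f F : ℂ → ℂ}

/-- PROOF: for a compact `E` in the set, `Λ * volume E ≤ ∫⁻ t in E, ENNReal.ofReal ‖deriv F t‖ ≤ ...` (`Uni.wk`), so `volume E ≤` the right side. The
set is the increasing union of the compact sets `{t | |t| ≤ N ∧ 1/(N+1) ≤ dd f t ∧ Λ ≤ ‖deriv F t‖}` (see the proof of `Uni.line_int` in CC/IntB2 for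
this exhaustion; closed because `deriv F` is continuous on the compact set of the first two conditions, `Uni.derivF_cont`);
continuity of the measure from below. -/
theorem Uni.wk_vol (h : Uni f F) {q : ℂ → ℂ} {β M : ℝ} (hq : Qm f q β M) (hβ : 0 < β) {Λ : ℝ} (hΛ : 0 < Λ) :
    volume {t : ℝ | (t : ℂ) ∈ Om f ∧ Λ ≤ ‖deriv F t‖} ≤
      ENNReal.ofReal (800000 * (‖q 0‖ * M ^ (1 / β)) * Λ ^ (-(1 + 1 / β))) := by
  set E : ℕ → Set ℝ := fun N => {t : ℝ | |t| ≤ N ∧ 1 / ((N : ℝ) + 1) ≤ dd f (t : ℂ)} with hEd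
  have hcl : ∀ N, IsClosed (E N) := fun N =>
    (isClosed_le continuous_abs continuous_const).inter
      (isClosed_le continuous_const ((dd_cont f).comp Complex.continuous_ofReal))
  have hcpt : ∀ N, Cp f (E N) := by
    intro N
    refine ⟨?_, ?_⟩
    · refine Metric.isCompact_of_isClosed_isBounded (hcl N) ?_
      · refine (Metric.isBounded_closedBall (x := (0 : ℝ)) (r := N)).subset ?_
        intro t ht
        rw [mem_closedBall, Real.dist_eq, sub_zero]
        exact ht.1
    · intro t ht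
      by_contra hc
      have h0 : dd f (t : ℂ) = 0 := infDist_zero_of_mem hc
      have h1 : (0 : ℝ) < 1 / ((N : ℝ) + 1) := by positivity
      have h2 := ht.2
      rw [h0] at h2
      linarith
  have hmono : Monotone E := by
    intro m n hmn t ht
    have hmn' : (m : ℝ) ≤ n := by exact_mod_cast hmn
    refine ⟨ht.1.trans hmn', le_trans ?_ ht.2⟩
    exact one_div_le_one_div_of_le (by positivity) (by linarith)
  set G : ℕ → Set ℝ := fun N => E N ∩ (fun t : ℝ => ‖deriv F (t : ℂ)‖) ⁻¹' (Ici Λ) with hGd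
  have hGcl : ∀ N, IsClosed (G N) := by
    intro N
    refine ContinuousOn.preimage_isClosed_of_isClosed ?_ (hcl N) isClosed_Ici
    refine ContinuousOn.norm ?_
    exact h.derivF_cont.comp Complex.continuous_ofReal.continuousOn (fun t ht => (hcpt N).sub t ht)
  have hGc : ∀ N, Cp f (G N) := fun N =>
    ⟨(hcpt N).cpt.of_isClosed_subset (hGcl N) inter_subset_left, fun t ht => (hcpt N).sub t ht.1⟩
  have hGm : Monotone G := fun m n hmn => inter_subset_inter_left _ (hmono hmn)
  have hun : {t : ℝ | (t : ℂ) ∈ Om f ∧ Λ ≤ ‖deriv F t‖} = ⋃ N, G N := by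
    ext t
    constructor
    · rintro ⟨ht, htΛ⟩
      have hdp : 0 < dd f (t : ℂ) := h.dd_pos ht
      obtain ⟨n, hn⟩ := exists_nat_gt (max |t| (1 / dd f (t : ℂ)))
      refine mem_iUnion.2 ⟨n, ⟨((le_max_left _ _).trans hn.le), ?_⟩, htΛ⟩
      have h1 : 1 / dd f (t : ℂ) ≤ (n : ℝ) + 1 := by
        have := (le_max_right |t| (1 / dd f (t : ℂ))).trans hn.le
        linarith
      rw [div_le_iff₀ hdp] at h1
      rw [div_le_iff₀ (by positivity)]
      linarith
    · intro ht
      obtain ⟨n, hn⟩ := mem_iUnion.1 ht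
      exact ⟨(hGc n).sub t hn, hn.2⟩
  rw [hun, hGm.measure_iUnion]
  refine iSup_le fun N => ?_
  have h1 := h.wk hq hβ (hGc N) hΛ (fun t ht => ht.2)
  have h2 : ENNReal.ofReal Λ * volume (G N) ≤ ∫⁻ t in G N, ENNReal.ofReal ‖deriv F t‖ := by
    rw [← setLIntegral_const]
    exact setLIntegral_mono' (hGcl N).measurableSet fun t ht => ENNReal.ofReal_le_ofReal ht.2
  have h3 : 800000 * (‖q 0‖ * M ^ (1 / β)) * Λ ^ (-(1 + 1 / β)) =
      800000 * (‖q 0‖ * M ^ (1 / β)) * Λ ^ (-(1 / β)) / Λ := by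
    have h4 : Λ ^ (-(1 + 1 / β)) = Λ ^ (-(1 / β)) / Λ := by
      rw [show -(1 + 1 / β) = -(1 / β) - 1 by ring, Real.rpow_sub_one hΛ.ne']
    rw [h4]
    ring
  rw [h3, ENNReal.ofReal_div_of_pos hΛ, ENNReal.le_div_iff_mul_le (Or.inl (by simpa using hΛ)) (Or.inl ENNReal.ofReal_ne_top),
    mul_comm]
  exact h2.trans h1

end Pool.Agent.H.MP_215299_an.CC
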