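import Pool.Agent.H.MP_215299_an.CC.QC

/-!
CC, module QE: the integral of the powers, compact sets, with a uniform constant.
-/

set_option autoImplicit false

open Complex Metric Set MeasureTheory Filter Topology InnerProductSpace
open scoped ComplexConjugate ENNReal

namespace Pool.Agent.H.MP_215299_an.CC

private theorem QE_pow {x p : ℝ} (hx : 0 ≤ x) (hp : 1 ≤ p) {L : ℝ} (hL : x ≤ L) :
    x ^ p ≤ L ^ (p - 1) * x := by
  rcases hx.eq_or_lt with h0 | h0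
  · rw [← h0, Real.zero_rpow (by linarith), mul_zero]
  · calc x ^ p = x ^ (p - 1) * x := by
          conv_lhs => rw [show p = (p - 1) + 1 by ring]
          rw [Real.rpow_add h0, Real.rpow_one]
      _ ≤ L ^ (p - 1) * x :=
          mul_le_mul_of_nonneg_right (Real.rpow_le_rpow hx hL (by linarith)) hx

private theorem QE_int {φ : ℝ → ℝ} {p L K : ℝ} (hφ : ∀ t, 0 ≤ φ t) (hp : 1 ≤ p) (hL : 0 ≤ L) {E : Set ℝ}
    (hE : MeasurableSet E) (hb : ∀ t ∈ E, φ t ≤ L)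
    (hi : ∫⁻ t in E, ENNReal.ofReal (φ t) ≤ ENNReal.ofReal K) :
    ∫⁻ t in E, ENNReal.ofReal (φ t ^ p) ≤ ENNReal.ofReal (L ^ (p - 1) * K) := by
  have hL0 : 0 ≤ L ^ (p - 1) := Real.rpow_nonneg hL _
  calc ∫⁻ t in E, ENNReal.ofReal (φ t ^ p)
      ≤ ∫⁻ t in E, ENNReal.ofReal (L ^ (p - 1)) * ENNReal.ofReal (φ t) := by
        refine setLIntegral_mono' hE fun t ht => ?_
        rw [← ENNReal.ofReal_mul hL0]
        exact ENNReal.ofReal_le_ofReal (QE_pow (hφ t) hp (hb t ht))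
    _ = ENNReal.ofReal (L ^ (p - 1)) * ∫⁻ t in E, ENNReal.ofReal (φ t) :=
        lintegral_const_mul' _ _ ENNReal.ofReal_ne_top
    _ ≤ ENNReal.ofReal (L ^ (p - 1)) * ENNReal.ofReal K := by gcongr
    _ = ENNReal.ofReal (L ^ (p - 1) * K) := (ENNReal.ofReal_mul hL0).symm

/-- PROOF: (compare the proof of `Uni.cpt_bound` in CC/IntB1.) `E` is the union of `{‖F'‖ ≤ 1}` and of `{2^k ≤ ‖F'‖ ≤ 2^{k+1}}`, `k ≥ 0`, all compact
(`Uni.derivF_cont`). First piece: `‖F'‖^p ≤ ‖F'‖`, `Uni.len`, `Uni.hw`: `≤ 400000`. Piece `k`: `‖F'‖^p ≤ 2^{(k+1)(p-1)} ‖F'‖`, `Uni.wk` with `Λ = 2^k`: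
`≤ 2^{(k+1)(p-1)} * 800000 * A * 2^{-k/β}`. Geometric series with ratio `2^{(p-1) - 1/β} < 1`; the constant depends only on `β`, `p`, `A`. -/
theorem sum_bd {β p A : ℝ} (hβ : 0 < β) (hp : 1 ≤ p) (hp2 : p < 1 + 1 / β) (hA : 0 ≤ A) :
    ∃ C : ℝ≥0∞, C < ⊤ ∧ ∀ (f F q : ℂ → ℂ) (M : ℝ), Uni f F → Qm f q β M → ‖q 0‖ * M ^ (1 / β) ≤ A →
      ∀ E : Set ℝ, Cp f E → ∫⁻ t in E, ENNReal.ofReal (‖deriv F t‖ ^ p) ≤ C := by
  set ρ : ℝ := (2 : ℝ) ^ ((p - 1) - 1 / β) with hρ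
  have hρ0 : 0 ≤ ρ := Real.rpow_nonneg two_pos.le _
  have hρ1 : ρ < 1 := Real.rpow_lt_one_of_one_lt_of_neg one_lt_two (by linarith)
  set c : ℝ := (2 : ℝ) ^ (p - 1) * (800000 * A) with hc
  have hc0 : 0 ≤ c := by positivity
  have hsum : Summable fun k : ℕ => c * ρ ^ k := (summable_geometric_of_lt_one hρ0 hρ1).mul_left c
  refine ⟨ENNReal.ofReal 400000 + ∑' k : ℕ, ENNReal.ofReal (c * ρ ^ k), ?_, ?_⟩
  · rw [← ENNReal.ofReal_tsum_of_nonneg (fun k => mul_nonneg hc0 (pow_nonneg hρ0 k)) hsum]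
    exact ENNReal.add_lt_top.2 ⟨ENNReal.ofReal_lt_top, ENNReal.ofReal_lt_top⟩
  intro f F q M h hq hqA E hE
  have hφ : ContinuousOn (fun t : ℝ => ‖deriv F t‖) E :=
    (h.derivF_cont.comp Complex.continuous_ofReal.continuousOn fun t ht => hE.sub t ht).norm
  have hEc : IsClosed E := hE.cpt.isClosed
  have hpc : ∀ B : Set ℝ, IsClosed B → Cp f (E ∩ (fun t : ℝ => ‖deriv F t‖) ⁻¹' B) := fun B hB =>
    ⟨hE.cpt.of_isClosed_subset (hφ.preimage_isClosed_of_isClosed hEc hB) inter_subset_left,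
      fun t ht => hE.sub t ht.1⟩
  set E0 : Set ℝ := E ∩ (fun t : ℝ => ‖deriv F t‖) ⁻¹' Iic 1 with hE0
  set Ek : ℕ → Set ℝ := fun k => E ∩ (fun t : ℝ => ‖deriv F t‖) ⁻¹' Icc (2 ^ k) (2 ^ (k + 1)) with hEk
  have hcov : E ⊆ E0 ∪ ⋃ k, Ek k := by
    intro t ht
    rcases le_or_gt ‖deriv F t‖ 1 with h1 | h1
    · exact Or.inl ⟨ht, h1⟩
    · obtain ⟨k, hk1, hk2⟩ := exists_nat_pow_near h1.le (one_lt_two : (1 : ℝ) < 2)
      exact Or.inr (mem_iUnion.2 ⟨k, ht, hk1, hk2.le⟩)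
  have hp0 : ∫⁻ t in E0, ENNReal.ofReal (‖deriv F t‖ ^ p) ≤ ENNReal.ofReal 400000 := by
    have hcp : Cp f E0 := hpc (Iic 1) isClosed_Iic
    have h1 : ∫⁻ t in E0, ENNReal.ofReal ‖deriv F t‖ ≤ ENNReal.ofReal 400000 := by
      refine (h.len hcp).trans (ENNReal.ofReal_le_ofReal ?_)
      have h2 : potz f F E0 (f 0) ≤ 200000 := h.hw hcp (f 0)
      linarith
    have h3 := QE_int (φ := fun t : ℝ => ‖deriv F t‖) (fun t => norm_nonneg _) hp zero_le_one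
      hcp.cpt.isClosed.measurableSet (fun t ht => ht.2) h1
    rwa [Real.one_rpow, one_mul] at h3
  have hpk : ∀ k, ∫⁻ t in Ek k, ENNReal.ofReal (‖deriv F t‖ ^ p) ≤ ENNReal.ofReal (c * ρ ^ k) := by
    intro k
    have hL : (0 : ℝ) ≤ 2 ^ (k + 1) := by positivity
    have hΛ : (0 : ℝ) < 2 ^ k := by positivity
    have hcp : Cp f (Ek k) := hpc (Icc (2 ^ k) (2 ^ (k + 1))) isClosed_Icc
    have hΛ0 : (0 : ℝ) ≤ ((2 : ℝ) ^ k) ^ (-(1 / β)) := Real.rpow_nonneg hΛ.le _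
    have h1 : ∫⁻ t in Ek k, ENNReal.ofReal ‖deriv F t‖ ≤
        ENNReal.ofReal (800000 * A * ((2 : ℝ) ^ k) ^ (-(1 / β))) := by
      refine (h.wk hq hβ hcp hΛ (fun t ht => ht.2.1)).trans (ENNReal.ofReal_le_ofReal ?_)
      exact mul_le_mul_of_nonneg_right (mul_le_mul_of_nonneg_left hqA (by norm_num)) hΛ0
    refine (QE_int (φ := fun t : ℝ => ‖deriv F t‖) (fun t => norm_nonneg _) hp hL
      hcp.cpt.isClosed.measurableSet (fun t ht => ht.2.2) h1).trans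
      (ENNReal.ofReal_le_ofReal (le_of_eq ?_))
    have h3 : ((2 : ℝ) ^ (k + 1)) ^ (p - 1) = (2 : ℝ) ^ (p - 1) * (2 : ℝ) ^ ((k : ℝ) * (p - 1)) := by
      rw [← Real.rpow_natCast, ← Real.rpow_mul two_pos.le, ← Real.rpow_add two_pos]
      congr 1
      push_cast
      ring
    have h4 : ((2 : ℝ) ^ k) ^ (-(1 / β)) = (2 : ℝ) ^ ((k : ℝ) * (-(1 / β))) := by
      rw [← Real.rpow_natCast, ← Real.rpow_mul two_pos.le]
    have h5 : ρ ^ k = (2 : ℝ) ^ ((k : ℝ) * (p - 1)) * (2 : ℝ) ^ ((k : ℝ) * (-(1 / β))) := by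
      rw [hρ, ← Real.rpow_natCast, ← Real.rpow_mul two_pos.le, ← Real.rpow_add two_pos]
      congr 1
      ring
    rw [h3, h4, h5, hc]
    ring
  calc ∫⁻ t in E, ENNReal.ofReal (‖deriv F t‖ ^ p)
      ≤ ∫⁻ t in E0 ∪ ⋃ k, Ek k, ENNReal.ofReal (‖deriv F t‖ ^ p) := lintegral_mono_set hcov
    _ ≤ (∫⁻ t in E0, ENNReal.ofReal (‖deriv F t‖ ^ p)) +
        ∫⁻ t in ⋃ k, Ek k, ENNReal.ofReal (‖deriv F t‖ ^ p) := lintegral_union_le _ _ _
    _ ≤ (∫⁻ t in E0, ENNReal.ofReal (‖deriv F t‖ ^ p)) +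
        ∑' k, ∫⁻ t in Ek k, ENNReal.ofReal (‖deriv F t‖ ^ p) := by
          gcongr
          exact lintegral_iUnion_le _ _
    _ ≤ _ := add_le_add hp0 (ENNReal.tsum_le_tsum hpk)

end Pool.Agent.H.MP_215299_an.CC
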