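import Pool.Agent.H.MP_215299_an.CC.QD
import Pool.Agent.H.MP_215299_an.CC.QE

/-!
CC, module QF: all lines, with uniform constants.
-/

set_option autoImplicit false

open Complex Metric Set MeasureTheory Filter Topology InnerProductSpace
open scoped ComplexConjugate ENNReal

namespace Pool.Agent.H.MP_215299_an.CC

/-- The real line. PROOF: the compact exhaustion as in `Uni.line_int` (CC/IntB2) and `sum_bd`. -/
theorem sum_line {β p A : ℝ} (hβ : 0 < β) (hp : 1 ≤ p) (hp2 : p < 1 + 1 / β) (hA : 0 ≤ A) :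
    ∃ C : ℝ≥0∞, C < ⊤ ∧ ∀ (f F q : ℂ → ℂ) (M : ℝ), Uni f F → Qm f q β M → ‖q 0‖ * M ^ (1 / β) ≤ A →
      ∫⁻ t in {t : ℝ | (t : ℂ) ∈ Om f}, ENNReal.ofReal (‖deriv F t‖ ^ p) ≤ C := by
  obtain ⟨C, hC, hE⟩ := sum_bd hβ hp hp2 hA
  refine ⟨C, hC, fun f F q M h hq hAq => ?_⟩
  set E : ℕ → Set ℝ := fun N => {t : ℝ | |t| ≤ N ∧ 1 / ((N : ℝ) + 1) ≤ dd f (t : ℂ)} with hEd
  have hcpt : ∀ N, Cp f (E N) := by
    intro N
    refine ⟨?_, ?_⟩
    · refine Metric.isCompact_of_isClosed_isBounded ?_ ?_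
      · exact (isClosed_le continuous_abs continuous_const).inter
          (isClosed_le continuous_const ((dd_cont f).comp Complex.continuous_ofReal))
      · refine (Metric.isBounded_closedBall (x := (0 : ℝ)) (r := N)).subset ?_
        intro t ht
        rw [mem_closedBall, Real.dist_eq, sub_zero]
        exact ht.1
    · intro t ht
      by_contra hc
      have h0 : dd f (t : ℂ) = 0 := infDist_zero_of_mem hc
      have h1 : (0 : ℝ) < 1 / ((N : ℝ) + 1) := by positivity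
      have h2 := ht.2
      rw [h0] at h2
      linarith
  have hmono : Monotone E := by
    intro m n hmn t ht
    have hmn' : (m : ℝ) ≤ n := by exact_mod_cast hmn
    refine ⟨ht.1.trans hmn', le_trans ?_ ht.2⟩
    exact one_div_le_one_div_of_le (by positivity) (by linarith)
  have hun : {t : ℝ | (t : ℂ) ∈ Om f} = ⋃ N, E N := by
    ext t
    constructor
    · intro ht
      have hdp : 0 < dd f (t : ℂ) := h.dd_pos ht
      obtain ⟨n, hn⟩ := exists_nat_gt (max |t| (1 / dd f (t : ℂ)))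
      refine mem_iUnion.2 ⟨n, ((le_max_left _ _).trans hn.le), ?_⟩
      have h1 : 1 / dd f (t : ℂ) ≤ (n : ℝ) + 1 := by
        have := (le_max_right |t| (1 / dd f (t : ℂ))).trans hn.le
        linarith
      rw [div_le_iff₀ hdp] at h1
      rw [div_le_iff₀ (by positivity)]
      linarith
    · intro ht
      obtain ⟨n, hn⟩ := mem_iUnion.1 ht
      exact (hcpt n).sub t hn
  rw [hun, setLIntegral_iUnion_of_directed _ hmono.directed_le]
  exact iSup_le fun n => hE f F q M h hq hAq (E n) (hcpt n)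

/-- PROOF: as in CC/Fin2. -/
theorem Uni.move {f F : ℂ → ℂ} (h : Uni f F) (a u : ℂ) (hu : ‖u‖ = 1) :
    Uni (fun z => (f z - a) / u) (fun w => F (a + u * w)) ∧
      {t : ℝ | (t : ℂ) ∈ Om (fun z => (f z - a) / u)} = {t : ℝ | a + t * u ∈ Om f} ∧
      (∀ t : ℝ, ‖deriv (fun w => F (a + u * w)) (t : ℂ)‖ = ‖deriv F (a + t * u)‖) ∧
      ∀ (q : ℂ → ℂ) (β M : ℝ), Qm f q β M → Qm (fun z => (f z - a) / u) q β M := by
  have hu0 : u ≠ 0 := by
    intro e
    rw [e, norm_zero] at hu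
    exact zero_ne_one hu
  have hdf : ∀ z : ℂ, deriv (fun z => (f z - a) / u) z = deriv f z / u := by
    intro z
    rw [deriv_div_const, deriv_sub_const]
  refine ⟨?_, ?_, ?_, ?_⟩
  · refine ⟨(h.diff.sub_const a).div_const u, ?_, ?_⟩
    · intro x hx y hy e
      have e1 : (f x - a) / u = (f y - a) / u := e
      rw [div_left_inj' hu0] at e1
      exact h.inj hx hy (sub_left_injective e1)
    · intro z hz
      show F (a + u * ((f z - a) / u)) = z
      rw [mul_div_cancel₀ _ hu0, add_sub_cancel, h.inv z hz]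
  · ext t
    constructor
    · rintro ⟨z, hz, e⟩
      refine ⟨z, hz, ?_⟩
      have e1 : (f z - a) / u = t := e
      rw [div_eq_iff hu0] at e1
      rw [← e1]; ring
    · rintro ⟨z, hz, e⟩
      refine ⟨z, hz, ?_⟩
      show (f z - a) / u = t
      rw [div_eq_iff hu0, e]; ring
  · intro t
    have e1 : deriv (fun w => F (a + u * w)) (t : ℂ) = u * deriv F (a + u * t) := by
      have e2 := deriv_comp_mul_left u (fun w => F (a + w)) (t : ℂ)
      rw [deriv_comp_const_add, smul_eq_mul] at e2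
      exact e2
    rw [e1, norm_mul, hu, one_mul, mul_comm u]
  · intro q β M hq
    refine ⟨hq.an, hq.ne, hq.re, fun z hz => ?_, hq.pos⟩
    rw [hdf z, norm_div, hu, div_one]
    exact hq.le z hz

/-- PROOF: `sum_line` and `Uni.move`. -/
theorem sum_lines {β p A : ℝ} (hβ : 0 < β) (hp : 1 ≤ p) (hp2 : p < 1 + 1 / β) (hA : 0 ≤ A) :
    ∃ C : ℝ≥0∞, C < ⊤ ∧ ∀ (f F q : ℂ → ℂ) (M : ℝ), Uni f F → Qm f q β M → ‖q 0‖ * M ^ (1 / β) ≤ A →
      ∀ a u : ℂ, ‖u‖ = 1 →
      ∫⁻ t in {t : ℝ | a + t * u ∈ Om f}, ENNReal.ofReal (‖deriv F (a + t * u)‖ ^ p) ≤ C := by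
  obtain ⟨C, hC, hE⟩ := sum_line hβ hp hp2 hA
  refine ⟨C, hC, fun f F q M h hq hAq a u hu => ?_⟩
  obtain ⟨h1, h2, h3, h4⟩ := h.move a u hu
  have key := hE _ _ q M h1 (h4 q β M hq) hAq
  rw [h2] at key
  simpa only [h3] using key

/-- PROOF: `Uni.wk_vol` and `Uni.move`. -/
theorem wk_lines {f F q : ℂ → ℂ} {β M : ℝ} (h : Uni f F) (hq : Qm f q β M) (hβ : 0 < β) {a u : ℂ} (hu : ‖u‖ = 1)
    {Λ : ℝ} (hΛ : 0 < Λ) :
    volume {t : ℝ | a + t * u ∈ Om f ∧ Λ ≤ ‖deriv F (a + t * u)‖} ≤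
      ENNReal.ofReal (800000 * (‖q 0‖ * M ^ (1 / β)) * Λ ^ (-(1 + 1 / β))) := by
  obtain ⟨h1, h2, h3, h4⟩ := h.move a u hu
  have key := h1.wk_vol (h4 q β M hq) hβ hΛ
  have e : {t : ℝ | a + t * u ∈ Om f ∧ Λ ≤ ‖deriv F (a + t * u)‖} =
      {t : ℝ | (t : ℂ) ∈ Om (fun z => (f z - a) / u) ∧ Λ ≤ ‖deriv (fun w => F (a + u * w)) (t : ℂ)‖} := by
    ext t
    have e1 : t ∈ {t : ℝ | (t : ℂ) ∈ Om (fun z => (f z - a) / u)} ↔ t ∈ {t : ℝ | a + t * u ∈ Om f} := by
      rw [h2]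
    constructor
    · rintro ⟨ha, hb⟩
      refine ⟨e1.2 ha, ?_⟩
      rw [h3 t]; exact hb
    · rintro ⟨ha, hb⟩
      refine ⟨e1.1 ha, ?_⟩
      rw [h3 t] at hb; exact hb
  rw [e]
  exact key

end Pool.Agent.H.MP_215299_an.CC
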