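import Pool.Agent.H.MP_215299_an.CC.QA
import Pool.Agent.H.MP_215299_an.CC.Cv

/-!
CC, module QG: close-to-convex functions of order `β` satisfy `Qm`.
-/

set_option autoImplicit false

open Complex Metric Set MeasureTheory Filter Topology InnerProductSpace
open scoped ComplexConjugate ENNReal

namespace Pool.Agent.H.MP_215299_an.CC

/-- PROOF: `q z = exp (- ℓ z / β)`, `M = 4 / ‖g'(0)‖`. `‖f'‖⁻¹ = ‖g'‖⁻¹ exp (- Re ℓ)`, `‖g' z‖ ≥ ‖g'(0)‖ / 4` (`Cvx.lower`), `‖q‖^β = exp (- Re ℓ)`;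
`Re q = exp (- Re ℓ / β) cos (Im ℓ / β) ≥ 0`; `‖q 0‖ * M^{1/β} = (4 exp (- Re ℓ 0) / ‖g'(0)‖)^{1/β} = (4 / ‖f'(0)‖)^{1/β}`. -/
theorem Cvx.qm {f g ℓ : ℂ → ℂ} {β : ℝ} (hg : Cvx g) (hβ : 0 < β) (hℓ : DifferentiableOn ℂ ℓ (ball 0 1))
    (he : ∀ z ∈ ball (0 : ℂ) 1, deriv f z = deriv g z * exp (ℓ z))
    (hi : ∀ z ∈ ball (0 : ℂ) 1, |(ℓ z).im| ≤ β * Real.pi / 2) :
    ∃ (q : ℂ → ℂ) (M : ℝ), Qm f q β M ∧ ‖q 0‖ * M ^ (1 / β) = (4 / ‖deriv f 0‖) ^ (1 / β) := by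
  have h0 : (0 : ℂ) ∈ ball (0 : ℂ) 1 := mem_ball_self one_pos
  have hg0 : 0 < ‖deriv g 0‖ := norm_pos_iff.2 (hg.ne 0 h0)
  have hre : ∀ z : ℂ, (-ℓ z / (β : ℂ)).re = -(ℓ z).re / β := by
    intro z; rw [Complex.div_ofReal_re, Complex.neg_re]
  have him : ∀ z : ℂ, (-ℓ z / (β : ℂ)).im = -(ℓ z).im / β := by
    intro z; rw [Complex.div_ofReal_im, Complex.neg_im]
  have hq : ∀ z : ℂ, ‖exp (-ℓ z / (β : ℂ))‖ = Real.exp (-(ℓ z).re / β) := by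
    intro z; rw [Complex.norm_exp, hre]
  have hqβ : ∀ z : ℂ, ‖exp (-ℓ z / (β : ℂ))‖ ^ β = Real.exp (-(ℓ z).re) := by
    intro z
    rw [hq, ← Real.exp_mul, div_mul_cancel₀ _ hβ.ne']
  refine ⟨fun z => exp (-ℓ z / (β : ℂ)), 4 / ‖deriv g 0‖, ⟨?_, ?_, ?_, ?_, ?_⟩, ?_⟩
  · intro z hz
    have ha : AnalyticAt ℂ ℓ z := hℓ.analyticAt (isOpen_ball.mem_nhds hz)
    exact (ha.neg.div_const).cexp
  · intro z _
    exact exp_ne_zero _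
  · intro z hz
    show 0 ≤ (exp (-ℓ z / (β : ℂ))).re
    rw [Complex.exp_re, him]
    refine mul_nonneg (Real.exp_pos _).le (Real.cos_nonneg_of_mem_Icc ?_)
    have h1 := abs_le.1 (hi z hz)
    constructor
    · rw [neg_div, neg_le_neg_iff, div_le_iff₀ hβ]
      linarith [h1.2]
    · rw [neg_div, neg_le, ← neg_div, le_div_iff₀ hβ]
      linarith [h1.1]
  · intro z hz
    show ‖deriv f z‖⁻¹ ≤ 4 / ‖deriv g 0‖ * ‖exp (-ℓ z / (β : ℂ))‖ ^ β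
    rw [hqβ, he z hz, norm_mul, Complex.norm_exp, mul_inv, ← Real.exp_neg]
    refine mul_le_mul_of_nonneg_right ?_ (Real.exp_pos _).le
    rw [← inv_div]
    exact inv_anti₀ (by positivity) (hg.lower hz)
  · positivity
  · show ‖exp (-ℓ 0 / (β : ℂ))‖ * (4 / ‖deriv g 0‖) ^ (1 / β) = (4 / ‖deriv f 0‖) ^ (1 / β)
    have h1 : ‖exp (-ℓ 0 / (β : ℂ))‖ = (Real.exp (-(ℓ 0).re)) ^ (1 / β) := by
      rw [hq, ← Real.exp_mul]
      congr 1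
      ring
    rw [h1, ← Real.mul_rpow (Real.exp_pos _).le (by positivity), he 0 h0, norm_mul, Complex.norm_exp]
    congr 1
    rw [Real.exp_neg]
    field_simp

end Pool.Agent.H.MP_215299_an.CC
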