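import Pool.Agent.H.MP_215299_an.CC.QA

/-!
CC, module QH: spirallike functions satisfy `Qm`.
-/

set_option autoImplicit false

open Complex Metric Set MeasureTheory Filter Topology InnerProductSpace
open scoped ComplexConjugate ENNReal

namespace Pool.Agent.H.MP_215299_an.CC

/-- The lower growth bound. PROOF: by the theorem of Koebe (`H65K.shift` at `0`) `F` maps `ball 0 (‖f'(0)‖/4)` into the unit disc, `F 0 = 0`, so by the
lemma of Schwarz `‖F w‖ ≤ 4 ‖w‖ / ‖f'(0)‖` for `‖w‖ < ‖f'(0)‖/4`. If `‖f z‖ < ‖f'(0)‖/4` take `w = f z`; otherwise `‖z‖ < 1`. -/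
theorem Uni.low {f F : ℂ → ℂ} (h : Uni f F) (h0 : f 0 = 0) {z : ℂ} (hz : z ∈ ball (0 : ℂ) 1) :
    ‖deriv f 0‖ * ‖z‖ / 4 ≤ ‖f z‖ := by
  have hz0 : (0 : ℂ) ∈ ball (0 : ℂ) 1 := mem_ball_self one_pos
  have hne : deriv f 0 ≠ 0 := (H65K.deriv_inv isOpen_ball h.diff h.inj h.inv hz0).1
  obtain ⟨R, hR⟩ : ∃ R : ℝ, R = ‖deriv f 0‖ / 4 := ⟨_, rfl⟩
  have hRpos : 0 < R := by
    rw [hR]
    have := norm_pos_iff.2 hne
    positivity
  have hz1 : ‖z‖ < 1 := mem_ball_zero_iff.1 hz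
  have hgoal : ‖deriv f 0‖ * ‖z‖ / 4 = R * ‖z‖ := by rw [hR]; ring
  rw [hgoal]
  by_cases hw : ‖f z‖ < R
  · have hsub : ball (0 : ℂ) R ⊆ Om f := by
      have h1 := H65K.shift h.diff h.inj hz0
      rw [h0, norm_zero] at h1
      have h2 : (1 - (0 : ℝ) ^ 2) * ‖deriv f 0‖ / 4 = R := by rw [hR]; ring
      rw [h2] at h1
      exact h1
    have hF0 : F 0 = 0 := by
      have h1 := h.inv 0 hz0
      rwa [h0] at h1
    have hmaps : MapsTo F (ball (0 : ℂ) R) (closedBall (F 0) 1) := by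
      intro w hw
      rw [hF0, mem_closedBall_zero_iff]
      exact (h.maps (hsub hw)).1.le
    have h1 := Complex.dist_le_div_mul_dist_of_mapsTo_ball (h.diffF.mono hsub) hmaps
      (mem_ball_zero_iff.2 hw)
    rw [h.inv z hz, hF0, dist_zero_right, dist_zero_right] at h1
    have h2 : R * ‖z‖ ≤ R * (1 / R * ‖f z‖) := mul_le_mul_of_nonneg_left h1 hRpos.le
    have h3 : R * (1 / R * ‖f z‖) = ‖f z‖ := by
      field_simp
    rw [h3] at h2
    exact h2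
  · have h1 : R ≤ ‖f z‖ := not_lt.1 hw
    nlinarith [norm_nonneg z]

/-- PROOF: `q z = exp (- i τ) * dslope f 0 z / deriv f z` (so `q z = exp (- i τ) f z / (z f' z)` for `z ≠ 0`, `q 0 = exp (- i τ)`), `M = 4 / ‖f'(0)‖`;
`Re (1/w) ≥ 0` for `Re w > 0`; `‖z / f z‖ ≤ 4 / ‖f'(0)‖` by `Uni.low`; `f' ≠ 0` by `Uni.derivF` or `H65K.deriv_inv`; `dslope f 0` is analytic in
the disc and has no zero (`f` is injective, `f'(0) ≠ 0`). -/
theorem Uni.spiral {f F : ℂ → ℂ} (h : Uni f F) (h0 : f 0 = 0) {τ : ℝ} (hτ : |τ| < Real.pi / 2)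
    (hs : ∀ z ∈ ball (0 : ℂ) 1, z ≠ 0 → 0 < (exp (τ * I) * (z * deriv f z / f z)).re) :
    ∃ (q : ℂ → ℂ) (M : ℝ), Qm f q 1 M ∧ ‖q 0‖ * M = 4 / ‖deriv f 0‖ := by
  have hz0 : (0 : ℂ) ∈ ball (0 : ℂ) 1 := mem_ball_self one_pos
  have hne : ∀ z ∈ ball (0 : ℂ) 1, deriv f z ≠ 0 := fun z hz =>
    (H65K.deriv_inv isOpen_ball h.diff h.inj h.inv hz).1
  have hpos0 : 0 < ‖deriv f 0‖ := norm_pos_iff.2 (hne 0 hz0)
  have hfz : ∀ z ∈ ball (0 : ℂ) 1, z ≠ 0 → f z ≠ 0 := by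
    intro z hz hz2 hfz
    exact hz2 (h.inj hz hz0 (hfz.trans h0.symm))
  have hds : ∀ z : ℂ, z ≠ 0 → dslope f 0 z = f z / z := by
    intro z hz
    rw [dslope_of_ne _ hz, slope_def_field, h0, sub_zero, sub_zero]
  have hds0 : dslope f 0 0 = deriv f 0 := dslope_same f 0
  have hdsne : ∀ z ∈ ball (0 : ℂ) 1, dslope f 0 z ≠ 0 := by
    intro z hz
    by_cases hz2 : z = 0
    · rw [hz2, hds0]
      exact hne 0 hz0
    · rw [hds z hz2]
      exact div_ne_zero (hfz z hz hz2) hz2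
  have hdiff : DifferentiableOn ℂ (dslope f 0) (ball (0 : ℂ) 1) :=
    (Complex.differentiableOn_dslope (ball_mem_nhds (0 : ℂ) one_pos)).2 h.diff
  have hen : ‖exp (-(τ * I))‖ = 1 := by
    have h1 : -((τ : ℂ) * I) = ((-τ : ℝ) : ℂ) * I := by push_cast; ring
    rw [h1, Complex.norm_exp_ofReal_mul_I]
  refine ⟨fun z => exp (-(τ * I)) * dslope f 0 z / deriv f z, 4 / ‖deriv f 0‖,
    ⟨fun z hz => ?_, fun z hz => ?_, fun z hz => ?_, fun z hz => ?_, by positivity⟩, ?_⟩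
  · have h1 : AnalyticAt ℂ (dslope f 0) z := hdiff.analyticAt (isOpen_ball.mem_nhds hz)
    have h2 : AnalyticAt ℂ (deriv f) z := (h.diff.analyticAt (isOpen_ball.mem_nhds hz)).deriv
    exact (analyticAt_const.mul h1).div h2 (hne z hz)
  · exact div_ne_zero (mul_ne_zero (exp_ne_zero _) (hdsne z hz)) (hne z hz)
  · show 0 ≤ (exp (-(τ * I)) * dslope f 0 z / deriv f z).re
    by_cases hz2 : z = 0
    · rw [hz2, hds0, mul_div_assoc, div_self (hne 0 hz0), mul_one]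
      have h1 : -((τ : ℂ) * I) = ((-τ : ℝ) : ℂ) * I := by push_cast; ring
      rw [h1, Complex.exp_ofReal_mul_I_re, Real.cos_neg]
      rw [abs_lt] at hτ
      exact Real.cos_nonneg_of_mem_Icc ⟨by linarith [hτ.1], by linarith [hτ.2]⟩
    · have h1 : exp (-(τ * I)) * dslope f 0 z / deriv f z =
          (exp (τ * I) * (z * deriv f z / f z))⁻¹ := by
        rw [hds z hz2, Complex.exp_neg, mul_inv, inv_div]
        have h2 := hne z hz
        have h3 := exp_ne_zero ((τ : ℂ) * I)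
        field_simp
      rw [h1, Complex.inv_re]
      exact div_nonneg (hs z hz hz2).le (Complex.normSq_nonneg _)
  · have h1 : ‖deriv f 0‖ / 4 ≤ ‖dslope f 0 z‖ := by
      by_cases hz2 : z = 0
      · rw [hz2, hds0]
        linarith
      · rw [hds z hz2, norm_div, le_div_iff₀ (norm_pos_iff.2 hz2)]
        have h2 := h.low h0 hz
        linarith
    have h2 : 1 ≤ 4 / ‖deriv f 0‖ * ‖dslope f 0 z‖ := by
      calc (1 : ℝ) = 4 / ‖deriv f 0‖ * (‖deriv f 0‖ / 4) := by field_simp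
        _ ≤ _ := mul_le_mul_of_nonneg_left h1 (by positivity)
    have h3 : 0 < ‖deriv f z‖ := norm_pos_iff.2 (hne z hz)
    rw [Real.rpow_one, norm_div, norm_mul, hen, one_mul, ← mul_div_assoc, inv_eq_one_div]
    exact div_le_div_of_nonneg_right h2 h3.le
  · show ‖exp (-(τ * I)) * dslope f 0 0 / deriv f 0‖ * (4 / ‖deriv f 0‖) = 4 / ‖deriv f 0‖
    rw [hds0, mul_div_assoc, div_self (hne 0 hz0), mul_one, hen, one_mul]

end Pool.Agent.H.MP_215299_an.CC
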