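import Pool.Agent.H.MP_215299_an.CC.QH

/-!
CC, module QI: strongly spirallike functions of order `β` satisfy `Qm` with this `β`.
-/

set_option autoImplicit false

open Complex Metric Set MeasureTheory Filter Topology InnerProductSpace
open scoped ComplexConjugate ENNReal

namespace Pool.Agent.H.MP_215299_an.CC

/-- If `q` is in the sector `|arg q| ≤ β π / 2`, then `q ^ (1/β)` is a weight for the exponent `β`. -/
theorem Qm.root {f q : ℂ → ℂ} {β M : ℝ} (hq : Qm f q 1 M) (hβ : 0 < β) (hβ1 : β ≤ 1)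
    (ha : ∀ z ∈ ball (0 : ℂ) 1, |(q z).arg| ≤ β * Real.pi / 2) :
    Qm f (fun z => exp (((1 / β : ℝ) : ℂ) * log (q z))) β M ∧
      ‖exp (((1 / β : ℝ) : ℂ) * log (q 0))‖ * M ^ (1 / β) = (‖q 0‖ * M) ^ (1 / β) := by
  have hpi := Real.pi_pos
  have hn : ∀ z ∈ ball (0 : ℂ) 1, ‖exp (((1 / β : ℝ) : ℂ) * log (q z))‖ = ‖q z‖ ^ (1 / β) := by
    intro z hz
    have hp : 0 < ‖q z‖ := norm_pos_iff.2 (hq.ne z hz)
    rw [Complex.norm_exp, Complex.re_ofReal_mul, Complex.log_re, Real.rpow_def_of_pos hp, mul_comm]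
  refine ⟨⟨fun z hz => ?_, fun z _ => exp_ne_zero _, fun z hz => ?_, fun z hz => ?_, hq.pos⟩, ?_⟩
  · have hs : q z ∈ slitPlane := by
      refine Complex.mem_slitPlane_iff_arg.2 ⟨fun h => ?_, hq.ne z hz⟩
      have h1 := ha z hz
      rw [h, abs_of_pos hpi] at h1
      nlinarith
    exact (analyticAt_const.mul ((hq.an z hz).clog hs)).cexp
  · show 0 ≤ (exp (((1 / β : ℝ) : ℂ) * log (q z))).re
    rw [Complex.exp_re, Complex.im_ofReal_mul, Complex.log_im]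
    refine mul_nonneg (Real.exp_pos _).le (Real.cos_nonneg_of_mem_Icc ?_)
    have h1 := abs_le.1 (ha z hz)
    constructor
    · have h2 : 1 / β * (-(β * Real.pi / 2)) ≤ 1 / β * (q z).arg :=
        mul_le_mul_of_nonneg_left h1.1 (by positivity)
      have h3 : 1 / β * (-(β * Real.pi / 2)) = -(Real.pi / 2) := by field_simp
      linarith
    · have h2 : 1 / β * (q z).arg ≤ 1 / β * (β * Real.pi / 2) :=
        mul_le_mul_of_nonneg_left h1.2 (by positivity)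
      have h3 : 1 / β * (β * Real.pi / 2) = Real.pi / 2 := by field_simp
      linarith
  · show ‖deriv f z‖⁻¹ ≤ M * ‖exp (((1 / β : ℝ) : ℂ) * log (q z))‖ ^ β
    rw [hn z hz, ← Real.rpow_mul (norm_nonneg _), one_div, inv_mul_cancel₀ hβ.ne']
    exact hq.le z hz
  · rw [hn 0 (mem_ball_self one_pos), Real.mul_rpow (norm_nonneg _) hq.pos.le]

/-- As `Uni.spiral`, with the explicit weight. -/
theorem Uni.spiral_eq {f F : ℂ → ℂ} (h : Uni f F) (h0 : f 0 = 0) {τ : ℝ} (hτ : |τ| < Real.pi / 2)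
    (hs : ∀ z ∈ ball (0 : ℂ) 1, z ≠ 0 → 0 ≤ (exp (τ * I) * (z * deriv f z / f z)).re) :
    ∃ (q : ℂ → ℂ) (M : ℝ), Qm f q 1 M ∧ ‖q 0‖ * M = 4 / ‖deriv f 0‖ ∧ q 0 = exp (-(τ * I)) ∧
      ∀ z ∈ ball (0 : ℂ) 1, z ≠ 0 → q z = (exp (τ * I) * (z * deriv f z / f z))⁻¹ := by
  have hz0 : (0 : ℂ) ∈ ball (0 : ℂ) 1 := mem_ball_self one_pos
  have hne : ∀ z ∈ ball (0 : ℂ) 1, deriv f z ≠ 0 := fun z hz =>
    (H65K.deriv_inv isOpen_ball h.diff h.inj h.inv hz).1
  have hpos0 : 0 < ‖deriv f 0‖ := norm_pos_iff.2 (hne 0 hz0)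
  have hfz : ∀ z ∈ ball (0 : ℂ) 1, z ≠ 0 → f z ≠ 0 := by
    intro z hz hz2 hfz
    exact hz2 (h.inj hz hz0 (hfz.trans h0.symm))
  have hds : ∀ z : ℂ, z ≠ 0 → dslope f 0 z = f z / z := by
    intro z hz
    rw [dslope_of_ne _ hz, slope_def_field, h0, sub_zero, sub_zero]
  have hds0 : dslope f 0 0 = deriv f 0 := dslope_same f 0
  have hdsne : ∀ z ∈ ball (0 : ℂ) 1, dslope f 0 z ≠ 0 := by
    intro z hz
    by_cases hz2 : z = 0
    · rw [hz2, hds0]
      exact hne 0 hz0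
    · rw [hds z hz2]
      exact div_ne_zero (hfz z hz hz2) hz2
  have hdiff : DifferentiableOn ℂ (dslope f 0) (ball (0 : ℂ) 1) :=
    (Complex.differentiableOn_dslope (ball_mem_nhds (0 : ℂ) one_pos)).2 h.diff
  have hen : ‖exp (-(τ * I))‖ = 1 := by
    have h1 : -((τ : ℂ) * I) = ((-τ : ℝ) : ℂ) * I := by push_cast; ring
    rw [h1, Complex.norm_exp_ofReal_mul_I]
  have heq0 : exp (-(τ * I)) * dslope f 0 0 / deriv f 0 = exp (-(τ * I)) := by
    rw [hds0, mul_div_assoc, div_self (hne 0 hz0), mul_one]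
  have heq : ∀ z ∈ ball (0 : ℂ) 1, z ≠ 0 →
      exp (-(τ * I)) * dslope f 0 z / deriv f z = (exp (τ * I) * (z * deriv f z / f z))⁻¹ := by
    intro z hz hz2
    rw [hds z hz2, Complex.exp_neg, mul_inv, inv_div]
    have h2 := hne z hz
    have h3 := exp_ne_zero ((τ : ℂ) * I)
    field_simp
  refine ⟨fun z => exp (-(τ * I)) * dslope f 0 z / deriv f z, 4 / ‖deriv f 0‖,
    ⟨fun z hz => ?_, fun z hz => ?_, fun z hz => ?_, fun z hz => ?_, by positivity⟩, ?_, heq0, heq⟩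
  · have h1 : AnalyticAt ℂ (dslope f 0) z := hdiff.analyticAt (isOpen_ball.mem_nhds hz)
    have h2 : AnalyticAt ℂ (deriv f) z := (h.diff.analyticAt (isOpen_ball.mem_nhds hz)).deriv
    exact (analyticAt_const.mul h1).div h2 (hne z hz)
  · exact div_ne_zero (mul_ne_zero (exp_ne_zero _) (hdsne z hz)) (hne z hz)
  · show 0 ≤ (exp (-(τ * I)) * dslope f 0 z / deriv f z).re
    by_cases hz2 : z = 0
    · rw [hz2, heq0]
      have h1 : -((τ : ℂ) * I) = ((-τ : ℝ) : ℂ) * I := by push_cast; ring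
      rw [h1, Complex.exp_ofReal_mul_I_re, Real.cos_neg]
      rw [abs_lt] at hτ
      exact Real.cos_nonneg_of_mem_Icc ⟨by linarith [hτ.1], by linarith [hτ.2]⟩
    · rw [heq z hz hz2, Complex.inv_re]
      exact div_nonneg (hs z hz hz2) (Complex.normSq_nonneg _)
  · have h1 : ‖deriv f 0‖ / 4 ≤ ‖dslope f 0 z‖ := by
      by_cases hz2 : z = 0
      · rw [hz2, hds0]
        linarith
      · rw [hds z hz2, norm_div, le_div_iff₀ (norm_pos_iff.2 hz2)]
        have h2 := h.low h0 hz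
        linarith
    have h2 : 1 ≤ 4 / ‖deriv f 0‖ * ‖dslope f 0 z‖ := by
      calc (1 : ℝ) = 4 / ‖deriv f 0‖ * (‖deriv f 0‖ / 4) := by field_simp
        _ ≤ _ := mul_le_mul_of_nonneg_left h1 (by positivity)
    have h3 : 0 < ‖deriv f z‖ := norm_pos_iff.2 (hne z hz)
    rw [Real.rpow_one, norm_div, norm_mul, hen, one_mul, ← mul_div_assoc, inv_eq_one_div]
    exact div_le_div_of_nonneg_right h2 h3.le
  · show ‖exp (-(τ * I)) * dslope f 0 0 / deriv f 0‖ * (4 / ‖deriv f 0‖) = 4 / ‖deriv f 0‖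
    rw [heq0, hen, one_mul]

/-- Strongly spirallike functions of order `β ≤ 1`. -/
theorem Uni.strong {f F : ℂ → ℂ} (h : Uni f F) (h0 : f 0 = 0) {β τ : ℝ} (hβ : 0 < β) (hβ1 : β ≤ 1)
    (hτ : |τ| < Real.pi / 2)
    (hs : ∀ z ∈ ball (0 : ℂ) 1, z ≠ 0 →
      |(exp (τ * I) * (z * deriv f z / f z)).arg| ≤ β * Real.pi / 2) :
    ∃ (q : ℂ → ℂ) (M : ℝ), Qm f q β M ∧ ‖q 0‖ * M ^ (1 / β) = (4 / ‖deriv f 0‖) ^ (1 / β) := by
  have hpi := Real.pi_pos
  have hs' : ∀ z ∈ ball (0 : ℂ) 1, z ≠ 0 → 0 ≤ (exp (τ * I) * (z * deriv f z / f z)).re := by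
    intro z hz hz2
    rw [← Complex.abs_arg_le_pi_div_two_iff]
    refine (hs z hz hz2).trans ?_
    nlinarith
  obtain ⟨q, M, hq, e, e0, e1⟩ := h.spiral_eq h0 hτ hs'
  have hz0 : (0 : ℂ) ∈ ball (0 : ℂ) 1 := mem_ball_self one_pos
  have ha1 : ∀ z ∈ ball (0 : ℂ) 1, z ≠ 0 → |(q z).arg| ≤ β * Real.pi / 2 := by
    intro z hz hz2
    rw [e1 z hz hz2]
    have h1 := hs z hz hz2
    have h2 : (exp (τ * I) * (z * deriv f z / f z)).arg ≠ Real.pi := by
      intro h3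
      rw [h3, abs_of_pos hpi] at h1
      nlinarith
    rw [Complex.arg_inv, if_neg h2, abs_neg]
    exact h1
  have ha : ∀ z ∈ ball (0 : ℂ) 1, |(q z).arg| ≤ β * Real.pi / 2 := by
    intro z hz
    by_cases hz2 : z = 0
    · rw [hz2]
      have hs0 : q 0 ∈ slitPlane := by
        rw [Complex.mem_slitPlane_iff]
        left
        rw [e0]
        have h1 : -((τ : ℂ) * I) = ((-τ : ℝ) : ℂ) * I := by push_cast; ring
        rw [h1, Complex.exp_ofReal_mul_I_re, Real.cos_neg]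
        rw [abs_lt] at hτ
        exact Real.cos_pos_of_mem_Ioo ⟨by linarith [hτ.1], by linarith [hτ.2]⟩
      have hc : ContinuousAt (fun z => |(q z).arg|) 0 :=
        ((Complex.continuousAt_arg hs0).comp (hq.an 0 hz0).continuousAt).abs
      have h2 : ∀ᶠ z in 𝓝[≠] (0 : ℂ), |(q z).arg| ≤ β * Real.pi / 2 := by
        filter_upwards [self_mem_nhdsWithin, nhdsWithin_le_nhds (isOpen_ball.mem_nhds hz0)] with z h3 h4
        exact ha1 z h4 h3
      exact le_of_tendsto (hc.tendsto.mono_left nhdsWithin_le_nhds) h2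
    · exact ha1 z hz hz2
  obtain ⟨h1, h2⟩ := hq.root hβ hβ1 ha
  refine ⟨_, M, h1, ?_⟩
  rw [h2, e]

end Pool.Agent.H.MP_215299_an.CC
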