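import Pool.Agent.H.MP_215299_an.CC.Defs

/-!
CC, module SmA1: calculus of the mean value inequality `SubM`, compositions of harmonic functions.
-/

set_option autoImplicit false

open Complex Metric Set MeasureTheory Filter Topology InnerProductSpace
open scoped ComplexConjugate

namespace Pool.Agent.H.MP_215299_an.CC

private theorem SmA1_ev {p : ℂ → Prop} {w : ℂ} (h : ∀ᶠ z in 𝓝 w, p z) :
    ∀ᶠ r in 𝓝[>] (0 : ℝ), 0 < r ∧ ∀ z ∈ closedBall w r, p z := by
  obtain ⟨ε, hε, hp⟩ := Metric.nhds_basis_closedBall.eventually_iff.1 h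
  filter_upwards [Ioc_mem_nhdsGT hε] with r hr
  exact ⟨hr.1, fun z hz => hp (closedBall_subset_closedBall hr.2 hz)⟩

/-- PROOF: `HarmonicOnNhd.circleAverage_eq` on small closed balls (the set of points of harmonicity is open,
`isOpen_setOfPred_harmonicAt`). -/
theorem SubM.of_harmonic {u : ℂ → ℝ} {w : ℂ} (h : HarmonicAt u w) : SubM u w := by
  have h1 : ∀ᶠ z in 𝓝 w, HarmonicAt u z := (isOpen_setOfPred_harmonicAt u).mem_nhds h
  filter_upwards [SmA1_ev h1] with r hr
  have hb : HarmonicOnNhd u (closedBall w |r|) := by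
    rw [abs_of_pos hr.1]
    exact hr.2
  refine ⟨?_, (InnerProductSpace.HarmonicOnNhd.circleAverage_eq hb).ge⟩
  refine ContinuousOn.circleIntegrable' (hb.continuousOn.mono sphere_subset_closedBall)

/-- PROOF: for small `r` both functions agree on the sphere and at `w` (`circleAverage_congr_sphere`). -/
theorem SubM.congr {u v : ℂ → ℝ} {w : ℂ} (h : SubM u w) (e : u =ᶠ[𝓝 w] v) : SubM v w := by
  filter_upwards [h, SmA1_ev e] with r hr he
  have hs : EqOn u v (sphere w |r|) := by
    rw [abs_of_pos he.1]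
    exact fun z hz => he.2 z (sphere_subset_closedBall hz)
  refine ⟨(circleIntegrable_congr hs).1 hr.1, ?_⟩
  rw [← he.2 w (mem_closedBall_self he.1.le), ← Real.circleAverage_congr_sphere hs]
  exact hr.2

theorem SubM.add {u v : ℂ → ℝ} {w : ℂ} (hu : SubM u w) (hv : SubM v w) :
    SubM (fun z => u z + v z) w := by
  filter_upwards [hu, hv] with r h1 h2
  refine ⟨h1.1.add h2.1, ?_⟩
  rw [Real.circleAverage_fun_add h1.1 h2.1]
  exact add_le_add h1.2 h2.2

/-- PROOF: `0 ≤ circleAverage u w r` as `0 ≤ u`; `u` is continuous on small circles. -/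
theorem SubM.of_zero {u : ℂ → ℝ} {w : ℂ} (hc : ∀ᶠ z in 𝓝 w, ContinuousAt u z) (h0 : ∀ z, 0 ≤ u z)
    (hw : u w = 0) : SubM u w := by
  filter_upwards [SmA1_ev hc] with r hr
  refine ⟨ContinuousOn.circleIntegrable' ?_, ?_⟩
  · rw [abs_of_pos hr.1]
    exact fun z hz => (hr.2 z (sphere_subset_closedBall hz)).continuousWithinAt
  · rw [hw]
    exact Real.circleAverage_nonneg_of_nonneg fun z _ => h0 z

end Pool.Agent.H.MP_215299_an.CC
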