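import Pool.Agent.H.MP_215299_an.CC.FoB
import Pool.Agent.H.MP_215299_an.CC.SmA2

/-!
CC, module Sym1: the gain at a real point, general position of the omitted point.
-/

set_option autoImplicit false

open Complex Metric Set MeasureTheory Filter Topology InnerProductSpace
open scoped ComplexConjugate

namespace Pool.Agent.H.MP_215299_an.CC

/-- Translation by a real number: the omitted point is `ξ + κ i` with `κ ≥ 0`, `ξ ≤ x`. PROOF: `fold` for `u (w + ξ)`, `a = x - ξ`. -/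
theorem gain1 {Ω : Set ℂ} {u : ℂ → ℝ} {M x δ : ℝ} {ζ : ℂ} (hΩ : IsOpen Ω) (hu : Continuous u)
    (hu0 : ∀ w, w ∉ Ω → u w = 0) (hp : ∀ w, 0 ≤ u w) (hM : ∀ w, u w ≤ M)
    (hh : ∀ w ∈ Ω, w.im ≠ 0 → HarmonicAt u w)
    (hσ : ∃ σ : ℂ → ℂ, ContinuousOn σ Ω ∧ ∀ w ∈ Ω, σ w ^ 2 = w - ζ) (hδ : 0 < δ)
    (hd : ‖ζ - x‖ = δ) (hb : ball (x : ℂ) δ ⊆ Ω) (h1 : 0 ≤ ζ.im) (h2 : ζ.re ≤ x) :
    u (x + (1 + I) * δ / 8) + u (x + (1 - I) * δ / 8) ≤ (2 - 1 / 1000) * M := by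
  obtain ⟨σ, hσc, hσ2⟩ := hσ
  have hT : Continuous fun w : ℂ => w + (ζ.re : ℂ) := by fun_prop
  have hζ : (ζ.re : ℂ) + (ζ.im : ℂ) * I = ζ := Complex.re_add_im ζ
  have hmaps : MapsTo (fun w : ℂ => w + (ζ.re : ℂ)) ((fun w : ℂ => w + (ζ.re : ℂ)) ⁻¹' Ω) Ω :=
    fun w hw => hw
  have h := fold (Ω := (fun w : ℂ => w + (ζ.re : ℂ)) ⁻¹' Ω) (u := fun w => u (w + (ζ.re : ℂ)))
    (σ := fun w => σ (w + (ζ.re : ℂ))) (M := M) (a := x - ζ.re) (κ := ζ.im) (δ := δ)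
    (hΩ.preimage hT) (hu.comp hT) (fun w hw => hu0 _ hw) (fun w => hp _) (fun w => hM _)
    (by
      intro w hw him
      have hg : AnalyticAt ℂ (fun w : ℂ => w + (ζ.re : ℂ)) w := by fun_prop
      refine harm_comp (g := fun w : ℂ => w + (ζ.re : ℂ)) hg (hh _ hw ?_)
      simpa using him)
    (hσc.comp hT.continuousOn hmaps)
    (by
      intro w hw
      show σ (w + (ζ.re : ℂ)) ^ 2 = w - (ζ.im : ℂ) * I
      rw [hσ2 _ hw]
      linear_combination hζ)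
    h1 (by linarith) hδ
    (by
      rw [← hd, ← Complex.normSq_eq_norm_sq, Complex.normSq_apply]
      simp only [Complex.sub_re, Complex.sub_im, Complex.ofReal_re, Complex.ofReal_im]
      ring)
    (by
      intro w hw
      apply hb
      rw [mem_ball, dist_eq_norm] at hw ⊢
      have e : w + (ζ.re : ℂ) - (x : ℂ) = w - ((x - ζ.re : ℝ) : ℂ) := by
        push_cast
        ring
      rw [e]
      exact hw)
  have e1 : (((x - ζ.re : ℝ) : ℂ) + (1 + I) * δ / 8) + (ζ.re : ℂ) = x + (1 + I) * δ / 8 := by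
    push_cast
    ring
  have e2 : (((x - ζ.re : ℝ) : ℂ) + (1 - I) * δ / 8) + (ζ.re : ℂ) = x + (1 - I) * δ / 8 := by
    push_cast
    ring
  simp only [e1, e2] at h
  exact h

end Pool.Agent.H.MP_215299_an.CC
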